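import Pool.Agent.MP_8fe08c_co.h82.Spec
import Mathlib.Analysis.Calculus.Deriv.MeanValue
import Mathlib.Analysis.SpecialFunctions.Trigonometric.Deriv
import Mathlib.Analysis.SpecialFunctions.Trigonometric.Bounds

set_option autoImplicit false

open Real Set

namespace Pool.Agent.MP_8fe08c_co.h82

noncomputable section

theorem anti_of {f : ℝ → ℝ} {a b : ℝ} (hab : a ≤ b)
    (h : ∀ x ∈ Icc a b, ∃ f', HasDerivAt f f' x ∧ f' ≤ 0) : f b ≤ f a := by
  refine antitoneOn_of_deriv_nonpos (convex_Icc a b) (fun x hx => ?_) (fun x hx => ?_)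
    (fun x hx => ?_) (left_mem_Icc.mpr hab) (right_mem_Icc.mpr hab) hab
  · obtain ⟨f', h1, -⟩ := h x hx
    exact h1.continuousAt.continuousWithinAt
  · obtain ⟨f', h1, -⟩ := h x (interior_subset hx)
    exact h1.differentiableAt.differentiableWithinAt
  · obtain ⟨f', h1, h2⟩ := h x (interior_subset hx)
    rw [h1.deriv]; exact h2

theorem half {c s : ℝ} (h : c ^ 2 + s ^ 2 = 1) (hs : 0 < s) :
    ∃ x, -c / (1 + s) = x ∧ s = (1 - x ^ 2) / (1 + x ^ 2) ∧ c = -2 * x / (1 + x ^ 2) ∧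
      0 < 1 - x ^ 2 := by
  have h1 : (-c / (1 + s)) ^ 2 = (1 - s) / (1 + s) := by
    field_simp; linear_combination h
  refine ⟨_, rfl, ?_, ?_, ?_⟩
  · rw [h1]; field_simp; ring
  · rw [h1]; field_simp; ring
  · rw [h1]; field_simp; linarith

theorem abs_le_of_sq {x : ℝ} (h : 0 < 1 - x ^ 2) : |x| ≤ 1 := by
  rw [abs_le]; constructor <;> nlinarith

theorem hd_half {c s : ℝ → ℝ} {a : ℝ} (hc : HasDerivAt c (-s a) a) (hs : HasDerivAt s (c a) a)
    (h : c a ^ 2 + s a ^ 2 = 1) (h0 : 0 < s a) :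
    HasDerivAt (fun a => -c a / (1 + s a)) ((1 + (-c a / (1 + s a)) ^ 2) / 2) a := by
  refine (hc.fun_neg.fun_div (hs.const_add 1) (by positivity)).congr_deriv ?_
  field_simp
  linear_combination h

/-- Direction of the chord. -/
def cf (P Q a : ℝ) : ℝ := P * cos a - Q * sin a
def sf (P Q a : ℝ) : ℝ := Q * cos a + P * sin a
def xf (P Q a : ℝ) : ℝ := -cf P Q a / (1 + sf P Q a)
def zf (a : ℝ) : ℝ := -cos a / (1 + sin a)
def tf (P Q r yb a : ℝ) : ℝ := 1 + yb / (r * (sin a * sf P Q a))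

theorem hd_cf (P Q a : ℝ) : HasDerivAt (cf P Q) (-sf P Q a) a :=
  (((hasDerivAt_cos a).const_mul P).fun_sub ((hasDerivAt_sin a).const_mul Q)).congr_deriv
    (by unfold sf; ring)

theorem hd_sf (P Q a : ℝ) : HasDerivAt (sf P Q) (cf P Q a) a :=
  (((hasDerivAt_cos a).const_mul Q).fun_add ((hasDerivAt_sin a).const_mul P)).congr_deriv
    (by unfold cf; ring)

theorem cs_one {P Q : ℝ} (h : P ^ 2 + Q ^ 2 = 1) (a : ℝ) : cf P Q a ^ 2 + sf P Q a ^ 2 = 1 := by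
  unfold cf sf
  linear_combination (sin a ^ 2 + cos a ^ 2) * h + sin_sq_add_cos_sq a

theorem hd_tf {P Q r yb a : ℝ} (hr : 0 < r) (hS : 0 < sin a) (hs : 0 < sf P Q a) :
    HasDerivAt (tf P Q r yb) ((1 - tf P Q r yb a) * (cos a / sin a + cf P Q a / sf P Q a)) a := by
  refine (((hasDerivAt_const a yb).fun_div (((hasDerivAt_sin a).fun_mul (hd_sf P Q a)).const_mul r)
    (by positivity)).const_add 1).congr_deriv ?_
  unfold tf
  field_simp
  ring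

/-- The potential along an arc. -/
def Phi (lam : ℝ) (G : ℝ → ℝ → ℝ → ℝ → ℝ) (P Q r yb a D : ℝ) : ℝ :=
  2 * r * sin a * (1 / 2 + G (xf P Q a) (zf a) (tf P Q r yb a) (D / (2 * r * sin a)))
    + lam * (r * sin a * cf P Q a * (1 - D / (2 * r * sin a))) - D / 2

variable {lam : ℝ} {G Gx Gz Gt Gd : ℝ → ℝ → ℝ → ℝ → ℝ} {W Wx Wz Wt : ℝ → ℝ → ℝ → ℝ}
  {P Q r yb : ℝ}

theorem abs_tf {a : ℝ} (hr : 0 < r) (hb : yb ≤ 0) (hS : 0 < sin a) (hs : 0 < sf P Q a)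
    (hy : 0 ≤ yb + 2 * r * sin a * sf P Q a) : |tf P Q r yb a| ≤ 1 := by
  have hp : 0 < r * (sin a * sf P Q a) := by positivity
  have h1 : yb / (r * (sin a * sf P Q a)) ≤ 0 := div_nonpos_of_nonpos_of_nonneg hb hp.le
  have h2 : -2 ≤ yb / (r * (sin a * sf P Q a)) := by rw [le_div_iff₀ hp]; linarith
  unfold tf
  rw [abs_le]; constructor <;> linarith

theorem phase1 (hG : Cert lam G Gx Gz Gt Gd W Wx Wz Wt) (hPQ : P ^ 2 + Q ^ 2 = 1) (hr : 0 < r)
    (hb : yb ≤ 0) {a1 a0 D : ℝ} (h10 : a1 ≤ a0) (p1 : 0 < a1) (p0 : a0 < π)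
    (hs : ∀ a ∈ Icc a1 a0, 0 < sf P Q a ∧ 0 ≤ yb + 2 * r * sin a * sf P Q a)
    (hD0 : -(2 * r * sin a0) ≤ D) (hD1 : D + 2 * r * (a0 - a1) ≤ 2 * r * sin a1) :
    Phi lam G P Q r yb a0 D ≤ Phi lam G P Q r yb a1 (D + 2 * r * (a0 - a1)) := by
  have := anti_of (f := fun a => Phi lam G P Q r yb a (D + 2 * r * (a0 - a))) h10 ?_
  · simpa using this
  intro a ha
  obtain ⟨s0, y0⟩ := hs a ha
  have S0 : 0 < sin a := sin_pos_of_pos_of_lt_pi (by linarith [ha.1]) (by linarith [ha.2])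
  have hl : 0 < 2 * r * sin a := by positivity
  have hD : HasDerivAt (fun a => D + 2 * r * (a0 - a)) (-(2 * r)) a :=
    ((((hasDerivAt_id a).const_sub a0).const_mul (2 * r)).const_add D).congr_deriv (by ring)
  have hL : HasDerivAt (fun a => 2 * r * sin a) (2 * r * cos a) a := (hasDerivAt_sin a).const_mul _
  obtain ⟨d, hd⟩ : ∃ d, (D + 2 * r * (a0 - a)) / (2 * r * sin a) = d := ⟨_, rfl⟩
  have hd' : HasDerivAt (fun a => (D + 2 * r * (a0 - a)) / (2 * r * sin a))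
      (-(1 + d * cos a) / sin a) a := by
    refine (hD.fun_div hL hl.ne').congr_deriv ?_
    rw [← hd]; field_simp; ring
  have habs : |d| ≤ 1 := by
    have u1 := abs_le.mp (abs_sin_sub_sin_le a a0)
    have u2 := abs_le.mp (abs_sin_sub_sin_le a a1)
    rw [abs_of_nonpos (by linarith [ha.2])] at u1
    rw [abs_of_nonneg (by linarith [ha.1])] at u2
    rw [← hd, abs_le, le_div_iff₀ hl, div_le_iff₀ hl]
    constructor <;> nlinarith [u1.1, u2.1]
  have hx := hd_half (hd_cf P Q a) (hd_sf P Q a) (cs_one hPQ a) s0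
  have hz := hd_half (hasDerivAt_cos a) (hasDerivAt_sin a) (cos_sq_add_sin_sq a) S0
  have ht := hd_tf (yb := yb) hr S0 s0
  have hg := hG.dG hx hz ht hd'
  refine ⟨_, ((hL.fun_mul (hg.const_add (1 / 2))).fun_add
    ((((((hasDerivAt_sin a).const_mul r).fun_mul (hd_cf P Q a)).fun_mul
      (hd'.const_sub 1))).const_mul lam)).fun_sub (hD.div_const 2), ?_⟩
  obtain ⟨x, e1, e2, e3, e4⟩ := half (cs_one hPQ a) s0
  obtain ⟨z, f1, f2, f3, f4⟩ := half (cos_sq_add_sin_sq a) S0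
  have key := hG.nA x z _ d (abs_le_of_sq e4) (abs_le_of_sq f4) (abs_tf hr hb S0 s0 y0) habs
  rw [hd, e1, f1]
  generalize tf P Q r yb a = t at key ⊢
  generalize G x z t d = g at key ⊢
  generalize Gx x z t d = gx at key ⊢
  generalize Gz x z t d = gz at key ⊢
  generalize Gt x z t d = gt at key ⊢
  generalize Gd x z t d = gd at key ⊢
  rw [e2, e3, f2, f3]
  have q : 0 < (1 + z ^ 2) * ((1 - x ^ 2) * (1 + x ^ 2)) := by positivity
  refine le_of_eq_of_le ?_ (neg_nonpos.mpr (mul_nonneg (by positivity : 0 ≤ 2 * r)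
    (div_nonneg key q.le)))
  have := e4.ne'
  have := f4.ne'
  field_simp
  ring

theorem phase2 (hG : Cert lam G Gx Gz Gt Gd W Wx Wz Wt) (hPQ : P ^ 2 + Q ^ 2 = 1) (hr : 0 < r)
    (hb : yb ≤ 0) {a1 a0 : ℝ} (h10 : a1 ≤ a0) (p1 : 0 < a1) (p0 : a0 < π)
    (hs : ∀ a ∈ Icc a1 a0, 0 < sf P Q a ∧ 0 ≤ yb + 2 * r * sin a * sf P Q a) :
    W (xf P Q a0) (zf a0) (tf P Q r yb a0) / sf P Q a0 ≤
      W (xf P Q a1) (zf a1) (tf P Q r yb a1) / sf P Q a1 := by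
  refine anti_of (f := fun a => W (xf P Q a) (zf a) (tf P Q r yb a) / sf P Q a) h10 ?_
  intro a ha
  obtain ⟨s0, y0⟩ := hs a ha
  have S0 : 0 < sin a := sin_pos_of_pos_of_lt_pi (by linarith [ha.1]) (by linarith [ha.2])
  have hx := hd_half (hd_cf P Q a) (hd_sf P Q a) (cs_one hPQ a) s0
  have hz := hd_half (hasDerivAt_cos a) (hasDerivAt_sin a) (cos_sq_add_sin_sq a) S0
  have ht := hd_tf (yb := yb) hr S0 s0
  refine ⟨_, (hG.dW hx hz ht).fun_div (hd_sf P Q a) s0.ne', ?_⟩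
  obtain ⟨x, e1, e2, e3, e4⟩ := half (cs_one hPQ a) s0
  obtain ⟨z, f1, f2, f3, f4⟩ := half (cos_sq_add_sin_sq a) S0
  have key := hG.nB x z _ (abs_le_of_sq e4) (abs_le_of_sq f4) (abs_tf hr hb S0 s0 y0)
  rw [e1, f1]
  generalize tf P Q r yb a = t at key ⊢
  generalize W x z t = g at key ⊢
  generalize Wx x z t = gx at key ⊢
  generalize Wz x z t = gz at key ⊢
  generalize Wt x z t = gt at key ⊢
  refine div_nonpos_of_nonpos_of_nonneg ?_ (by positivity)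
  rw [e2, e3, f2, f3]
  have q : 0 < (1 - z ^ 2) * (1 + x ^ 2) := by positivity
  refine le_of_eq_of_le ?_ (neg_nonpos.mpr (div_nonneg key q.le))
  have := e4.ne'
  have := f4.ne'
  field_simp
  ring

theorem Phi_top (hG : Cert lam G Gx Gz Gt Gd W Wx Wz Wt) (hr : 0 < r) {a : ℝ} (hS : 0 < sin a)
    (hs : 0 < sf P Q a) : Phi lam G P Q r yb a (2 * r * sin a) =
      -(2 * yb) * (W (xf P Q a) (zf a) (tf P Q r yb a) / sf P Q a) := by
  unfold Phi
  rw [div_self (by positivity), hG.top]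
  generalize W (xf P Q a) (zf a) (tf P Q r yb a) = w
  unfold tf
  field_simp
  ring

theorem exists_hit {a1 a0 D : ℝ} (h10 : a1 ≤ a0) (h0 : D ≤ 2 * r * sin a0)
    (h1 : 2 * r * sin a1 ≤ D + 2 * r * (a0 - a1)) :
    ∃ a ∈ Icc a1 a0, D + 2 * r * (a0 - a) = 2 * r * sin a := by
  have := intermediate_value_Icc' h10 (f := fun a => D + 2 * r * (a0 - a) - 2 * r * sin a)
    (by fun_prop)
  obtain ⟨a, ha, e⟩ := this (show (0 : ℝ) ∈ _ from ⟨by linarith, by linarith⟩)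
  exact ⟨a, ha, by beta_reduce at e; linarith⟩

theorem move (hG : Cert lam G Gx Gz Gt Gd W Wx Wz Wt) (hPQ : P ^ 2 + Q ^ 2 = 1) (hr : 0 < r)
    (hb : yb ≤ 0) {a1 a0 D : ℝ} (h10 : a1 ≤ a0) (p1 : 0 < a1) (p0 : a0 < π)
    (hs : ∀ a ∈ Icc a1 a0, 0 < sf P Q a ∧ 0 ≤ yb + 2 * r * sin a * sf P Q a)
    (hD : |D| ≤ 2 * r * sin a0) :
    ∃ D', |D'| ≤ 2 * r * sin a1 ∧ (D' = D + 2 * r * (a0 - a1) ∨ D' = 2 * r * sin a1) ∧
      Phi lam G P Q r yb a0 D ≤ Phi lam G P Q r yb a1 D' := by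
  rw [abs_le] at hD
  have S1 : 0 < sin a1 := sin_pos_of_pos_of_lt_pi p1 (by linarith)
  rcases le_total (D + 2 * r * (a0 - a1)) (2 * r * sin a1) with h | h
  · refine ⟨_, ?_, Or.inl rfl, phase1 hG hPQ hr hb h10 p1 p0 hs hD.1 h⟩
    have u1 := abs_le.mp (abs_sin_sub_sin_le a1 a0)
    rw [abs_of_nonpos (by linarith)] at u1
    rw [abs_le]
    constructor <;> nlinarith [u1.1]
  · obtain ⟨a, ha, e⟩ := exists_hit h10 hD.2 h
    refine ⟨_, (abs_of_pos (by positivity)).le, Or.inr rfl, ?_⟩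
    have k1 := phase1 hG hPQ hr hb ha.2 (p1.trans_le ha.1) p0
      (fun b hb => hs b ⟨ha.1.trans hb.1, hb.2⟩) hD.1 e.le
    have k2 := phase2 hG hPQ hr hb ha.1 p1 (ha.2.trans_lt p0)
      (fun b hb => hs b ⟨hb.1, hb.2.trans ha.2⟩)
    rw [e, Phi_top hG hr (sin_pos_of_pos_of_lt_pi (p1.trans_le ha.1) (ha.2.trans_lt p0))
      (hs a ha).1] at k1
    rw [Phi_top hG hr S1 (hs a1 ⟨le_rfl, h10⟩).1]
    exact k1.trans (mul_le_mul_of_nonneg_left k2 (by linarith))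

theorem finish (hG : Cert lam G Gx Gz Gt Gd W Wx Wz Wt) (hPQ : P ^ 2 + Q ^ 2 = 1) (hr : 0 < r)
    {a0 D : ℝ} (p1 : 0 < a0) (p0 : a0 < π) (hs : ∀ a, 0 < a → a ≤ a0 → 0 < sf P Q a)
    (hD : |D| ≤ 2 * r * sin a0) : Phi lam G P Q r 0 a0 D ≤ 0 := by
  rw [abs_le] at hD
  have h0 := sin_lt p1
  obtain ⟨a, ha, e⟩ := exists_hit (a1 := 0) p1.le hD.2 (by rw [sin_zero]; nlinarith)
  have hp : 0 < a := by
    refine lt_of_le_of_ne ha.1 ?_
    rintro rfl
    rw [sin_zero] at e; nlinarith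
  have k1 := phase1 (yb := 0) hG hPQ hr le_rfl ha.2 hp p0 (fun b hb => by
    have := hs b (hp.trans_le hb.1) hb.2
    have := sin_pos_of_pos_of_lt_pi (hp.trans_le hb.1) (hb.2.trans_lt p0)
    exact ⟨by assumption, by positivity⟩) hD.1 e.le
  rw [e, Phi_top hG hr (sin_pos_of_pos_of_lt_pi hp (ha.2.trans_lt p0)) (hs a hp ha.2)] at k1
  simpa using k1

theorem mono_z (hG : Cert lam G Gx Gz Gt Gd W Wx Wz Wt) {x z z' t d : ℝ} (hx : |x| ≤ 1)
    (hz : -1 ≤ z) (hzz : z ≤ z') (hz' : z' ≤ 1) (ht : |t| ≤ 1) (hd : |d| ≤ 1) :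
    G x z t d ≤ G x z' t d := by
  have aux : ∀ x t d, |x| ≤ 1 → -1 ≤ t → t ≤ 0 → |d| ≤ 1 → G x z t d ≤ G x z' t d := by
    intro x t d hx ht ht' hd
    have := anti_of (f := fun z => -G x z t d) hzz (fun u hu => ⟨_, (hG.dG (hasDerivAt_const u x)
      (hasDerivAt_id u) (hasDerivAt_const u t) (hasDerivAt_const u d)).fun_neg, by
        have := hG.nP x u t d hx (abs_le.mpr ⟨hz.trans hu.1, hu.2.trans hz'⟩) ht ht' hd
        simpa using this⟩)
    simpa using this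
  rw [abs_le] at ht
  rcases le_total t 0 with h | h
  · exact aux x t d hx ht.1 h hd
  · rw [hG.sym x z, hG.sym x z']
    exact aux _ _ _ (by rwa [abs_neg]) (by linarith) (by linarith) (by rwa [abs_neg])

end

end Pool.Agent.MP_8fe08c_co.h82
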