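import Pool.Agent.MP_8fe08c_co.h82.Shadow

set_option autoImplicit false

namespace Pool.Agent.MP_8fe08c_co.h82

noncomputable section

/-- Vectors of length 11. -/
structure RZ (α : Type) where
  (a0 a1 a2 a3 a4 a5 a6 a7 a8 a9 a10 : α)

namespace RZ
variable {α β γ : Type}

def rel (R : α → β → Prop) (r : RZ α) (v : RZ β) : Prop :=
  R r.a0 v.a0 ∧ R r.a1 v.a1 ∧ R r.a2 v.a2 ∧ R r.a3 v.a3 ∧ R r.a4 v.a4 ∧ R r.a5 v.a5 ∧ R r.a6 v.a6 ∧ R r.a7 v.a7 ∧ R r.a8 v.a8 ∧ R r.a9 v.a9 ∧ R r.a10 v.a10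

def ev (A B : ℝ) (v : RZ ℝ) : ℝ :=
  1 * A ^ 0 * B ^ 10 * v.a0 + 10 * A ^ 1 * B ^ 9 * v.a1 + 45 * A ^ 2 * B ^ 8 * v.a2 + 120 * A ^ 3 * B ^ 7 * v.a3 + 210 * A ^ 4 * B ^ 6 * v.a4 + 252 * A ^ 5 * B ^ 5 * v.a5 + 210 * A ^ 6 * B ^ 4 * v.a6 + 120 * A ^ 7 * B ^ 3 * v.a7 + 45 * A ^ 8 * B ^ 2 * v.a8 + 10 * A ^ 9 * B ^ 1 * v.a9 + 1 * A ^ 10 * B ^ 0 * v.a10

def map (f : α → β) (r : RZ α) : RZ β :=
  RZ.rec (fun a0 a1 a2 a3 a4 a5 a6 a7 a8 a9 a10 => RZ.mk (f a0) (f a1) (f a2) (f a3) (f a4) (f a5) (f a6) (f a7) (f a8) (f a9) (f a10)) r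

def toL (r : RZ α) : List α :=
  RZ.rec (fun a0 a1 a2 a3 a4 a5 a6 a7 a8 a9 a10 => [a0, a1, a2, a3, a4, a5, a6, a7, a8, a9, a10]) r

def sL (sh : ℕ → α → α) (r : RZ α) : RZ α :=
  RZ.rec (fun a0 a1 a2 a3 a4 a5 a6 a7 a8 a9 a10 => RZ.mk (sh 10 a0) (sh 9 a1) (sh 8 a2) (sh 7 a3) (sh 6 a4) (sh 5 a5) (sh 4 a6) (sh 3 a7) (sh 2 a8) (sh 1 a9) a10) r

def sR (sh : ℕ → α → α) (r : RZ α) : RZ α :=
  RZ.rec (fun a0 a1 a2 a3 a4 a5 a6 a7 a8 a9 a10 => RZ.mk a0 (sh 1 a1) (sh 2 a2) (sh 3 a3) (sh 4 a4) (sh 5 a5) (sh 6 a6) (sh 7 a7) (sh 8 a8) (sh 9 a9) (sh 10 a10)) r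

def orr (r : RZ ℕ) : ℕ :=
  RZ.rec (fun a0 a1 a2 a3 a4 a5 a6 a7 a8 a9 a10 => (Nat.lor a0 (Nat.lor a1 (Nat.lor a2 (Nat.lor a3 (Nat.lor a4 (Nat.lor a5 (Nat.lor a6 (Nat.lor a7 (Nat.lor a8 (Nat.lor a9 a10))))))))))) r

def zip (f : α → α → α) (r s : RZ α) : RZ α :=
  RZ.rec (fun a0 a1 a2 a3 a4 a5 a6 a7 a8 a9 a10 => RZ.rec (fun b0 b1 b2 b3 b4 b5 b6 b7 b8 b9 b10 => RZ.mk (f a0 b0) (f a1 b1) (f a2 b2) (f a3 b3) (f a4 b4) (f a5 b5) (f a6 b6) (f a7 b7) (f a8 b8) (f a9 b9) (f a10 b10)) s) r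

def D10 (l0 l1 l2 l3 l4 l5 l6 l7 l8 l9 a0 r1 r2 r3 r4 r5 r6 r7 r8 r9 r10 : α) : RZ α × RZ α :=
  (RZ.mk l0 l1 l2 l3 l4 l5 l6 l7 l8 l9 a0, RZ.mk a0 r1 r2 r3 r4 r5 r6 r7 r8 r9 r10)

def D9 (add : α → α → α) (l0 l1 l2 l3 l4 l5 l6 l7 l8 a0 a1 r2 r3 r4 r5 r6 r7 r8 r9 r10 : α) : RZ α × RZ α :=
  D10 l0 l1 l2 l3 l4 l5 l6 l7 l8 a0 (add a0 a1) a1 r2 r3 r4 r5 r6 r7 r8 r9 r10

def D8 (add : α → α → α) (l0 l1 l2 l3 l4 l5 l6 l7 a0 a1 a2 r3 r4 r5 r6 r7 r8 r9 r10 : α) : RZ α × RZ α :=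
  D9 add l0 l1 l2 l3 l4 l5 l6 l7 a0 (add a0 a1) (add a1 a2) a2 r3 r4 r5 r6 r7 r8 r9 r10

def D7 (add : α → α → α) (l0 l1 l2 l3 l4 l5 l6 a0 a1 a2 a3 r4 r5 r6 r7 r8 r9 r10 : α) : RZ α × RZ α :=
  D8 add l0 l1 l2 l3 l4 l5 l6 a0 (add a0 a1) (add a1 a2) (add a2 a3) a3 r4 r5 r6 r7 r8 r9 r10

def D6 (add : α → α → α) (l0 l1 l2 l3 l4 l5 a0 a1 a2 a3 a4 r5 r6 r7 r8 r9 r10 : α) : RZ α × RZ α :=
  D7 add l0 l1 l2 l3 l4 l5 a0 (add a0 a1) (add a1 a2) (add a2 a3) (add a3 a4) a4 r5 r6 r7 r8 r9 r10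

def D5 (add : α → α → α) (l0 l1 l2 l3 l4 a0 a1 a2 a3 a4 a5 r6 r7 r8 r9 r10 : α) : RZ α × RZ α :=
  D6 add l0 l1 l2 l3 l4 a0 (add a0 a1) (add a1 a2) (add a2 a3) (add a3 a4) (add a4 a5) a5 r6 r7 r8 r9 r10

def D4 (add : α → α → α) (l0 l1 l2 l3 a0 a1 a2 a3 a4 a5 a6 r7 r8 r9 r10 : α) : RZ α × RZ α :=
  D5 add l0 l1 l2 l3 a0 (add a0 a1) (add a1 a2) (add a2 a3) (add a3 a4) (add a4 a5) (add a5 a6) a6 r7 r8 r9 r10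

def D3 (add : α → α → α) (l0 l1 l2 a0 a1 a2 a3 a4 a5 a6 a7 r8 r9 r10 : α) : RZ α × RZ α :=
  D4 add l0 l1 l2 a0 (add a0 a1) (add a1 a2) (add a2 a3) (add a3 a4) (add a4 a5) (add a5 a6) (add a6 a7) a7 r8 r9 r10

def D2 (add : α → α → α) (l0 l1 a0 a1 a2 a3 a4 a5 a6 a7 a8 r9 r10 : α) : RZ α × RZ α :=
  D3 add l0 l1 a0 (add a0 a1) (add a1 a2) (add a2 a3) (add a3 a4) (add a4 a5) (add a5 a6) (add a6 a7) (add a7 a8) a8 r9 r10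

def D1 (add : α → α → α) (l0 a0 a1 a2 a3 a4 a5 a6 a7 a8 a9 r10 : α) : RZ α × RZ α :=
  D2 add l0 a0 (add a0 a1) (add a1 a2) (add a2 a3) (add a3 a4) (add a4 a5) (add a5 a6) (add a6 a7) (add a7 a8) (add a8 a9) a9 r10

def D0 (add : α → α → α) (a0 a1 a2 a3 a4 a5 a6 a7 a8 a9 a10 : α) : RZ α × RZ α :=
  D1 add a0 (add a0 a1) (add a1 a2) (add a2 a3) (add a3 a4) (add a4 a5) (add a5 a6) (add a6 a7) (add a7 a8) (add a8 a9) (add a9 a10) a10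

def lr (add : α → α → α) (r : RZ α) : RZ α × RZ α :=
  RZ.rec (fun a0 a1 a2 a3 a4 a5 a6 a7 a8 a9 a10 => D0 add a0 a1 a2 a3 a4 a5 a6 a7 a8 a9 a10) r

variable {R : α → ℝ → Prop} {add : α → α → α}

theorem D10_rel {l0 l1 l2 l3 l4 l5 l6 l7 l8 l9 a0 r1 r2 r3 r4 r5 r6 r7 r8 r9 r10 : α} {l0' l1' l2' l3' l4' l5' l6' l7' l8' l9' a0' r1' r2' r3' r4' r5' r6' r7' r8' r9' r10' : ℝ}
    (hl0 : R l0 l0') (hl1 : R l1 l1') (hl2 : R l2 l2') (hl3 : R l3 l3') (hl4 : R l4 l4') (hl5 : R l5 l5') (hl6 : R l6 l6') (hl7 : R l7 l7') (hl8 : R l8 l8') (hl9 : R l9 l9') (ha0 : R a0 a0') (hr1 : R r1 r1') (hr2 : R r2 r2') (hr3 : R r3 r3') (hr4 : R r4 r4') (hr5 : R r5 r5') (hr6 : R r6 r6') (hr7 : R r7 r7') (hr8 : R r8 r8') (hr9 : R r9 r9') (hr10 : R r10 r10') :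
    rel R (D10 l0 l1 l2 l3 l4 l5 l6 l7 l8 l9 a0 r1 r2 r3 r4 r5 r6 r7 r8 r9 r10).1 (D10 l0' l1' l2' l3' l4' l5' l6' l7' l8' l9' a0' r1' r2' r3' r4' r5' r6' r7' r8' r9' r10').1 ∧
      rel R (D10 l0 l1 l2 l3 l4 l5 l6 l7 l8 l9 a0 r1 r2 r3 r4 r5 r6 r7 r8 r9 r10).2 (D10 l0' l1' l2' l3' l4' l5' l6' l7' l8' l9' a0' r1' r2' r3' r4' r5' r6' r7' r8' r9' r10').2 :=
  ⟨⟨hl0, hl1, hl2, hl3, hl4, hl5, hl6, hl7, hl8, hl9, ha0⟩, ⟨ha0, hr1, hr2, hr3, hr4, hr5, hr6, hr7, hr8, hr9, hr10⟩⟩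

theorem D9_rel (H : ∀ a b u v, R a u → R b v → R (add a b) (u + v)) {l0 l1 l2 l3 l4 l5 l6 l7 l8 a0 a1 r2 r3 r4 r5 r6 r7 r8 r9 r10 : α} {l0' l1' l2' l3' l4' l5' l6' l7' l8' a0' a1' r2' r3' r4' r5' r6' r7' r8' r9' r10' : ℝ}
    (hl0 : R l0 l0') (hl1 : R l1 l1') (hl2 : R l2 l2') (hl3 : R l3 l3') (hl4 : R l4 l4') (hl5 : R l5 l5') (hl6 : R l6 l6') (hl7 : R l7 l7') (hl8 : R l8 l8') (ha0 : R a0 a0') (ha1 : R a1 a1') (hr2 : R r2 r2') (hr3 : R r3 r3') (hr4 : R r4 r4') (hr5 : R r5 r5') (hr6 : R r6 r6') (hr7 : R r7 r7') (hr8 : R r8 r8') (hr9 : R r9 r9') (hr10 : R r10 r10') :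
    rel R (D9 add l0 l1 l2 l3 l4 l5 l6 l7 l8 a0 a1 r2 r3 r4 r5 r6 r7 r8 r9 r10).1 (D9 (· + ·) l0' l1' l2' l3' l4' l5' l6' l7' l8' a0' a1' r2' r3' r4' r5' r6' r7' r8' r9' r10').1 ∧
      rel R (D9 add l0 l1 l2 l3 l4 l5 l6 l7 l8 a0 a1 r2 r3 r4 r5 r6 r7 r8 r9 r10).2 (D9 (· + ·) l0' l1' l2' l3' l4' l5' l6' l7' l8' a0' a1' r2' r3' r4' r5' r6' r7' r8' r9' r10').2 :=
  D10_rel hl0 hl1 hl2 hl3 hl4 hl5 hl6 hl7 hl8 ha0 (H _ _ _ _ ha0 ha1) ha1 hr2 hr3 hr4 hr5 hr6 hr7 hr8 hr9 hr10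

theorem D8_rel (H : ∀ a b u v, R a u → R b v → R (add a b) (u + v)) {l0 l1 l2 l3 l4 l5 l6 l7 a0 a1 a2 r3 r4 r5 r6 r7 r8 r9 r10 : α} {l0' l1' l2' l3' l4' l5' l6' l7' a0' a1' a2' r3' r4' r5' r6' r7' r8' r9' r10' : ℝ}
    (hl0 : R l0 l0') (hl1 : R l1 l1') (hl2 : R l2 l2') (hl3 : R l3 l3') (hl4 : R l4 l4') (hl5 : R l5 l5') (hl6 : R l6 l6') (hl7 : R l7 l7') (ha0 : R a0 a0') (ha1 : R a1 a1') (ha2 : R a2 a2') (hr3 : R r3 r3') (hr4 : R r4 r4') (hr5 : R r5 r5') (hr6 : R r6 r6') (hr7 : R r7 r7') (hr8 : R r8 r8') (hr9 : R r9 r9') (hr10 : R r10 r10') :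
    rel R (D8 add l0 l1 l2 l3 l4 l5 l6 l7 a0 a1 a2 r3 r4 r5 r6 r7 r8 r9 r10).1 (D8 (· + ·) l0' l1' l2' l3' l4' l5' l6' l7' a0' a1' a2' r3' r4' r5' r6' r7' r8' r9' r10').1 ∧
      rel R (D8 add l0 l1 l2 l3 l4 l5 l6 l7 a0 a1 a2 r3 r4 r5 r6 r7 r8 r9 r10).2 (D8 (· + ·) l0' l1' l2' l3' l4' l5' l6' l7' a0' a1' a2' r3' r4' r5' r6' r7' r8' r9' r10').2 :=
  D9_rel H hl0 hl1 hl2 hl3 hl4 hl5 hl6 hl7 ha0 (H _ _ _ _ ha0 ha1) (H _ _ _ _ ha1 ha2) ha2 hr3 hr4 hr5 hr6 hr7 hr8 hr9 hr10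

theorem D7_rel (H : ∀ a b u v, R a u → R b v → R (add a b) (u + v)) {l0 l1 l2 l3 l4 l5 l6 a0 a1 a2 a3 r4 r5 r6 r7 r8 r9 r10 : α} {l0' l1' l2' l3' l4' l5' l6' a0' a1' a2' a3' r4' r5' r6' r7' r8' r9' r10' : ℝ}
    (hl0 : R l0 l0') (hl1 : R l1 l1') (hl2 : R l2 l2') (hl3 : R l3 l3') (hl4 : R l4 l4') (hl5 : R l5 l5') (hl6 : R l6 l6') (ha0 : R a0 a0') (ha1 : R a1 a1') (ha2 : R a2 a2') (ha3 : R a3 a3') (hr4 : R r4 r4') (hr5 : R r5 r5') (hr6 : R r6 r6') (hr7 : R r7 r7') (hr8 : R r8 r8') (hr9 : R r9 r9') (hr10 : R r10 r10') :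
    rel R (D7 add l0 l1 l2 l3 l4 l5 l6 a0 a1 a2 a3 r4 r5 r6 r7 r8 r9 r10).1 (D7 (· + ·) l0' l1' l2' l3' l4' l5' l6' a0' a1' a2' a3' r4' r5' r6' r7' r8' r9' r10').1 ∧
      rel R (D7 add l0 l1 l2 l3 l4 l5 l6 a0 a1 a2 a3 r4 r5 r6 r7 r8 r9 r10).2 (D7 (· + ·) l0' l1' l2' l3' l4' l5' l6' a0' a1' a2' a3' r4' r5' r6' r7' r8' r9' r10').2 :=
  D8_rel H hl0 hl1 hl2 hl3 hl4 hl5 hl6 ha0 (H _ _ _ _ ha0 ha1) (H _ _ _ _ ha1 ha2) (H _ _ _ _ ha2 ha3) ha3 hr4 hr5 hr6 hr7 hr8 hr9 hr10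

theorem D6_rel (H : ∀ a b u v, R a u → R b v → R (add a b) (u + v)) {l0 l1 l2 l3 l4 l5 a0 a1 a2 a3 a4 r5 r6 r7 r8 r9 r10 : α} {l0' l1' l2' l3' l4' l5' a0' a1' a2' a3' a4' r5' r6' r7' r8' r9' r10' : ℝ}
    (hl0 : R l0 l0') (hl1 : R l1 l1') (hl2 : R l2 l2') (hl3 : R l3 l3') (hl4 : R l4 l4') (hl5 : R l5 l5') (ha0 : R a0 a0') (ha1 : R a1 a1') (ha2 : R a2 a2') (ha3 : R a3 a3') (ha4 : R a4 a4') (hr5 : R r5 r5') (hr6 : R r6 r6') (hr7 : R r7 r7') (hr8 : R r8 r8') (hr9 : R r9 r9') (hr10 : R r10 r10') :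
    rel R (D6 add l0 l1 l2 l3 l4 l5 a0 a1 a2 a3 a4 r5 r6 r7 r8 r9 r10).1 (D6 (· + ·) l0' l1' l2' l3' l4' l5' a0' a1' a2' a3' a4' r5' r6' r7' r8' r9' r10').1 ∧
      rel R (D6 add l0 l1 l2 l3 l4 l5 a0 a1 a2 a3 a4 r5 r6 r7 r8 r9 r10).2 (D6 (· + ·) l0' l1' l2' l3' l4' l5' a0' a1' a2' a3' a4' r5' r6' r7' r8' r9' r10').2 :=
  D7_rel H hl0 hl1 hl2 hl3 hl4 hl5 ha0 (H _ _ _ _ ha0 ha1) (H _ _ _ _ ha1 ha2) (H _ _ _ _ ha2 ha3) (H _ _ _ _ ha3 ha4) ha4 hr5 hr6 hr7 hr8 hr9 hr10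

theorem D5_rel (H : ∀ a b u v, R a u → R b v → R (add a b) (u + v)) {l0 l1 l2 l3 l4 a0 a1 a2 a3 a4 a5 r6 r7 r8 r9 r10 : α} {l0' l1' l2' l3' l4' a0' a1' a2' a3' a4' a5' r6' r7' r8' r9' r10' : ℝ}
    (hl0 : R l0 l0') (hl1 : R l1 l1') (hl2 : R l2 l2') (hl3 : R l3 l3') (hl4 : R l4 l4') (ha0 : R a0 a0') (ha1 : R a1 a1') (ha2 : R a2 a2') (ha3 : R a3 a3') (ha4 : R a4 a4') (ha5 : R a5 a5') (hr6 : R r6 r6') (hr7 : R r7 r7') (hr8 : R r8 r8') (hr9 : R r9 r9') (hr10 : R r10 r10') :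
    rel R (D5 add l0 l1 l2 l3 l4 a0 a1 a2 a3 a4 a5 r6 r7 r8 r9 r10).1 (D5 (· + ·) l0' l1' l2' l3' l4' a0' a1' a2' a3' a4' a5' r6' r7' r8' r9' r10').1 ∧
      rel R (D5 add l0 l1 l2 l3 l4 a0 a1 a2 a3 a4 a5 r6 r7 r8 r9 r10).2 (D5 (· + ·) l0' l1' l2' l3' l4' a0' a1' a2' a3' a4' a5' r6' r7' r8' r9' r10').2 :=
  D6_rel H hl0 hl1 hl2 hl3 hl4 ha0 (H _ _ _ _ ha0 ha1) (H _ _ _ _ ha1 ha2) (H _ _ _ _ ha2 ha3) (H _ _ _ _ ha3 ha4) (H _ _ _ _ ha4 ha5) ha5 hr6 hr7 hr8 hr9 hr10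

theorem D4_rel (H : ∀ a b u v, R a u → R b v → R (add a b) (u + v)) {l0 l1 l2 l3 a0 a1 a2 a3 a4 a5 a6 r7 r8 r9 r10 : α} {l0' l1' l2' l3' a0' a1' a2' a3' a4' a5' a6' r7' r8' r9' r10' : ℝ}
    (hl0 : R l0 l0') (hl1 : R l1 l1') (hl2 : R l2 l2') (hl3 : R l3 l3') (ha0 : R a0 a0') (ha1 : R a1 a1') (ha2 : R a2 a2') (ha3 : R a3 a3') (ha4 : R a4 a4') (ha5 : R a5 a5') (ha6 : R a6 a6') (hr7 : R r7 r7') (hr8 : R r8 r8') (hr9 : R r9 r9') (hr10 : R r10 r10') :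
    rel R (D4 add l0 l1 l2 l3 a0 a1 a2 a3 a4 a5 a6 r7 r8 r9 r10).1 (D4 (· + ·) l0' l1' l2' l3' a0' a1' a2' a3' a4' a5' a6' r7' r8' r9' r10').1 ∧
      rel R (D4 add l0 l1 l2 l3 a0 a1 a2 a3 a4 a5 a6 r7 r8 r9 r10).2 (D4 (· + ·) l0' l1' l2' l3' a0' a1' a2' a3' a4' a5' a6' r7' r8' r9' r10').2 :=
  D5_rel H hl0 hl1 hl2 hl3 ha0 (H _ _ _ _ ha0 ha1) (H _ _ _ _ ha1 ha2) (H _ _ _ _ ha2 ha3) (H _ _ _ _ ha3 ha4) (H _ _ _ _ ha4 ha5) (H _ _ _ _ ha5 ha6) ha6 hr7 hr8 hr9 hr10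

theorem D3_rel (H : ∀ a b u v, R a u → R b v → R (add a b) (u + v)) {l0 l1 l2 a0 a1 a2 a3 a4 a5 a6 a7 r8 r9 r10 : α} {l0' l1' l2' a0' a1' a2' a3' a4' a5' a6' a7' r8' r9' r10' : ℝ}
    (hl0 : R l0 l0') (hl1 : R l1 l1') (hl2 : R l2 l2') (ha0 : R a0 a0') (ha1 : R a1 a1') (ha2 : R a2 a2') (ha3 : R a3 a3') (ha4 : R a4 a4') (ha5 : R a5 a5') (ha6 : R a6 a6') (ha7 : R a7 a7') (hr8 : R r8 r8') (hr9 : R r9 r9') (hr10 : R r10 r10') :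
    rel R (D3 add l0 l1 l2 a0 a1 a2 a3 a4 a5 a6 a7 r8 r9 r10).1 (D3 (· + ·) l0' l1' l2' a0' a1' a2' a3' a4' a5' a6' a7' r8' r9' r10').1 ∧
      rel R (D3 add l0 l1 l2 a0 a1 a2 a3 a4 a5 a6 a7 r8 r9 r10).2 (D3 (· + ·) l0' l1' l2' a0' a1' a2' a3' a4' a5' a6' a7' r8' r9' r10').2 :=
  D4_rel H hl0 hl1 hl2 ha0 (H _ _ _ _ ha0 ha1) (H _ _ _ _ ha1 ha2) (H _ _ _ _ ha2 ha3) (H _ _ _ _ ha3 ha4) (H _ _ _ _ ha4 ha5) (H _ _ _ _ ha5 ha6) (H _ _ _ _ ha6 ha7) ha7 hr8 hr9 hr10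

theorem D2_rel (H : ∀ a b u v, R a u → R b v → R (add a b) (u + v)) {l0 l1 a0 a1 a2 a3 a4 a5 a6 a7 a8 r9 r10 : α} {l0' l1' a0' a1' a2' a3' a4' a5' a6' a7' a8' r9' r10' : ℝ}
    (hl0 : R l0 l0') (hl1 : R l1 l1') (ha0 : R a0 a0') (ha1 : R a1 a1') (ha2 : R a2 a2') (ha3 : R a3 a3') (ha4 : R a4 a4') (ha5 : R a5 a5') (ha6 : R a6 a6') (ha7 : R a7 a7') (ha8 : R a8 a8') (hr9 : R r9 r9') (hr10 : R r10 r10') :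
    rel R (D2 add l0 l1 a0 a1 a2 a3 a4 a5 a6 a7 a8 r9 r10).1 (D2 (· + ·) l0' l1' a0' a1' a2' a3' a4' a5' a6' a7' a8' r9' r10').1 ∧
      rel R (D2 add l0 l1 a0 a1 a2 a3 a4 a5 a6 a7 a8 r9 r10).2 (D2 (· + ·) l0' l1' a0' a1' a2' a3' a4' a5' a6' a7' a8' r9' r10').2 :=
  D3_rel H hl0 hl1 ha0 (H _ _ _ _ ha0 ha1) (H _ _ _ _ ha1 ha2) (H _ _ _ _ ha2 ha3) (H _ _ _ _ ha3 ha4) (H _ _ _ _ ha4 ha5) (H _ _ _ _ ha5 ha6) (H _ _ _ _ ha6 ha7) (H _ _ _ _ ha7 ha8) ha8 hr9 hr10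

theorem D1_rel (H : ∀ a b u v, R a u → R b v → R (add a b) (u + v)) {l0 a0 a1 a2 a3 a4 a5 a6 a7 a8 a9 r10 : α} {l0' a0' a1' a2' a3' a4' a5' a6' a7' a8' a9' r10' : ℝ}
    (hl0 : R l0 l0') (ha0 : R a0 a0') (ha1 : R a1 a1') (ha2 : R a2 a2') (ha3 : R a3 a3') (ha4 : R a4 a4') (ha5 : R a5 a5') (ha6 : R a6 a6') (ha7 : R a7 a7') (ha8 : R a8 a8') (ha9 : R a9 a9') (hr10 : R r10 r10') :
    rel R (D1 add l0 a0 a1 a2 a3 a4 a5 a6 a7 a8 a9 r10).1 (D1 (· + ·) l0' a0' a1' a2' a3' a4' a5' a6' a7' a8' a9' r10').1 ∧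
      rel R (D1 add l0 a0 a1 a2 a3 a4 a5 a6 a7 a8 a9 r10).2 (D1 (· + ·) l0' a0' a1' a2' a3' a4' a5' a6' a7' a8' a9' r10').2 :=
  D2_rel H hl0 ha0 (H _ _ _ _ ha0 ha1) (H _ _ _ _ ha1 ha2) (H _ _ _ _ ha2 ha3) (H _ _ _ _ ha3 ha4) (H _ _ _ _ ha4 ha5) (H _ _ _ _ ha5 ha6) (H _ _ _ _ ha6 ha7) (H _ _ _ _ ha7 ha8) (H _ _ _ _ ha8 ha9) ha9 hr10

theorem D0_rel (H : ∀ a b u v, R a u → R b v → R (add a b) (u + v)) {a0 a1 a2 a3 a4 a5 a6 a7 a8 a9 a10 : α} {a0' a1' a2' a3' a4' a5' a6' a7' a8' a9' a10' : ℝ}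
    (ha0 : R a0 a0') (ha1 : R a1 a1') (ha2 : R a2 a2') (ha3 : R a3 a3') (ha4 : R a4 a4') (ha5 : R a5 a5') (ha6 : R a6 a6') (ha7 : R a7 a7') (ha8 : R a8 a8') (ha9 : R a9 a9') (ha10 : R a10 a10') :
    rel R (D0 add a0 a1 a2 a3 a4 a5 a6 a7 a8 a9 a10).1 (D0 (· + ·) a0' a1' a2' a3' a4' a5' a6' a7' a8' a9' a10').1 ∧
      rel R (D0 add a0 a1 a2 a3 a4 a5 a6 a7 a8 a9 a10).2 (D0 (· + ·) a0' a1' a2' a3' a4' a5' a6' a7' a8' a9' a10').2 :=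
  D1_rel H ha0 (H _ _ _ _ ha0 ha1) (H _ _ _ _ ha1 ha2) (H _ _ _ _ ha2 ha3) (H _ _ _ _ ha3 ha4) (H _ _ _ _ ha4 ha5) (H _ _ _ _ ha5 ha6) (H _ _ _ _ ha6 ha7) (H _ _ _ _ ha7 ha8) (H _ _ _ _ ha8 ha9) (H _ _ _ _ ha9 ha10) ha10

theorem lr_rel (H : ∀ a b u v, R a u → R b v → R (add a b) (u + v)) {r : RZ α} {v : RZ ℝ}
    (h : rel R r v) : rel R (lr add r).1 (lr (· + ·) v).1 ∧ rel R (lr add r).2 (lr (· + ·) v).2 := by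
  cases r; cases v
  obtain ⟨h0, h1, h2, h3, h4, h5, h6, h7, h8, h9, h10⟩ := h
  exact D0_rel H h0 h1 h2 h3 h4 h5 h6 h7 h8 h9 h10

theorem ev_l (A B : ℝ) (v : RZ ℝ) : ev A B (lr (· + ·) v).1 = ev A (A + B) v := by
  cases v
  simp only [ev, lr, D0, D1, D2, D3, D4, D5, D6, D7, D8, D9, D10]
  ring

theorem ev_r (A B : ℝ) (v : RZ ℝ) : ev A B (lr (· + ·) v).2 = ev (A + B) B v := by
  cases v
  simp only [ev, lr, D0, D1, D2, D3, D4, D5, D6, D7, D8, D9, D10]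
  ring

theorem sL_rel {sh : ℕ → α → α} (H : ∀ k a u, R a u → R (sh k a) (2 ^ k * u)) {r : RZ α}
    {v : RZ ℝ} (h : rel R r v) : rel R (sL sh r) (sL (fun k x => 2 ^ k * x) v) := by
  cases r; cases v
  obtain ⟨h0, h1, h2, h3, h4, h5, h6, h7, h8, h9, h10⟩ := h
  exact ⟨H _ _ _ h0, H _ _ _ h1, H _ _ _ h2, H _ _ _ h3, H _ _ _ h4, H _ _ _ h5, H _ _ _ h6, H _ _ _ h7, H _ _ _ h8, H _ _ _ h9, h10⟩

theorem sR_rel {sh : ℕ → α → α} (H : ∀ k a u, R a u → R (sh k a) (2 ^ k * u)) {r : RZ α}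
    {v : RZ ℝ} (h : rel R r v) : rel R (sR sh r) (sR (fun k x => 2 ^ k * x) v) := by
  cases r; cases v
  obtain ⟨h0, h1, h2, h3, h4, h5, h6, h7, h8, h9, h10⟩ := h
  exact ⟨h0, H _ _ _ h1, H _ _ _ h2, H _ _ _ h3, H _ _ _ h4, H _ _ _ h5, H _ _ _ h6, H _ _ _ h7, H _ _ _ h8, H _ _ _ h9, H _ _ _ h10⟩

theorem ev_sL (A B : ℝ) (v : RZ ℝ) : ev A B (sL (fun k x => 2 ^ k * x) v) = ev A (2 * B) v := by
  cases v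
  simp only [ev, sL]
  ring

theorem ev_sR (A B : ℝ) (v : RZ ℝ) : ev A B (sR (fun k x => 2 ^ k * x) v) = ev (2 * A) B v := by
  cases v
  simp only [ev, sR]
  ring

theorem rel_map {R : α → γ → Prop} {R' : β → γ → Prop} {f : α → β}
    (H : ∀ a u, R a u → R' (f a) u) {r : RZ α} {v : RZ γ} (h : rel R r v) :
    rel R' (map f r) v := by
  cases r; cases v
  obtain ⟨h0, h1, h2, h3, h4, h5, h6, h7, h8, h9, h10⟩ := h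
  exact ⟨H _ _ h0, H _ _ h1, H _ _ h2, H _ _ h3, H _ _ h4, H _ _ h5, H _ _ h6, H _ _ h7, H _ _ h8, H _ _ h9, H _ _ h10⟩

theorem rel_of {R : β → γ → Prop} {f : α → β} {g : α → γ} {r : RZ α}
    (H : ∀ a ∈ toL r, R (f a) (g a)) : rel R (map f r) (map g r) := by
  cases r
  simp only [toL, List.mem_cons, List.not_mem_nil, or_false, forall_eq_or_imp, forall_eq] at H
  exact H

theorem map_map (f : α → β) (g : β → γ) (r : RZ α) : map g (map f r) = map (fun a => g (f a)) r := by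
  cases r; rfl

theorem ev_nonneg {R : ℕ → ℝ → Prop} {o : ℕ} (H : ∀ a u, Sub a o → R a u → 0 ≤ u) {A B : ℝ}
    (hA : 0 ≤ A) (hB : 0 ≤ B) {r : RZ ℕ} {v : RZ ℝ} (hs : Sub (orr r) o) (h : rel R r v) :
    0 ≤ ev A B v := by
  cases r; cases v
  obtain ⟨h0, h1, h2, h3, h4, h5, h6, h7, h8, h9, h10⟩ := h
  have k0 := H _ _ (Sub.trans (Sub.left _ (Sub.refl _)) hs) h0
  have k1 := H _ _ (Sub.trans (Sub.right _ (Sub.left _ (Sub.refl _))) hs) h1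
  have k2 := H _ _ (Sub.trans (Sub.right _ (Sub.right _ (Sub.left _ (Sub.refl _)))) hs) h2
  have k3 := H _ _ (Sub.trans (Sub.right _ (Sub.right _ (Sub.right _ (Sub.left _ (Sub.refl _))))) hs) h3
  have k4 := H _ _ (Sub.trans (Sub.right _ (Sub.right _ (Sub.right _ (Sub.right _ (Sub.left _ (Sub.refl _)))))) hs) h4
  have k5 := H _ _ (Sub.trans (Sub.right _ (Sub.right _ (Sub.right _ (Sub.right _ (Sub.right _ (Sub.left _ (Sub.refl _))))))) hs) h5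
  have k6 := H _ _ (Sub.trans (Sub.right _ (Sub.right _ (Sub.right _ (Sub.right _ (Sub.right _ (Sub.right _ (Sub.left _ (Sub.refl _)))))))) hs) h6
  have k7 := H _ _ (Sub.trans (Sub.right _ (Sub.right _ (Sub.right _ (Sub.right _ (Sub.right _ (Sub.right _ (Sub.right _ (Sub.left _ (Sub.refl _))))))))) hs) h7
  have k8 := H _ _ (Sub.trans (Sub.right _ (Sub.right _ (Sub.right _ (Sub.right _ (Sub.right _ (Sub.right _ (Sub.right _ (Sub.right _ (Sub.left _ (Sub.refl _)))))))))) hs) h8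
  have k9 := H _ _ (Sub.trans (Sub.right _ (Sub.right _ (Sub.right _ (Sub.right _ (Sub.right _ (Sub.right _ (Sub.right _ (Sub.right _ (Sub.right _ (Sub.left _ (Sub.refl _))))))))))) hs) h9
  have k10 := H _ _ (Sub.trans (Sub.right _ (Sub.right _ (Sub.right _ (Sub.right _ (Sub.right _ (Sub.right _ (Sub.right _ (Sub.right _ (Sub.right _ (Sub.right _ (Sub.refl _))))))))))) hs) h10
  unfold ev
  positivity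

theorem zip_rel (H : ∀ a b u v, R a u → R b v → R (add a b) (u + v)) {r s : RZ α}
    {v w : RZ ℝ} (h : rel R r v) (k : rel R s w) : rel R (zip add r s) (zip (· + ·) v w) := by
  cases r; cases s; cases v; cases w
  obtain ⟨h0, h1, h2, h3, h4, h5, h6, h7, h8, h9, h10⟩ := h
  obtain ⟨k0, k1, k2, k3, k4, k5, k6, k7, k8, k9, k10⟩ := k
  exact ⟨H _ _ _ _ h0 k0, H _ _ _ _ h1 k1, H _ _ _ _ h2 k2, H _ _ _ _ h3 k3, H _ _ _ _ h4 k4, H _ _ _ _ h5 k5, H _ _ _ _ h6 k6, H _ _ _ _ h7 k7, H _ _ _ _ h8 k8, H _ _ _ _ h9 k9, H _ _ _ _ h10 k10⟩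

theorem ev_zip (A B : ℝ) (v w : RZ ℝ) : ev A B (zip (· + ·) v w) = ev A B v + ev A B w := by
  cases v; cases w
  simp only [ev, zip]
  ring

theorem map_rel {f : α → α} {c : ℝ} (H : ∀ a u, R a u → R (f a) (c * u)) {r : RZ α}
    {v : RZ ℝ} (h : rel R r v) : rel R (map f r) (map (c * ·) v) := by
  cases r; cases v
  obtain ⟨h0, h1, h2, h3, h4, h5, h6, h7, h8, h9, h10⟩ := h
  exact ⟨H _ _ h0, H _ _ h1, H _ _ h2, H _ _ h3, H _ _ h4, H _ _ h5, H _ _ h6, H _ _ h7, H _ _ h8, H _ _ h9, H _ _ h10⟩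

theorem ev_map (A B c : ℝ) (v : RZ ℝ) : ev A B (map (c * ·) v) = c * ev A B v := by
  cases v
  simp only [ev, map]
  ring

def bs : List ℤ := [1, 10, 45, 120, 210, 252, 210, 120, 45, 10, 1]

def cs : List ℤ := [2520, 252, 56, 21, 12, 10, 12, 21, 56, 252, 2520]

theorem ev_toL (A B : ℝ) (g : α → ℝ) (r : RZ α) : ev A B (map g r) =
    dot (List.zipWith (fun (c : ℤ) w => (c : ℝ) * w) bs (wts A B 10)) ((toL r).map g) := by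
  cases r
  simp only [ev, map, toL, bs, wts, List.map, List.zipWith, dot]
  push_cast
  ring

theorem cs_bs (A B : ℝ) : List.zipWith (fun (c : ℤ) w => (c : ℝ) * w) cs
    (List.zipWith (fun (c : ℤ) w => (c : ℝ) * w) bs (wts A B 10)) = (wts A B 10).map (2520 * ·) := by
  simp only [cs, bs, wts, List.map, List.zipWith, List.cons.injEq, and_true]
  push_cast
  refine ⟨?_, ?_, ?_, ?_, ?_, ?_, ?_, ?_, ?_, ?_, ?_⟩ <;> ring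

end RZ

/-- Vectors of length 13. -/
structure RX (α : Type) where
  (a0 a1 a2 a3 a4 a5 a6 a7 a8 a9 a10 a11 a12 : α)

namespace RX
variable {α β γ : Type}

def rel (R : α → β → Prop) (r : RX α) (v : RX β) : Prop :=
  R r.a0 v.a0 ∧ R r.a1 v.a1 ∧ R r.a2 v.a2 ∧ R r.a3 v.a3 ∧ R r.a4 v.a4 ∧ R r.a5 v.a5 ∧ R r.a6 v.a6 ∧ R r.a7 v.a7 ∧ R r.a8 v.a8 ∧ R r.a9 v.a9 ∧ R r.a10 v.a10 ∧ R r.a11 v.a11 ∧ R r.a12 v.a12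

def ev (A B : ℝ) (v : RX ℝ) : ℝ :=
  1 * A ^ 0 * B ^ 12 * v.a0 + 12 * A ^ 1 * B ^ 11 * v.a1 + 66 * A ^ 2 * B ^ 10 * v.a2 + 220 * A ^ 3 * B ^ 9 * v.a3 + 495 * A ^ 4 * B ^ 8 * v.a4 + 792 * A ^ 5 * B ^ 7 * v.a5 + 924 * A ^ 6 * B ^ 6 * v.a6 + 792 * A ^ 7 * B ^ 5 * v.a7 + 495 * A ^ 8 * B ^ 4 * v.a8 + 220 * A ^ 9 * B ^ 3 * v.a9 + 66 * A ^ 10 * B ^ 2 * v.a10 + 12 * A ^ 11 * B ^ 1 * v.a11 + 1 * A ^ 12 * B ^ 0 * v.a12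

def map (f : α → β) (r : RX α) : RX β :=
  RX.rec (fun a0 a1 a2 a3 a4 a5 a6 a7 a8 a9 a10 a11 a12 => RX.mk (f a0) (f a1) (f a2) (f a3) (f a4) (f a5) (f a6) (f a7) (f a8) (f a9) (f a10) (f a11) (f a12)) r

def toL (r : RX α) : List α :=
  RX.rec (fun a0 a1 a2 a3 a4 a5 a6 a7 a8 a9 a10 a11 a12 => [a0, a1, a2, a3, a4, a5, a6, a7, a8, a9, a10, a11, a12]) r

def sL (sh : ℕ → α → α) (r : RX α) : RX α :=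
  RX.rec (fun a0 a1 a2 a3 a4 a5 a6 a7 a8 a9 a10 a11 a12 => RX.mk (sh 12 a0) (sh 11 a1) (sh 10 a2) (sh 9 a3) (sh 8 a4) (sh 7 a5) (sh 6 a6) (sh 5 a7) (sh 4 a8) (sh 3 a9) (sh 2 a10) (sh 1 a11) a12) r

def sR (sh : ℕ → α → α) (r : RX α) : RX α :=
  RX.rec (fun a0 a1 a2 a3 a4 a5 a6 a7 a8 a9 a10 a11 a12 => RX.mk a0 (sh 1 a1) (sh 2 a2) (sh 3 a3) (sh 4 a4) (sh 5 a5) (sh 6 a6) (sh 7 a7) (sh 8 a8) (sh 9 a9) (sh 10 a10) (sh 11 a11) (sh 12 a12)) r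

def orr (f : α → ℕ) (r : RX α) : ℕ :=
  RX.rec (fun a0 a1 a2 a3 a4 a5 a6 a7 a8 a9 a10 a11 a12 => (Nat.lor (f a0) (Nat.lor (f a1) (Nat.lor (f a2) (Nat.lor (f a3) (Nat.lor (f a4) (Nat.lor (f a5) (Nat.lor (f a6) (Nat.lor (f a7) (Nat.lor (f a8) (Nat.lor (f a9) (Nat.lor (f a10) (Nat.lor (f a11) (f a12)))))))))))))) r

def D12 (l0 l1 l2 l3 l4 l5 l6 l7 l8 l9 l10 l11 a0 r1 r2 r3 r4 r5 r6 r7 r8 r9 r10 r11 r12 : α) : RX α × RX α :=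
  (RX.mk l0 l1 l2 l3 l4 l5 l6 l7 l8 l9 l10 l11 a0, RX.mk a0 r1 r2 r3 r4 r5 r6 r7 r8 r9 r10 r11 r12)

def D11 (add : α → α → α) (l0 l1 l2 l3 l4 l5 l6 l7 l8 l9 l10 a0 a1 r2 r3 r4 r5 r6 r7 r8 r9 r10 r11 r12 : α) : RX α × RX α :=
  D12 l0 l1 l2 l3 l4 l5 l6 l7 l8 l9 l10 a0 (add a0 a1) a1 r2 r3 r4 r5 r6 r7 r8 r9 r10 r11 r12

def D10 (add : α → α → α) (l0 l1 l2 l3 l4 l5 l6 l7 l8 l9 a0 a1 a2 r3 r4 r5 r6 r7 r8 r9 r10 r11 r12 : α) : RX α × RX α :=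
  D11 add l0 l1 l2 l3 l4 l5 l6 l7 l8 l9 a0 (add a0 a1) (add a1 a2) a2 r3 r4 r5 r6 r7 r8 r9 r10 r11 r12

def D9 (add : α → α → α) (l0 l1 l2 l3 l4 l5 l6 l7 l8 a0 a1 a2 a3 r4 r5 r6 r7 r8 r9 r10 r11 r12 : α) : RX α × RX α :=
  D10 add l0 l1 l2 l3 l4 l5 l6 l7 l8 a0 (add a0 a1) (add a1 a2) (add a2 a3) a3 r4 r5 r6 r7 r8 r9 r10 r11 r12

def D8 (add : α → α → α) (l0 l1 l2 l3 l4 l5 l6 l7 a0 a1 a2 a3 a4 r5 r6 r7 r8 r9 r10 r11 r12 : α) : RX α × RX α :=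
  D9 add l0 l1 l2 l3 l4 l5 l6 l7 a0 (add a0 a1) (add a1 a2) (add a2 a3) (add a3 a4) a4 r5 r6 r7 r8 r9 r10 r11 r12

def D7 (add : α → α → α) (l0 l1 l2 l3 l4 l5 l6 a0 a1 a2 a3 a4 a5 r6 r7 r8 r9 r10 r11 r12 : α) : RX α × RX α :=
  D8 add l0 l1 l2 l3 l4 l5 l6 a0 (add a0 a1) (add a1 a2) (add a2 a3) (add a3 a4) (add a4 a5) a5 r6 r7 r8 r9 r10 r11 r12

def D6 (add : α → α → α) (l0 l1 l2 l3 l4 l5 a0 a1 a2 a3 a4 a5 a6 r7 r8 r9 r10 r11 r12 : α) : RX α × RX α :=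
  D7 add l0 l1 l2 l3 l4 l5 a0 (add a0 a1) (add a1 a2) (add a2 a3) (add a3 a4) (add a4 a5) (add a5 a6) a6 r7 r8 r9 r10 r11 r12

def D5 (add : α → α → α) (l0 l1 l2 l3 l4 a0 a1 a2 a3 a4 a5 a6 a7 r8 r9 r10 r11 r12 : α) : RX α × RX α :=
  D6 add l0 l1 l2 l3 l4 a0 (add a0 a1) (add a1 a2) (add a2 a3) (add a3 a4) (add a4 a5) (add a5 a6) (add a6 a7) a7 r8 r9 r10 r11 r12

def D4 (add : α → α → α) (l0 l1 l2 l3 a0 a1 a2 a3 a4 a5 a6 a7 a8 r9 r10 r11 r12 : α) : RX α × RX α :=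
  D5 add l0 l1 l2 l3 a0 (add a0 a1) (add a1 a2) (add a2 a3) (add a3 a4) (add a4 a5) (add a5 a6) (add a6 a7) (add a7 a8) a8 r9 r10 r11 r12

def D3 (add : α → α → α) (l0 l1 l2 a0 a1 a2 a3 a4 a5 a6 a7 a8 a9 r10 r11 r12 : α) : RX α × RX α :=
  D4 add l0 l1 l2 a0 (add a0 a1) (add a1 a2) (add a2 a3) (add a3 a4) (add a4 a5) (add a5 a6) (add a6 a7) (add a7 a8) (add a8 a9) a9 r10 r11 r12

def D2 (add : α → α → α) (l0 l1 a0 a1 a2 a3 a4 a5 a6 a7 a8 a9 a10 r11 r12 : α) : RX α × RX α :=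
  D3 add l0 l1 a0 (add a0 a1) (add a1 a2) (add a2 a3) (add a3 a4) (add a4 a5) (add a5 a6) (add a6 a7) (add a7 a8) (add a8 a9) (add a9 a10) a10 r11 r12

def D1 (add : α → α → α) (l0 a0 a1 a2 a3 a4 a5 a6 a7 a8 a9 a10 a11 r12 : α) : RX α × RX α :=
  D2 add l0 a0 (add a0 a1) (add a1 a2) (add a2 a3) (add a3 a4) (add a4 a5) (add a5 a6) (add a6 a7) (add a7 a8) (add a8 a9) (add a9 a10) (add a10 a11) a11 r12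

def D0 (add : α → α → α) (a0 a1 a2 a3 a4 a5 a6 a7 a8 a9 a10 a11 a12 : α) : RX α × RX α :=
  D1 add a0 (add a0 a1) (add a1 a2) (add a2 a3) (add a3 a4) (add a4 a5) (add a5 a6) (add a6 a7) (add a7 a8) (add a8 a9) (add a9 a10) (add a10 a11) (add a11 a12) a12

def lr (add : α → α → α) (r : RX α) : RX α × RX α :=
  RX.rec (fun a0 a1 a2 a3 a4 a5 a6 a7 a8 a9 a10 a11 a12 => D0 add a0 a1 a2 a3 a4 a5 a6 a7 a8 a9 a10 a11 a12) r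

variable {R : α → ℝ → Prop} {add : α → α → α}

theorem D12_rel {l0 l1 l2 l3 l4 l5 l6 l7 l8 l9 l10 l11 a0 r1 r2 r3 r4 r5 r6 r7 r8 r9 r10 r11 r12 : α} {l0' l1' l2' l3' l4' l5' l6' l7' l8' l9' l10' l11' a0' r1' r2' r3' r4' r5' r6' r7' r8' r9' r10' r11' r12' : ℝ}
    (hl0 : R l0 l0') (hl1 : R l1 l1') (hl2 : R l2 l2') (hl3 : R l3 l3') (hl4 : R l4 l4') (hl5 : R l5 l5') (hl6 : R l6 l6') (hl7 : R l7 l7') (hl8 : R l8 l8') (hl9 : R l9 l9') (hl10 : R l10 l10') (hl11 : R l11 l11') (ha0 : R a0 a0') (hr1 : R r1 r1') (hr2 : R r2 r2') (hr3 : R r3 r3') (hr4 : R r4 r4') (hr5 : R r5 r5') (hr6 : R r6 r6') (hr7 : R r7 r7') (hr8 : R r8 r8') (hr9 : R r9 r9') (hr10 : R r10 r10') (hr11 : R r11 r11') (hr12 : R r12 r12') :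
    rel R (D12 l0 l1 l2 l3 l4 l5 l6 l7 l8 l9 l10 l11 a0 r1 r2 r3 r4 r5 r6 r7 r8 r9 r10 r11 r12).1 (D12 l0' l1' l2' l3' l4' l5' l6' l7' l8' l9' l10' l11' a0' r1' r2' r3' r4' r5' r6' r7' r8' r9' r10' r11' r12').1 ∧
      rel R (D12 l0 l1 l2 l3 l4 l5 l6 l7 l8 l9 l10 l11 a0 r1 r2 r3 r4 r5 r6 r7 r8 r9 r10 r11 r12).2 (D12 l0' l1' l2' l3' l4' l5' l6' l7' l8' l9' l10' l11' a0' r1' r2' r3' r4' r5' r6' r7' r8' r9' r10' r11' r12').2 :=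
  ⟨⟨hl0, hl1, hl2, hl3, hl4, hl5, hl6, hl7, hl8, hl9, hl10, hl11, ha0⟩, ⟨ha0, hr1, hr2, hr3, hr4, hr5, hr6, hr7, hr8, hr9, hr10, hr11, hr12⟩⟩

theorem D11_rel (H : ∀ a b u v, R a u → R b v → R (add a b) (u + v)) {l0 l1 l2 l3 l4 l5 l6 l7 l8 l9 l10 a0 a1 r2 r3 r4 r5 r6 r7 r8 r9 r10 r11 r12 : α} {l0' l1' l2' l3' l4' l5' l6' l7' l8' l9' l10' a0' a1' r2' r3' r4' r5' r6' r7' r8' r9' r10' r11' r12' : ℝ}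
    (hl0 : R l0 l0') (hl1 : R l1 l1') (hl2 : R l2 l2') (hl3 : R l3 l3') (hl4 : R l4 l4') (hl5 : R l5 l5') (hl6 : R l6 l6') (hl7 : R l7 l7') (hl8 : R l8 l8') (hl9 : R l9 l9') (hl10 : R l10 l10') (ha0 : R a0 a0') (ha1 : R a1 a1') (hr2 : R r2 r2') (hr3 : R r3 r3') (hr4 : R r4 r4') (hr5 : R r5 r5') (hr6 : R r6 r6') (hr7 : R r7 r7') (hr8 : R r8 r8') (hr9 : R r9 r9') (hr10 : R r10 r10') (hr11 : R r11 r11') (hr12 : R r12 r12') :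
    rel R (D11 add l0 l1 l2 l3 l4 l5 l6 l7 l8 l9 l10 a0 a1 r2 r3 r4 r5 r6 r7 r8 r9 r10 r11 r12).1 (D11 (· + ·) l0' l1' l2' l3' l4' l5' l6' l7' l8' l9' l10' a0' a1' r2' r3' r4' r5' r6' r7' r8' r9' r10' r11' r12').1 ∧
      rel R (D11 add l0 l1 l2 l3 l4 l5 l6 l7 l8 l9 l10 a0 a1 r2 r3 r4 r5 r6 r7 r8 r9 r10 r11 r12).2 (D11 (· + ·) l0' l1' l2' l3' l4' l5' l6' l7' l8' l9' l10' a0' a1' r2' r3' r4' r5' r6' r7' r8' r9' r10' r11' r12').2 :=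
  D12_rel hl0 hl1 hl2 hl3 hl4 hl5 hl6 hl7 hl8 hl9 hl10 ha0 (H _ _ _ _ ha0 ha1) ha1 hr2 hr3 hr4 hr5 hr6 hr7 hr8 hr9 hr10 hr11 hr12

theorem D10_rel (H : ∀ a b u v, R a u → R b v → R (add a b) (u + v)) {l0 l1 l2 l3 l4 l5 l6 l7 l8 l9 a0 a1 a2 r3 r4 r5 r6 r7 r8 r9 r10 r11 r12 : α} {l0' l1' l2' l3' l4' l5' l6' l7' l8' l9' a0' a1' a2' r3' r4' r5' r6' r7' r8' r9' r10' r11' r12' : ℝ}
    (hl0 : R l0 l0') (hl1 : R l1 l1') (hl2 : R l2 l2') (hl3 : R l3 l3') (hl4 : R l4 l4') (hl5 : R l5 l5') (hl6 : R l6 l6') (hl7 : R l7 l7') (hl8 : R l8 l8') (hl9 : R l9 l9') (ha0 : R a0 a0') (ha1 : R a1 a1') (ha2 : R a2 a2') (hr3 : R r3 r3') (hr4 : R r4 r4') (hr5 : R r5 r5') (hr6 : R r6 r6') (hr7 : R r7 r7') (hr8 : R r8 r8') (hr9 : R r9 r9') (hr10 : R r10 r10') (hr11 : R r11 r11') (hr12 : R r12 r12') :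
    rel R (D10 add l0 l1 l2 l3 l4 l5 l6 l7 l8 l9 a0 a1 a2 r3 r4 r5 r6 r7 r8 r9 r10 r11 r12).1 (D10 (· + ·) l0' l1' l2' l3' l4' l5' l6' l7' l8' l9' a0' a1' a2' r3' r4' r5' r6' r7' r8' r9' r10' r11' r12').1 ∧
      rel R (D10 add l0 l1 l2 l3 l4 l5 l6 l7 l8 l9 a0 a1 a2 r3 r4 r5 r6 r7 r8 r9 r10 r11 r12).2 (D10 (· + ·) l0' l1' l2' l3' l4' l5' l6' l7' l8' l9' a0' a1' a2' r3' r4' r5' r6' r7' r8' r9' r10' r11' r12').2 :=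
  D11_rel H hl0 hl1 hl2 hl3 hl4 hl5 hl6 hl7 hl8 hl9 ha0 (H _ _ _ _ ha0 ha1) (H _ _ _ _ ha1 ha2) ha2 hr3 hr4 hr5 hr6 hr7 hr8 hr9 hr10 hr11 hr12

theorem D9_rel (H : ∀ a b u v, R a u → R b v → R (add a b) (u + v)) {l0 l1 l2 l3 l4 l5 l6 l7 l8 a0 a1 a2 a3 r4 r5 r6 r7 r8 r9 r10 r11 r12 : α} {l0' l1' l2' l3' l4' l5' l6' l7' l8' a0' a1' a2' a3' r4' r5' r6' r7' r8' r9' r10' r11' r12' : ℝ}
    (hl0 : R l0 l0') (hl1 : R l1 l1') (hl2 : R l2 l2') (hl3 : R l3 l3') (hl4 : R l4 l4') (hl5 : R l5 l5') (hl6 : R l6 l6') (hl7 : R l7 l7') (hl8 : R l8 l8') (ha0 : R a0 a0') (ha1 : R a1 a1') (ha2 : R a2 a2') (ha3 : R a3 a3') (hr4 : R r4 r4') (hr5 : R r5 r5') (hr6 : R r6 r6') (hr7 : R r7 r7') (hr8 : R r8 r8') (hr9 : R r9 r9') (hr10 : R r10 r10') (hr11 : R r11 r11') (hr12 : R r12 r12') :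
    rel R (D9 add l0 l1 l2 l3 l4 l5 l6 l7 l8 a0 a1 a2 a3 r4 r5 r6 r7 r8 r9 r10 r11 r12).1 (D9 (· + ·) l0' l1' l2' l3' l4' l5' l6' l7' l8' a0' a1' a2' a3' r4' r5' r6' r7' r8' r9' r10' r11' r12').1 ∧
      rel R (D9 add l0 l1 l2 l3 l4 l5 l6 l7 l8 a0 a1 a2 a3 r4 r5 r6 r7 r8 r9 r10 r11 r12).2 (D9 (· + ·) l0' l1' l2' l3' l4' l5' l6' l7' l8' a0' a1' a2' a3' r4' r5' r6' r7' r8' r9' r10' r11' r12').2 :=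
  D10_rel H hl0 hl1 hl2 hl3 hl4 hl5 hl6 hl7 hl8 ha0 (H _ _ _ _ ha0 ha1) (H _ _ _ _ ha1 ha2) (H _ _ _ _ ha2 ha3) ha3 hr4 hr5 hr6 hr7 hr8 hr9 hr10 hr11 hr12

theorem D8_rel (H : ∀ a b u v, R a u → R b v → R (add a b) (u + v)) {l0 l1 l2 l3 l4 l5 l6 l7 a0 a1 a2 a3 a4 r5 r6 r7 r8 r9 r10 r11 r12 : α} {l0' l1' l2' l3' l4' l5' l6' l7' a0' a1' a2' a3' a4' r5' r6' r7' r8' r9' r10' r11' r12' : ℝ}
    (hl0 : R l0 l0') (hl1 : R l1 l1') (hl2 : R l2 l2') (hl3 : R l3 l3') (hl4 : R l4 l4') (hl5 : R l5 l5') (hl6 : R l6 l6') (hl7 : R l7 l7') (ha0 : R a0 a0') (ha1 : R a1 a1') (ha2 : R a2 a2') (ha3 : R a3 a3') (ha4 : R a4 a4') (hr5 : R r5 r5') (hr6 : R r6 r6') (hr7 : R r7 r7') (hr8 : R r8 r8') (hr9 : R r9 r9') (hr10 : R r10 r10') (hr11 : R r11 r11') (hr12 : R r12 r12') :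
    rel R (D8 add l0 l1 l2 l3 l4 l5 l6 l7 a0 a1 a2 a3 a4 r5 r6 r7 r8 r9 r10 r11 r12).1 (D8 (· + ·) l0' l1' l2' l3' l4' l5' l6' l7' a0' a1' a2' a3' a4' r5' r6' r7' r8' r9' r10' r11' r12').1 ∧
      rel R (D8 add l0 l1 l2 l3 l4 l5 l6 l7 a0 a1 a2 a3 a4 r5 r6 r7 r8 r9 r10 r11 r12).2 (D8 (· + ·) l0' l1' l2' l3' l4' l5' l6' l7' a0' a1' a2' a3' a4' r5' r6' r7' r8' r9' r10' r11' r12').2 :=
  D9_rel H hl0 hl1 hl2 hl3 hl4 hl5 hl6 hl7 ha0 (H _ _ _ _ ha0 ha1) (H _ _ _ _ ha1 ha2) (H _ _ _ _ ha2 ha3) (H _ _ _ _ ha3 ha4) ha4 hr5 hr6 hr7 hr8 hr9 hr10 hr11 hr12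

theorem D7_rel (H : ∀ a b u v, R a u → R b v → R (add a b) (u + v)) {l0 l1 l2 l3 l4 l5 l6 a0 a1 a2 a3 a4 a5 r6 r7 r8 r9 r10 r11 r12 : α} {l0' l1' l2' l3' l4' l5' l6' a0' a1' a2' a3' a4' a5' r6' r7' r8' r9' r10' r11' r12' : ℝ}
    (hl0 : R l0 l0') (hl1 : R l1 l1') (hl2 : R l2 l2') (hl3 : R l3 l3') (hl4 : R l4 l4') (hl5 : R l5 l5') (hl6 : R l6 l6') (ha0 : R a0 a0') (ha1 : R a1 a1') (ha2 : R a2 a2') (ha3 : R a3 a3') (ha4 : R a4 a4') (ha5 : R a5 a5') (hr6 : R r6 r6') (hr7 : R r7 r7') (hr8 : R r8 r8') (hr9 : R r9 r9') (hr10 : R r10 r10') (hr11 : R r11 r11') (hr12 : R r12 r12') :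
    rel R (D7 add l0 l1 l2 l3 l4 l5 l6 a0 a1 a2 a3 a4 a5 r6 r7 r8 r9 r10 r11 r12).1 (D7 (· + ·) l0' l1' l2' l3' l4' l5' l6' a0' a1' a2' a3' a4' a5' r6' r7' r8' r9' r10' r11' r12').1 ∧
      rel R (D7 add l0 l1 l2 l3 l4 l5 l6 a0 a1 a2 a3 a4 a5 r6 r7 r8 r9 r10 r11 r12).2 (D7 (· + ·) l0' l1' l2' l3' l4' l5' l6' a0' a1' a2' a3' a4' a5' r6' r7' r8' r9' r10' r11' r12').2 :=
  D8_rel H hl0 hl1 hl2 hl3 hl4 hl5 hl6 ha0 (H _ _ _ _ ha0 ha1) (H _ _ _ _ ha1 ha2) (H _ _ _ _ ha2 ha3) (H _ _ _ _ ha3 ha4) (H _ _ _ _ ha4 ha5) ha5 hr6 hr7 hr8 hr9 hr10 hr11 hr12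

theorem D6_rel (H : ∀ a b u v, R a u → R b v → R (add a b) (u + v)) {l0 l1 l2 l3 l4 l5 a0 a1 a2 a3 a4 a5 a6 r7 r8 r9 r10 r11 r12 : α} {l0' l1' l2' l3' l4' l5' a0' a1' a2' a3' a4' a5' a6' r7' r8' r9' r10' r11' r12' : ℝ}
    (hl0 : R l0 l0') (hl1 : R l1 l1') (hl2 : R l2 l2') (hl3 : R l3 l3') (hl4 : R l4 l4') (hl5 : R l5 l5') (ha0 : R a0 a0') (ha1 : R a1 a1') (ha2 : R a2 a2') (ha3 : R a3 a3') (ha4 : R a4 a4') (ha5 : R a5 a5') (ha6 : R a6 a6') (hr7 : R r7 r7') (hr8 : R r8 r8') (hr9 : R r9 r9') (hr10 : R r10 r10') (hr11 : R r11 r11') (hr12 : R r12 r12') :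
    rel R (D6 add l0 l1 l2 l3 l4 l5 a0 a1 a2 a3 a4 a5 a6 r7 r8 r9 r10 r11 r12).1 (D6 (· + ·) l0' l1' l2' l3' l4' l5' a0' a1' a2' a3' a4' a5' a6' r7' r8' r9' r10' r11' r12').1 ∧
      rel R (D6 add l0 l1 l2 l3 l4 l5 a0 a1 a2 a3 a4 a5 a6 r7 r8 r9 r10 r11 r12).2 (D6 (· + ·) l0' l1' l2' l3' l4' l5' a0' a1' a2' a3' a4' a5' a6' r7' r8' r9' r10' r11' r12').2 :=
  D7_rel H hl0 hl1 hl2 hl3 hl4 hl5 ha0 (H _ _ _ _ ha0 ha1) (H _ _ _ _ ha1 ha2) (H _ _ _ _ ha2 ha3) (H _ _ _ _ ha3 ha4) (H _ _ _ _ ha4 ha5) (H _ _ _ _ ha5 ha6) ha6 hr7 hr8 hr9 hr10 hr11 hr12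

theorem D5_rel (H : ∀ a b u v, R a u → R b v → R (add a b) (u + v)) {l0 l1 l2 l3 l4 a0 a1 a2 a3 a4 a5 a6 a7 r8 r9 r10 r11 r12 : α} {l0' l1' l2' l3' l4' a0' a1' a2' a3' a4' a5' a6' a7' r8' r9' r10' r11' r12' : ℝ}
    (hl0 : R l0 l0') (hl1 : R l1 l1') (hl2 : R l2 l2') (hl3 : R l3 l3') (hl4 : R l4 l4') (ha0 : R a0 a0') (ha1 : R a1 a1') (ha2 : R a2 a2') (ha3 : R a3 a3') (ha4 : R a4 a4') (ha5 : R a5 a5') (ha6 : R a6 a6') (ha7 : R a7 a7') (hr8 : R r8 r8') (hr9 : R r9 r9') (hr10 : R r10 r10') (hr11 : R r11 r11') (hr12 : R r12 r12') :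
    rel R (D5 add l0 l1 l2 l3 l4 a0 a1 a2 a3 a4 a5 a6 a7 r8 r9 r10 r11 r12).1 (D5 (· + ·) l0' l1' l2' l3' l4' a0' a1' a2' a3' a4' a5' a6' a7' r8' r9' r10' r11' r12').1 ∧
      rel R (D5 add l0 l1 l2 l3 l4 a0 a1 a2 a3 a4 a5 a6 a7 r8 r9 r10 r11 r12).2 (D5 (· + ·) l0' l1' l2' l3' l4' a0' a1' a2' a3' a4' a5' a6' a7' r8' r9' r10' r11' r12').2 :=
  D6_rel H hl0 hl1 hl2 hl3 hl4 ha0 (H _ _ _ _ ha0 ha1) (H _ _ _ _ ha1 ha2) (H _ _ _ _ ha2 ha3) (H _ _ _ _ ha3 ha4) (H _ _ _ _ ha4 ha5) (H _ _ _ _ ha5 ha6) (H _ _ _ _ ha6 ha7) ha7 hr8 hr9 hr10 hr11 hr12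

theorem D4_rel (H : ∀ a b u v, R a u → R b v → R (add a b) (u + v)) {l0 l1 l2 l3 a0 a1 a2 a3 a4 a5 a6 a7 a8 r9 r10 r11 r12 : α} {l0' l1' l2' l3' a0' a1' a2' a3' a4' a5' a6' a7' a8' r9' r10' r11' r12' : ℝ}
    (hl0 : R l0 l0') (hl1 : R l1 l1') (hl2 : R l2 l2') (hl3 : R l3 l3') (ha0 : R a0 a0') (ha1 : R a1 a1') (ha2 : R a2 a2') (ha3 : R a3 a3') (ha4 : R a4 a4') (ha5 : R a5 a5') (ha6 : R a6 a6') (ha7 : R a7 a7') (ha8 : R a8 a8') (hr9 : R r9 r9') (hr10 : R r10 r10') (hr11 : R r11 r11') (hr12 : R r12 r12') :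
    rel R (D4 add l0 l1 l2 l3 a0 a1 a2 a3 a4 a5 a6 a7 a8 r9 r10 r11 r12).1 (D4 (· + ·) l0' l1' l2' l3' a0' a1' a2' a3' a4' a5' a6' a7' a8' r9' r10' r11' r12').1 ∧
      rel R (D4 add l0 l1 l2 l3 a0 a1 a2 a3 a4 a5 a6 a7 a8 r9 r10 r11 r12).2 (D4 (· + ·) l0' l1' l2' l3' a0' a1' a2' a3' a4' a5' a6' a7' a8' r9' r10' r11' r12').2 :=
  D5_rel H hl0 hl1 hl2 hl3 ha0 (H _ _ _ _ ha0 ha1) (H _ _ _ _ ha1 ha2) (H _ _ _ _ ha2 ha3) (H _ _ _ _ ha3 ha4) (H _ _ _ _ ha4 ha5) (H _ _ _ _ ha5 ha6) (H _ _ _ _ ha6 ha7) (H _ _ _ _ ha7 ha8) ha8 hr9 hr10 hr11 hr12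

theorem D3_rel (H : ∀ a b u v, R a u → R b v → R (add a b) (u + v)) {l0 l1 l2 a0 a1 a2 a3 a4 a5 a6 a7 a8 a9 r10 r11 r12 : α} {l0' l1' l2' a0' a1' a2' a3' a4' a5' a6' a7' a8' a9' r10' r11' r12' : ℝ}
    (hl0 : R l0 l0') (hl1 : R l1 l1') (hl2 : R l2 l2') (ha0 : R a0 a0') (ha1 : R a1 a1') (ha2 : R a2 a2') (ha3 : R a3 a3') (ha4 : R a4 a4') (ha5 : R a5 a5') (ha6 : R a6 a6') (ha7 : R a7 a7') (ha8 : R a8 a8') (ha9 : R a9 a9') (hr10 : R r10 r10') (hr11 : R r11 r11') (hr12 : R r12 r12') :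
    rel R (D3 add l0 l1 l2 a0 a1 a2 a3 a4 a5 a6 a7 a8 a9 r10 r11 r12).1 (D3 (· + ·) l0' l1' l2' a0' a1' a2' a3' a4' a5' a6' a7' a8' a9' r10' r11' r12').1 ∧
      rel R (D3 add l0 l1 l2 a0 a1 a2 a3 a4 a5 a6 a7 a8 a9 r10 r11 r12).2 (D3 (· + ·) l0' l1' l2' a0' a1' a2' a3' a4' a5' a6' a7' a8' a9' r10' r11' r12').2 :=
  D4_rel H hl0 hl1 hl2 ha0 (H _ _ _ _ ha0 ha1) (H _ _ _ _ ha1 ha2) (H _ _ _ _ ha2 ha3) (H _ _ _ _ ha3 ha4) (H _ _ _ _ ha4 ha5) (H _ _ _ _ ha5 ha6) (H _ _ _ _ ha6 ha7) (H _ _ _ _ ha7 ha8) (H _ _ _ _ ha8 ha9) ha9 hr10 hr11 hr12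

theorem D2_rel (H : ∀ a b u v, R a u → R b v → R (add a b) (u + v)) {l0 l1 a0 a1 a2 a3 a4 a5 a6 a7 a8 a9 a10 r11 r12 : α} {l0' l1' a0' a1' a2' a3' a4' a5' a6' a7' a8' a9' a10' r11' r12' : ℝ}
    (hl0 : R l0 l0') (hl1 : R l1 l1') (ha0 : R a0 a0') (ha1 : R a1 a1') (ha2 : R a2 a2') (ha3 : R a3 a3') (ha4 : R a4 a4') (ha5 : R a5 a5') (ha6 : R a6 a6') (ha7 : R a7 a7') (ha8 : R a8 a8') (ha9 : R a9 a9') (ha10 : R a10 a10') (hr11 : R r11 r11') (hr12 : R r12 r12') :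
    rel R (D2 add l0 l1 a0 a1 a2 a3 a4 a5 a6 a7 a8 a9 a10 r11 r12).1 (D2 (· + ·) l0' l1' a0' a1' a2' a3' a4' a5' a6' a7' a8' a9' a10' r11' r12').1 ∧
      rel R (D2 add l0 l1 a0 a1 a2 a3 a4 a5 a6 a7 a8 a9 a10 r11 r12).2 (D2 (· + ·) l0' l1' a0' a1' a2' a3' a4' a5' a6' a7' a8' a9' a10' r11' r12').2 :=
  D3_rel H hl0 hl1 ha0 (H _ _ _ _ ha0 ha1) (H _ _ _ _ ha1 ha2) (H _ _ _ _ ha2 ha3) (H _ _ _ _ ha3 ha4) (H _ _ _ _ ha4 ha5) (H _ _ _ _ ha5 ha6) (H _ _ _ _ ha6 ha7) (H _ _ _ _ ha7 ha8) (H _ _ _ _ ha8 ha9) (H _ _ _ _ ha9 ha10) ha10 hr11 hr12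

theorem D1_rel (H : ∀ a b u v, R a u → R b v → R (add a b) (u + v)) {l0 a0 a1 a2 a3 a4 a5 a6 a7 a8 a9 a10 a11 r12 : α} {l0' a0' a1' a2' a3' a4' a5' a6' a7' a8' a9' a10' a11' r12' : ℝ}
    (hl0 : R l0 l0') (ha0 : R a0 a0') (ha1 : R a1 a1') (ha2 : R a2 a2') (ha3 : R a3 a3') (ha4 : R a4 a4') (ha5 : R a5 a5') (ha6 : R a6 a6') (ha7 : R a7 a7') (ha8 : R a8 a8') (ha9 : R a9 a9') (ha10 : R a10 a10') (ha11 : R a11 a11') (hr12 : R r12 r12') :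
    rel R (D1 add l0 a0 a1 a2 a3 a4 a5 a6 a7 a8 a9 a10 a11 r12).1 (D1 (· + ·) l0' a0' a1' a2' a3' a4' a5' a6' a7' a8' a9' a10' a11' r12').1 ∧
      rel R (D1 add l0 a0 a1 a2 a3 a4 a5 a6 a7 a8 a9 a10 a11 r12).2 (D1 (· + ·) l0' a0' a1' a2' a3' a4' a5' a6' a7' a8' a9' a10' a11' r12').2 :=
  D2_rel H hl0 ha0 (H _ _ _ _ ha0 ha1) (H _ _ _ _ ha1 ha2) (H _ _ _ _ ha2 ha3) (H _ _ _ _ ha3 ha4) (H _ _ _ _ ha4 ha5) (H _ _ _ _ ha5 ha6) (H _ _ _ _ ha6 ha7) (H _ _ _ _ ha7 ha8) (H _ _ _ _ ha8 ha9) (H _ _ _ _ ha9 ha10) (H _ _ _ _ ha10 ha11) ha11 hr12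

theorem D0_rel (H : ∀ a b u v, R a u → R b v → R (add a b) (u + v)) {a0 a1 a2 a3 a4 a5 a6 a7 a8 a9 a10 a11 a12 : α} {a0' a1' a2' a3' a4' a5' a6' a7' a8' a9' a10' a11' a12' : ℝ}
    (ha0 : R a0 a0') (ha1 : R a1 a1') (ha2 : R a2 a2') (ha3 : R a3 a3') (ha4 : R a4 a4') (ha5 : R a5 a5') (ha6 : R a6 a6') (ha7 : R a7 a7') (ha8 : R a8 a8') (ha9 : R a9 a9') (ha10 : R a10 a10') (ha11 : R a11 a11') (ha12 : R a12 a12') :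
    rel R (D0 add a0 a1 a2 a3 a4 a5 a6 a7 a8 a9 a10 a11 a12).1 (D0 (· + ·) a0' a1' a2' a3' a4' a5' a6' a7' a8' a9' a10' a11' a12').1 ∧
      rel R (D0 add a0 a1 a2 a3 a4 a5 a6 a7 a8 a9 a10 a11 a12).2 (D0 (· + ·) a0' a1' a2' a3' a4' a5' a6' a7' a8' a9' a10' a11' a12').2 :=
  D1_rel H ha0 (H _ _ _ _ ha0 ha1) (H _ _ _ _ ha1 ha2) (H _ _ _ _ ha2 ha3) (H _ _ _ _ ha3 ha4) (H _ _ _ _ ha4 ha5) (H _ _ _ _ ha5 ha6) (H _ _ _ _ ha6 ha7) (H _ _ _ _ ha7 ha8) (H _ _ _ _ ha8 ha9) (H _ _ _ _ ha9 ha10) (H _ _ _ _ ha10 ha11) (H _ _ _ _ ha11 ha12) ha12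

theorem lr_rel (H : ∀ a b u v, R a u → R b v → R (add a b) (u + v)) {r : RX α} {v : RX ℝ}
    (h : rel R r v) : rel R (lr add r).1 (lr (· + ·) v).1 ∧ rel R (lr add r).2 (lr (· + ·) v).2 := by
  cases r; cases v
  obtain ⟨h0, h1, h2, h3, h4, h5, h6, h7, h8, h9, h10, h11, h12⟩ := h
  exact D0_rel H h0 h1 h2 h3 h4 h5 h6 h7 h8 h9 h10 h11 h12

theorem ev_l (A B : ℝ) (v : RX ℝ) : ev A B (lr (· + ·) v).1 = ev A (A + B) v := by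
  cases v
  simp only [ev, lr, D0, D1, D2, D3, D4, D5, D6, D7, D8, D9, D10, D11, D12]
  ring

theorem ev_r (A B : ℝ) (v : RX ℝ) : ev A B (lr (· + ·) v).2 = ev (A + B) B v := by
  cases v
  simp only [ev, lr, D0, D1, D2, D3, D4, D5, D6, D7, D8, D9, D10, D11, D12]
  ring

theorem sL_rel {sh : ℕ → α → α} (H : ∀ k a u, R a u → R (sh k a) (2 ^ k * u)) {r : RX α}
    {v : RX ℝ} (h : rel R r v) : rel R (sL sh r) (sL (fun k x => 2 ^ k * x) v) := by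
  cases r; cases v
  obtain ⟨h0, h1, h2, h3, h4, h5, h6, h7, h8, h9, h10, h11, h12⟩ := h
  exact ⟨H _ _ _ h0, H _ _ _ h1, H _ _ _ h2, H _ _ _ h3, H _ _ _ h4, H _ _ _ h5, H _ _ _ h6, H _ _ _ h7, H _ _ _ h8, H _ _ _ h9, H _ _ _ h10, H _ _ _ h11, h12⟩

theorem sR_rel {sh : ℕ → α → α} (H : ∀ k a u, R a u → R (sh k a) (2 ^ k * u)) {r : RX α}
    {v : RX ℝ} (h : rel R r v) : rel R (sR sh r) (sR (fun k x => 2 ^ k * x) v) := by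
  cases r; cases v
  obtain ⟨h0, h1, h2, h3, h4, h5, h6, h7, h8, h9, h10, h11, h12⟩ := h
  exact ⟨h0, H _ _ _ h1, H _ _ _ h2, H _ _ _ h3, H _ _ _ h4, H _ _ _ h5, H _ _ _ h6, H _ _ _ h7, H _ _ _ h8, H _ _ _ h9, H _ _ _ h10, H _ _ _ h11, H _ _ _ h12⟩

theorem ev_sL (A B : ℝ) (v : RX ℝ) : ev A B (sL (fun k x => 2 ^ k * x) v) = ev A (2 * B) v := by
  cases v
  simp only [ev, sL]
  ring

theorem ev_sR (A B : ℝ) (v : RX ℝ) : ev A B (sR (fun k x => 2 ^ k * x) v) = ev (2 * A) B v := by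
  cases v
  simp only [ev, sR]
  ring

theorem rel_map {R : α → γ → Prop} {R' : β → γ → Prop} {f : α → β}
    (H : ∀ a u, R a u → R' (f a) u) {r : RX α} {v : RX γ} (h : rel R r v) :
    rel R' (map f r) v := by
  cases r; cases v
  obtain ⟨h0, h1, h2, h3, h4, h5, h6, h7, h8, h9, h10, h11, h12⟩ := h
  exact ⟨H _ _ h0, H _ _ h1, H _ _ h2, H _ _ h3, H _ _ h4, H _ _ h5, H _ _ h6, H _ _ h7, H _ _ h8, H _ _ h9, H _ _ h10, H _ _ h11, H _ _ h12⟩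

theorem rel_of {R : β → γ → Prop} {f : α → β} {g : α → γ} {r : RX α}
    (H : ∀ a ∈ toL r, R (f a) (g a)) : rel R (map f r) (map g r) := by
  cases r
  simp only [toL, List.mem_cons, List.not_mem_nil, or_false, forall_eq_or_imp, forall_eq] at H
  exact H

theorem map_map (f : α → β) (g : β → γ) (r : RX α) : map g (map f r) = map (fun a => g (f a)) r := by
  cases r; rfl

theorem ev_nonneg {f : α → ℕ} {o : ℕ} (H : ∀ a u, Sub (f a) o → R a u → 0 ≤ u) {A B : ℝ}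
    (hA : 0 ≤ A) (hB : 0 ≤ B) {r : RX α} {v : RX ℝ} (hs : Sub (orr f r) o) (h : rel R r v) :
    0 ≤ ev A B v := by
  cases r; cases v
  obtain ⟨h0, h1, h2, h3, h4, h5, h6, h7, h8, h9, h10, h11, h12⟩ := h
  have k0 := H _ _ (Sub.trans (Sub.left _ (Sub.refl _)) hs) h0
  have k1 := H _ _ (Sub.trans (Sub.right _ (Sub.left _ (Sub.refl _))) hs) h1
  have k2 := H _ _ (Sub.trans (Sub.right _ (Sub.right _ (Sub.left _ (Sub.refl _)))) hs) h2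
  have k3 := H _ _ (Sub.trans (Sub.right _ (Sub.right _ (Sub.right _ (Sub.left _ (Sub.refl _))))) hs) h3
  have k4 := H _ _ (Sub.trans (Sub.right _ (Sub.right _ (Sub.right _ (Sub.right _ (Sub.left _ (Sub.refl _)))))) hs) h4
  have k5 := H _ _ (Sub.trans (Sub.right _ (Sub.right _ (Sub.right _ (Sub.right _ (Sub.right _ (Sub.left _ (Sub.refl _))))))) hs) h5
  have k6 := H _ _ (Sub.trans (Sub.right _ (Sub.right _ (Sub.right _ (Sub.right _ (Sub.right _ (Sub.right _ (Sub.left _ (Sub.refl _)))))))) hs) h6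
  have k7 := H _ _ (Sub.trans (Sub.right _ (Sub.right _ (Sub.right _ (Sub.right _ (Sub.right _ (Sub.right _ (Sub.right _ (Sub.left _ (Sub.refl _))))))))) hs) h7
  have k8 := H _ _ (Sub.trans (Sub.right _ (Sub.right _ (Sub.right _ (Sub.right _ (Sub.right _ (Sub.right _ (Sub.right _ (Sub.right _ (Sub.left _ (Sub.refl _)))))))))) hs) h8
  have k9 := H _ _ (Sub.trans (Sub.right _ (Sub.right _ (Sub.right _ (Sub.right _ (Sub.right _ (Sub.right _ (Sub.right _ (Sub.right _ (Sub.right _ (Sub.left _ (Sub.refl _))))))))))) hs) h9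
  have k10 := H _ _ (Sub.trans (Sub.right _ (Sub.right _ (Sub.right _ (Sub.right _ (Sub.right _ (Sub.right _ (Sub.right _ (Sub.right _ (Sub.right _ (Sub.right _ (Sub.left _ (Sub.refl _)))))))))))) hs) h10
  have k11 := H _ _ (Sub.trans (Sub.right _ (Sub.right _ (Sub.right _ (Sub.right _ (Sub.right _ (Sub.right _ (Sub.right _ (Sub.right _ (Sub.right _ (Sub.right _ (Sub.right _ (Sub.left _ (Sub.refl _))))))))))))) hs) h11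
  have k12 := H _ _ (Sub.trans (Sub.right _ (Sub.right _ (Sub.right _ (Sub.right _ (Sub.right _ (Sub.right _ (Sub.right _ (Sub.right _ (Sub.right _ (Sub.right _ (Sub.right _ (Sub.right _ (Sub.refl _))))))))))))) hs) h12
  unfold ev
  positivity

def bs : List ℤ := [1, 12, 66, 220, 495, 792, 924, 792, 495, 220, 66, 12, 1]

def cs : List ℤ := [27720, 2310, 420, 126, 56, 35, 30, 35, 56, 126, 420, 2310, 27720]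

theorem ev_toL (A B : ℝ) (g : α → ℝ) (r : RX α) : ev A B (map g r) =
    dot (List.zipWith (fun (c : ℤ) w => (c : ℝ) * w) bs (wts A B 12)) ((toL r).map g) := by
  cases r
  simp only [ev, map, toL, bs, wts, List.map, List.zipWith, dot]
  push_cast
  ring

theorem cs_bs (A B : ℝ) : List.zipWith (fun (c : ℤ) w => (c : ℝ) * w) cs
    (List.zipWith (fun (c : ℤ) w => (c : ℝ) * w) bs (wts A B 12)) = (wts A B 12).map (27720 * ·) := by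
  simp only [cs, bs, wts, List.map, List.zipWith, List.cons.injEq, and_true]
  push_cast
  refine ⟨?_, ?_, ?_, ?_, ?_, ?_, ?_, ?_, ?_, ?_, ?_, ?_, ?_⟩ <;> ring

end RX

end

end Pool.Agent.MP_8fe08c_co.h82
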