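import Pool.Agent.MP_8fe08c_co.h82.Arc
import Mathlib.Analysis.SpecialFunctions.Trigonometric.Inverse

set_option autoImplicit false

open Real Set

namespace Pool.Agent.MP_8fe08c_co.h82

noncomputable section

/-- Euclidean distance in coordinates. -/
def dd (x1 y1 x2 y2 : ℝ) : ℝ := √((x1 - x2) ^ 2 + (y1 - y2) ^ 2)

theorem dd_comm (x1 y1 x2 y2 : ℝ) : dd x1 y1 x2 y2 = dd x2 y2 x1 y1 := by
  unfold dd; congr 1; ring

theorem dd_nonneg (x1 y1 x2 y2 : ℝ) : 0 ≤ dd x1 y1 x2 y2 := sqrt_nonneg _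

theorem dd_sq (x1 y1 x2 y2 : ℝ) : dd x1 y1 x2 y2 ^ 2 = (x1 - x2) ^ 2 + (y1 - y2) ^ 2 :=
  sq_sqrt (by positivity)

theorem dd_neg (x1 y1 x2 y2 : ℝ) : dd x1 (-y1) x2 (-y2) = dd x1 y1 x2 y2 := by
  unfold dd; congr 1; ring

theorem pos_of {a b : ℝ} (ha : 0 < a) (h : 0 < a * b) : 0 < b := (mul_pos_iff_of_pos_left ha).mp h

/-- The potential of a rung and a circle through its ends. -/
def Pot (lam : ℝ) (G : ℝ → ℝ → ℝ → ℝ → ℝ) (cx cy r xa ya xb yb da db : ℝ) : ℝ :=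
  dd xa ya xb yb * (1 / 2 + G (-(xa - xb) / (dd xa ya xb yb + (ya - yb)))
      (((cx - xb) * (ya - yb) - (cy - yb) * (xa - xb)) / dd xa ya xb yb / (r + dd xa ya xb yb / 2))
      ((ya + yb) / (ya - yb)) ((da - db) / dd xa ya xb yb))
    - lam * (xa - xb) * ((da - db) / dd xa ya xb yb) / 2 - (da + db) / 2 + lam * (xa + xb) / 2

/-- The invariant along the chain of circles. -/
def Inv (lam : ℝ) (G : ℝ → ℝ → ℝ → ℝ → ℝ) (cx cy r xa ya xb yb da db : ℝ) : Prop :=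
  0 < r ∧ (xa - cx) ^ 2 + (ya - cy) ^ 2 = r ^ 2 ∧ (xb - cx) ^ 2 + (yb - cy) ^ 2 = r ^ 2 ∧
    0 ≤ ya ∧ yb ≤ 0 ∧ yb < ya ∧ ∃ da' db', da ≤ da' ∧ db ≤ db' ∧ |da' - db'| ≤ dd xa ya xb yb ∧
      0 ≤ Pot lam G cx cy r xa ya xb yb da' db'

theorem frame {cx cy r xb yb : ℝ} (hr : 0 < r) (hb : (xb - cx) ^ 2 + (yb - cy) ^ 2 = r ^ 2) :
    ∃ P Q, P ^ 2 + Q ^ 2 = 1 ∧ cx = xb - r * Q ∧ cy = yb + r * P :=
  ⟨(cy - yb) / r, (xb - cx) / r, by field_simp; linarith, by field_simp; ring, by field_simp; ring⟩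

theorem param {P Q r xb yb xa ya : ℝ} (hPQ : P ^ 2 + Q ^ 2 = 1) (hr : 0 < r)
    (ha : (xa - (xb - r * Q)) ^ 2 + (ya - (yb + r * P)) ^ 2 = r ^ 2) (hne : ya ≠ yb) :
    ∃ a, 0 < a ∧ a < π ∧ xa = xb + 2 * r * sin a * cf P Q a ∧ ya = yb + 2 * r * sin a * sf P Q a := by
  obtain ⟨u, hu⟩ : ∃ u, u = (xa - xb) * P + (ya - yb) * Q := ⟨_, rfl⟩
  obtain ⟨v, hv⟩ : ∃ v, v = (ya - yb) * P - (xa - xb) * Q := ⟨_, rfl⟩
  have h1 : u ^ 2 + v ^ 2 = (xa - xb) ^ 2 + (ya - yb) ^ 2 := by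
    rw [hu, hv]; linear_combination ((xa - xb) ^ 2 + (ya - yb) ^ 2) * hPQ
  have h2 : u ^ 2 + v ^ 2 = 2 * r * v := by
    rw [h1, hv]; linear_combination ha - r ^ 2 * hPQ
  have h3 : 0 < u ^ 2 + v ^ 2 := by
    have := sq_pos_of_ne_zero (sub_ne_zero.mpr hne)
    rw [h1]; positivity
  have h4 : 0 < v := by
    rw [h2] at h3
    exact pos_of (by positivity) h3
  obtain ⟨l, hl, hl2⟩ : ∃ l, 0 < l ∧ l ^ 2 = u ^ 2 + v ^ 2 := ⟨_, sqrt_pos.mpr h3, sq_sqrt h3.le⟩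
  have b0 := abs_lt.mp (abs_lt_of_sq_lt_sq (a := u) (b := l) (by linarith [pow_pos h4 2]) hl.le)
  have b1 : -1 < u / l := by rw [lt_div_iff₀ hl]; linarith
  have b2 : u / l < 1 := by rw [div_lt_iff₀ hl]; linarith
  have c1 : cos (arccos (u / l)) = u / l := cos_arccos b1.le b2.le
  have s1 : sin (arccos (u / l)) = v / l := by
    rw [sin_arccos, show 1 - (u / l) ^ 2 = (v / l) ^ 2 by field_simp; linarith,
      sqrt_sq (by positivity)]
  refine ⟨arccos (u / l), arccos_pos.mpr b2, arccos_lt_pi.mpr b1, ?_, ?_⟩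
  · unfold cf
    rw [c1, s1]; field_simp
    linear_combination (xa - xb) * hl2 + (xa - xb) * h2 - 2 * r * v * P * hu + 2 * r * v * Q * hv
      - 2 * r * v * (xa - xb) * hPQ
  · unfold sf
    rw [c1, s1]; field_simp
    linear_combination (ya - yb) * hl2 + (ya - yb) * h2 - 2 * r * v * Q * hu - 2 * r * v * P * hv
      - 2 * r * v * (ya - yb) * hPQ

variable {lam : ℝ} {G Gx Gz Gt Gd : ℝ → ℝ → ℝ → ℝ → ℝ} {W Wx Wz Wt : ℝ → ℝ → ℝ → ℝ}
  {P Q r xb yb : ℝ}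

theorem dd_arc (hPQ : P ^ 2 + Q ^ 2 = 1) (hr : 0 < r) {a : ℝ} (hS : 0 < sin a) :
    dd (xb + 2 * r * sin a * cf P Q a) (yb + 2 * r * sin a * sf P Q a) xb yb = 2 * r * sin a := by
  unfold dd
  rw [sqrt_eq_iff_mul_self_eq (by positivity) (by positivity)]
  linear_combination ((2 * r * sin a) ^ 2) * cs_one hPQ a

theorem Pot_arc (hPQ : P ^ 2 + Q ^ 2 = 1) (hr : 0 < r) {a : ℝ} (hS : 0 < sin a)
    (hs : 0 < sf P Q a) (D db : ℝ) :
    Pot lam G (xb - r * Q) (yb + r * P) r (xb + 2 * r * sin a * cf P Q a)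
      (yb + 2 * r * sin a * sf P Q a) xb yb (db + D) db =
      Phi lam G P Q r yb a D - db + lam * xb := by
  unfold Pot Phi
  rw [dd_arc hPQ hr hS]
  have e1 : -(xb + 2 * r * sin a * cf P Q a - xb) /
      (2 * r * sin a + (yb + 2 * r * sin a * sf P Q a - yb)) = xf P Q a := by
    unfold xf
    rw [add_sub_cancel_left, add_sub_cancel_left]; field_simp
  have e2 : ((xb - r * Q - xb) * (yb + 2 * r * sin a * sf P Q a - yb) - (yb + r * P - yb) *
      (xb + 2 * r * sin a * cf P Q a - xb)) / (2 * r * sin a) / (r + 2 * r * sin a / 2) = zf a := by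
    unfold zf cf sf
    field_simp
    linear_combination (-2 * r * sin a * cos a * r) * hPQ
  have e3 : (yb + 2 * r * sin a * sf P Q a + yb) / (yb + 2 * r * sin a * sf P Q a - yb) =
      tf P Q r yb a := by
    unfold tf
    rw [add_sub_cancel_left]; field_simp; ring
  rw [e1, e2, e3, add_sub_cancel_left db D]
  ring

theorem arc_lt (hPQ : P ^ 2 + Q ^ 2 = 1) (hr : 0 < r) {a1 a0 : ℝ} (p1 : 0 < a1) (q1 : a1 < π)
    (p0 : 0 < a0) (q0 : a0 < π)
    (hf : 0 < (xb - (xb + 2 * r * sin a0 * cf P Q a0)) * (yb + 2 * r * sin a1 * sf P Q a1 -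
      (yb + 2 * r * sin a0 * sf P Q a0)) - (yb - (yb + 2 * r * sin a0 * sf P Q a0)) *
      (xb + 2 * r * sin a1 * cf P Q a1 - (xb + 2 * r * sin a0 * cf P Q a0))) : a1 < a0 := by
  by_contra hc
  have h1 : sin (a0 - a1) ≤ 0 := sin_nonpos_of_nonpos_of_neg_pi_le (by linarith) (by linarith)
  have S1 := sin_pos_of_pos_of_lt_pi p1 q1
  have S0 := sin_pos_of_pos_of_lt_pi p0 q0
  have h2 := mul_nonpos_of_nonneg_of_nonpos
    (by positivity : 0 ≤ 4 * r ^ 2 * (sin a0 * sin a1)) h1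
  rw [sin_sub] at h2
  unfold cf sf at hf
  have : 4 * r ^ 2 * (sin a0 * sin a1) * (sin a0 * cos a1 - cos a0 * sin a1) * (P ^ 2 + Q ^ 2) ≤ 0 := by
    rw [hPQ]; linarith
  linarith

theorem dd_le (hPQ : P ^ 2 + Q ^ 2 = 1) (hr : 0 < r) {a1 a0 : ℝ} (h : a1 ≤ a0) :
    dd (xb + 2 * r * sin a0 * cf P Q a0) (yb + 2 * r * sin a0 * sf P Q a0)
      (xb + 2 * r * sin a1 * cf P Q a1) (yb + 2 * r * sin a1 * sf P Q a1) ≤ 2 * r * (a0 - a1) := by
  unfold dd
  rw [sqrt_le_iff]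
  refine ⟨by have := sub_nonneg.mpr h; positivity, ?_⟩
  have h1 := mul_le_mul_of_nonneg_left (sin_sq_le_sq (x := a0 - a1)) (by positivity : 0 ≤ 4 * r ^ 2)
  refine le_of_eq_of_le ?_ (h1.trans_eq (by ring))
  rw [sin_sub]
  unfold cf sf
  linear_combination (4 * r ^ 2 * ((sin a0 * cos a0 - sin a1 * cos a1) ^ 2
      + (sin a0 ^ 2 - sin a1 ^ 2) ^ 2)) * hPQ
    + 4 * r ^ 2 * (sin a0 ^ 2 - sin a1 ^ 2) * sin_sq_add_cos_sq a0
    - 4 * r ^ 2 * (sin a0 ^ 2 - sin a1 ^ 2) * sin_sq_add_cos_sq a1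

theorem arc_up (hb : yb ≤ 0) {a1 a0 a : ℝ} (p1 : 0 < a1) (h : a1 < a0) (q0 : a0 < π)
    (ha : a ∈ Icc a1 a0) (h1 : 0 ≤ yb + 2 * r * sin a1 * sf P Q a1)
    (h0 : 0 ≤ yb + 2 * r * sin a0 * sf P Q a0) : 0 ≤ yb + 2 * r * sin a * sf P Q a := by
  obtain ⟨l1, l2⟩ := ha
  have S1 := sin_pos_of_pos_of_lt_pi p1 (by linarith)
  have S0 := sin_pos_of_pos_of_lt_pi (x := a0) (by linarith) q0
  have S := sin_pos_of_pos_of_lt_pi (x := a) (by linarith) (by linarith)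
  have p := sin_nonneg_of_nonneg_of_le_pi (x := a - a1) (by linarith) (by linarith)
  have q := sin_nonneg_of_nonneg_of_le_pi (x := a0 - a) (by linarith) (by linarith)
  have m := sin_pos_of_pos_of_lt_pi (x := a0 - a1) (by linarith) (by linarith)
  have e : sin (a0 - a1) * sin a0 * sin a1 * (yb + 2 * r * sin a * sf P Q a) =
      sin (a - a1) * sin a * sin a1 * (yb + 2 * r * sin a0 * sf P Q a0)
      + sin (a0 - a) * sin a * sin a0 * (yb + 2 * r * sin a1 * sf P Q a1)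
      + -yb * (sin (a - a1) * sin (a0 - a) * sin (a0 - a1)) := by
    simp only [sin_sub, sf]
    linear_combination
      -(yb * (sin a0 * cos a1 - cos a0 * sin a1) * sin a0 * sin a1) * sin_sq_add_cos_sq a
      + yb * (sin a * cos a1 - cos a * sin a1) * sin a * sin a1 * sin_sq_add_cos_sq a0
      + yb * (sin a0 * cos a - cos a0 * sin a) * sin a * sin a0 * sin_sq_add_cos_sq a1
  have hb' : 0 ≤ -yb := by linarith
  refine nonneg_of_mul_nonneg_right (a := sin (a0 - a1) * sin a0 * sin a1) ?_ (by positivity)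
  rw [e]; positivity

theorem invA (hG : Cert lam G Gx Gz Gt Gd W Wx Wz Wt) {cx cy r xa ya xb yb da db xc yc dc : ℝ}
    (h : Inv lam G cx cy r xa ya xb yb da db) (hb : yb < 0)
    (hc : (xc - cx) ^ 2 + (yc - cy) ^ 2 = r ^ 2) (hy : 0 ≤ yc)
    (hf : 0 < (xb - xa) * (yc - ya) - (yb - ya) * (xc - xa))
    (h1 : dc ≤ da + dd xa ya xc yc) (h2 : dc ≤ db + dd xc yc xb yb) :
    Inv lam G cx cy r xc yc xb yb dc db := by
  obtain ⟨hr, ca, cb, ya0, -, -, da', db', i1, i2, i3, i4⟩ := h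
  refine ⟨hr, hc, cb, hy, hb.le, by linarith, ?_⟩
  obtain ⟨P, Q, hPQ, rfl, rfl⟩ := frame hr cb
  obtain ⟨a0, p0, q0, rfl, rfl⟩ := param hPQ hr ca (by linarith)
  obtain ⟨a1, p1, q1, rfl, rfl⟩ := param hPQ hr hc (by linarith)
  have lt := arc_lt hPQ hr p1 q1 p0 q0 hf
  have S1 := sin_pos_of_pos_of_lt_pi p1 q1
  have S0 := sin_pos_of_pos_of_lt_pi p0 q0
  have hs : ∀ a ∈ Icc a1 a0, 0 < sf P Q a ∧ 0 ≤ yb + 2 * r * sin a * sf P Q a := by
    intro a ha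
    have k := arc_up hb.le p1 lt q0 ha hy ya0
    have S := sin_pos_of_pos_of_lt_pi (x := a) (by linarith [ha.1]) (by linarith [ha.2])
    exact ⟨pos_of (a := 2 * r * sin a) (by positivity) (by linarith), k⟩
  rw [dd_arc hPQ hr S0] at i3
  rw [dd_arc hPQ hr S1] at h2 ⊢
  obtain ⟨D, j1, j2, j3⟩ := move hG hPQ hr hb.le lt.le p1 q0 hs i3
  have := dd_le (xb := xb) (yb := yb) hPQ hr lt.le
  refine ⟨db' + D, db', by rcases j2 with j2 | j2 <;> linarith, i2, by simpa using j1, ?_⟩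
  rw [show da' = db' + (da' - db') by ring, Pot_arc hPQ hr S0 (hs a0 ⟨lt.le, le_rfl⟩).1] at i4
  rw [Pot_arc hPQ hr S1 (hs a1 ⟨le_rfl, lt.le⟩).1]
  linarith

theorem invM (hG : Cert lam G Gx Gz Gt Gd W Wx Wz Wt) {cx cy r xa ya xb yb da db : ℝ}
    (h : Inv lam G cx cy r xa ya xb yb da db) : Inv lam G cx (-cy) r xb (-yb) xa (-ya) db da := by
  obtain ⟨hr, ca, cb, a0, b0, lt, da', db', i1, i2, i3, i4⟩ := h
  refine ⟨hr, by linarith, by linarith, by linarith, by linarith, by linarith, db', da', i2, i1,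
    by rwa [dd_neg, dd_comm, abs_sub_comm], i4.trans_eq ?_⟩
  unfold Pot
  rw [dd_neg, dd_comm xb yb, hG.sym, ← neg_div, ← neg_div, ← neg_div]
  rw [show - -(xa - xb) = -(xb - xa) by ring, show -yb - -ya = ya - yb by ring,
    show (cx - xa) * (ya - yb) - (-cy - -ya) * (xb - xa) =
      (cx - xb) * (ya - yb) - (cy - yb) * (xa - xb) by ring,
    show -(ya + yb) = -yb + -ya by ring, show -(da' - db') = db' - da' by ring]
  ring

theorem invB (hG : Cert lam G Gx Gz Gt Gd W Wx Wz Wt) {cx cy r xa ya xb yb da db xc yc dc : ℝ}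
    (h : Inv lam G cx cy r xa ya xb yb da db) (ha : 0 < ya)
    (hc : (xc - cx) ^ 2 + (yc - cy) ^ 2 = r ^ 2) (hy : yc ≤ 0)
    (hf : 0 < (xb - xa) * (yc - ya) - (yb - ya) * (xc - xa))
    (h1 : dc ≤ da + dd xa ya xc yc) (h2 : dc ≤ db + dd xc yc xb yb) :
    Inv lam G cx cy r xa ya xc yc da dc := by
  have := invM hG (invA (xc := xc) (yc := -yc) (dc := dc) hG (invM hG h) (by linarith)
    (by linarith) (by linarith) (by linarith) (by rwa [dd_neg, dd_comm]) (by rwa [dd_neg, dd_comm]))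
  simpa using this

theorem invEnd (hG : Cert lam G Gx Gz Gt Gd W Wx Wz Wt) {cx cy r xa ya xb yb da db xc dc : ℝ}
    (h : Inv lam G cx cy r xa ya xb yb da db) (ha : 0 < ya) (hb : yb < 0)
    (hc : (xc - cx) ^ 2 + (0 - cy) ^ 2 = r ^ 2)
    (hf : 0 < (xb - xa) * (0 - ya) - (yb - ya) * (xc - xa))
    (h1 : dc ≤ da + dd xa ya xc 0) (h2 : dc ≤ db + dd xc 0 xb yb) : dc ≤ lam * xc := by
  have ca : (xa - cx) ^ 2 + (-ya - -cy) ^ 2 = r ^ 2 := by linarith [h.2.1]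
  have hf' : 0 < (xc - xa) * (-yb - -ya) - (0 - -ya) * (xb - xa) := by linarith
  have k := invM hG (invA hG h hb hc le_rfl hf h1 h2)
  rw [neg_zero] at k
  have ha' : -ya < 0 := by linarith
  have hb' : 0 < -yb := by linarith
  clear h hc hf h1 h2 ha hb
  generalize -ya = y2 at *
  generalize -yb = y0 at *
  generalize -cy = cy' at *
  obtain ⟨hr, c0, cb, -, -, -, da', db', i1, i2, i3, i4⟩ := k
  obtain ⟨P, Q, hPQ, rfl, rfl⟩ := frame hr cb
  obtain ⟨a0, p0, q0, rfl, rfl⟩ := param hPQ hr c0 hb'.ne'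
  obtain ⟨a2, p2, q2, rfl, rfl⟩ := param hPQ hr ca ha'.ne
  have lt := arc_lt hPQ hr p0 q0 p2 q2 hf'
  have S2 := sin_pos_of_pos_of_lt_pi p2 q2
  have S0 := sin_pos_of_pos_of_lt_pi p0 q0
  have s0 : 0 < sf P Q a0 := pos_of (a := 2 * r * sin a0) (by positivity) (by linarith)
  have s2 : 0 < -sf P Q a2 := pos_of (a := 2 * r * sin a2) (by positivity) (by linarith)
  rw [dd_arc hPQ hr S0] at i3
  have := finish hG hPQ hr p0 q0 (fun a p q => by
    have u := sin_pos_of_pos_of_lt_pi (x := a2 - a) (by linarith) (by linarith)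
    have v := sin_nonneg_of_nonneg_of_le_pi (x := a0 - a) (by linarith) (by linarith)
    have w := sin_pos_of_pos_of_lt_pi (x := a2 - a0) (by linarith) (by linarith)
    have e : sin (a2 - a0) * sf P Q a = sin (a2 - a) * sf P Q a0 + sin (a0 - a) * -sf P Q a2 := by
      simp only [sin_sub, sf]; ring
    exact pos_of w (by rw [e]; positivity)) i3
  rw [show da' = db' + (da' - db') by ring, Pot_arc hPQ hr S0 s0] at i4
  linarith

theorem invStart (hG : Cert lam G Gx Gz Gt Gd W Wx Wz Wt) {cx cy r xb yb db : ℝ} (hr : 0 < r)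
    (hu : (0 - cx) ^ 2 + (0 - cy) ^ 2 = r ^ 2) (hb : (xb - cx) ^ 2 + (yb - cy) ^ 2 = r ^ 2)
    (hyb : yb < 0) (h2 : db ≤ dd 0 0 xb yb) : Inv lam G cx cy r 0 0 xb yb 0 db := by
  have hl : 0 < dd 0 0 xb yb := sqrt_pos.mpr (by have := sub_pos.mpr hyb; positivity)
  refine ⟨hr, hu, hb, le_rfl, hyb.le, hyb, 0, _, le_rfl, h2, by rw [zero_sub, abs_neg, abs_of_pos hl],
    le_of_eq ?_⟩
  unfold Pot
  have := hyb.ne
  rw [show (0 + yb) / (0 - yb) = -1 by field_simp; ring,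
    show (0 - dd 0 0 xb yb) / dd 0 0 xb yb = -1 by field_simp; ring, hG.sym, neg_neg, hG.top]
  ring

theorem z_mono {k k' h r r' : ℝ} (hh : 0 < h) (hr : 0 < r) (hr' : 0 < r') (e : r ^ 2 = k ^ 2 + h ^ 2)
    (e' : r' ^ 2 = k' ^ 2 + h ^ 2) (hk : k ≤ k') : k / (r + h) ≤ k' / (r' + h) := by
  rw [div_le_div_iff₀ (by positivity) (by positivity)]
  have : k * r' ≤ k' * r := by
    rcases le_total 0 k with h1 | h1
    · have h2 : k ^ 2 ≤ k' ^ 2 := pow_le_pow_left₀ h1 hk 2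
      have h3 := mul_le_mul_of_nonneg_right h2 (sq_nonneg h)
      refine (le_abs_self _).trans (abs_le_of_sq_le_sq ?_ (mul_nonneg (h1.trans hk) hr.le))
      rw [mul_pow, mul_pow, e, e']; linarith
    · rcases le_total 0 k' with h4 | h4
      · exact (mul_nonpos_of_nonpos_of_nonneg h1 hr'.le).trans (mul_nonneg h4 hr.le)
      · have h2 : (-k') ^ 2 ≤ (-k) ^ 2 := pow_le_pow_left₀ (by linarith) (by linarith) 2
        have h3 := mul_le_mul_of_nonneg_right h2 (sq_nonneg h)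
        have : -k' * r ≤ -k * r' := by
          refine (le_abs_self _).trans (abs_le_of_sq_le_sq ?_ (mul_nonneg (by linarith) hr'.le))
          rw [mul_pow, mul_pow, e, e']; linarith
        linarith
  have := mul_le_mul_of_nonneg_right hk hh.le
  linarith

theorem invC (hG : Cert lam G Gx Gz Gt Gd W Wx Wz Wt) {cx cy r xa ya xb yb da db cx' cy' r' t : ℝ}
    (h : Inv lam G cx cy r xa ya xb yb da db) (hr' : 0 < r') (ht : 0 ≤ t)
    (ha : (xa - cx') ^ 2 + (ya - cy') ^ 2 = r' ^ 2) (hb : (xb - cx') ^ 2 + (yb - cy') ^ 2 = r' ^ 2)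
    (hO : ∀ x y : ℝ, (x - cx') ^ 2 + (y - cy') ^ 2 - r' ^ 2 = (x - cx) ^ 2 + (y - cy) ^ 2 - r ^ 2
      - t * ((xb - xa) * (y - ya) - (yb - ya) * (x - xa))) :
    Inv lam G cx' cy' r' xa ya xb yb da db := by
  obtain ⟨hr, ca, cb, a0, b0, lt, da', db', i1, i2, i3, i4⟩ := h
  refine ⟨hr', ha, hb, a0, b0, lt, da', db', i1, i2, i3, i4.trans ?_⟩
  unfold Pot
  have e2 := dd_sq xa ya xb yb
  have hl : 0 < dd xa ya xb yb := sqrt_pos.mpr (by have := sub_pos.mpr lt; positivity)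
  generalize dd xa ya xb yb = l at *
  have hk : ∀ cx cy r : ℝ, (xa - cx) ^ 2 + (ya - cy) ^ 2 = r ^ 2 →
      (xb - cx) ^ 2 + (yb - cy) ^ 2 = r ^ 2 →
      r ^ 2 = (((cx - xb) * (ya - yb) - (cy - yb) * (xa - xb)) / l) ^ 2 + (l / 2) ^ 2 := by
    intro cx cy r ca cb
    have : r ^ 2 * l ^ 2 = ((cx - xb) * (ya - yb) - (cy - yb) * (xa - xb)) ^ 2 + l ^ 4 / 4 := by
      linear_combination (r ^ 2 - ((cx - xb) * (xa - xb) + (cy - yb) * (ya - yb) + l ^ 2 / 2) / 2) * e2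
        - ((xa - xb) ^ 2 + (ya - yb) ^ 2) * cb
        - ((cx - xb) * (xa - xb) + (cy - yb) * (ya - yb) + l ^ 2 / 2) / 2 * (ca - cb)
    field_simp
    linarith
  have hz : ∀ k r : ℝ, 0 < r → r ^ 2 = k ^ 2 + (l / 2) ^ 2 → |k / (r + l / 2)| ≤ 1 := by
    intro k r hr e
    rw [abs_div, abs_of_pos (by positivity : 0 < r + l / 2), div_le_one (by positivity)]
    have h1 : 0 ≤ r * l := by positivity
    have h2 := sq_nonneg l
    exact abs_le_of_sq_le_sq (by linarith) (by positivity)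
  have e3 : cx' = cx + t * (ya - yb) / 2 := by linear_combination (hO 0 0 - hO 1 0) / 2
  have e4 : cy' = cy - t * (xa - xb) / 2 := by linear_combination (hO 0 0 - hO 0 1) / 2
  have := mono_z hG (x := -(xa - xb) / (l + (ya - yb))) (t := (ya + yb) / (ya - yb))
    (d := (da' - db') / l) ?_ (abs_le.mp (hz _ _ hr (hk _ _ _ ca cb))).1
    (z_mono (by positivity) hr hr' (hk _ _ _ ca cb) (hk _ _ _ ha hb) ?_)
    (abs_le.mp (hz _ _ hr' (hk _ _ _ ha hb))).2 ?_ ?_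
  · have := mul_le_mul_of_nonneg_left this hl.le
    linarith
  · rw [abs_div, abs_of_pos (by linarith : 0 < l + (ya - yb)), div_le_one (by linarith)]
    have h1 : 0 ≤ l * (ya - yb) := by have := sub_pos.mpr lt; positivity
    have h2 := sq_nonneg (ya - yb)
    exact abs_le_of_sq_le_sq (by linarith) (by linarith)
  · refine div_le_div_of_nonneg_right ?_ hl.le
    have h1 := mul_nonneg ht (sq_nonneg l)
    rw [e2] at h1
    rw [e3, e4]
    linarith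
  · rw [abs_div, abs_of_pos (by linarith : 0 < ya - yb), div_le_one (by linarith), abs_le]
    constructor <;> linarith
  · rwa [abs_div, abs_of_pos hl, div_le_one hl]

end

end Pool.Agent.MP_8fe08c_co.h82
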