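import Mathlib.Combinatorics.SimpleGraph.Walk.Operations
import Pool.Agent.MP_8fe08c_co.h82.Del
import Pool.Agent.MP_8fe08c_co.h31.Defs
import Pool.Agent.MP_8fe08c_co.h82.Geo

set_option autoImplicit false

open Real
open scoped ENNReal

namespace Pool.Agent.MP_8fe08c_co.h82

open Pool.Agent.MP_8fe08c_co.h31

variable {ρ : ℝ} {F Fx Fz Ft Fd : ℝ → ℝ → ℝ → ℝ → ℝ} {E Ex Ez Et : ℝ → ℝ → ℝ → ℝ}

section
variable {V : Type} {X Y : V → ℝ} {ix : V → ℕ}

/-- Abscissa of the point where the segment from `a` to `b` meets the axis. -/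
noncomputable def key (X Y : V → ℝ) (a b : V) : ℝ := (X b * Y a - X a * Y b) / (Y a - Y b)

theorem inside_key (hinj : ∀ p q, X p = X q → Y p = Y q → p = q) {cx cy R : ℝ} {a b : V}
    (ta : pw X Y cx cy R a = 0) (tb : pw X Y cx cy R b = 0) (ha : 0 < Y a) (hb : Y b < 0) :
    (key X Y a b - cx) ^ 2 + (0 - cy) ^ 2 - R < 0 := by
  have hne : a ≠ b := by intro e; rw [e] at ha; linarith
  have h1 := sq_pos_of_ne hinj hne
  have h2 : 0 < Y a - Y b := by linarith
  have hk : key X Y a b * (Y a - Y b) = X b * Y a - X a * Y b := by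
    unfold key; field_simp
  unfold pw at ta tb
  have h3 : ((key X Y a b - cx) ^ 2 + (0 - cy) ^ 2 - R) * (Y a - Y b) ^ 2 =
      Y a * Y b * ((X a - X b) ^ 2 + (Y a - Y b) ^ 2) := by
    linear_combination (key X Y a b * (Y a - Y b) + (X b * Y a - X a * Y b)
      - 2 * cx * (Y a - Y b)) * hk + (-(Y b) * (Y a - Y b)) * ta + (Y a * (Y a - Y b)) * tb
  have h4 : Y a * Y b * ((X a - X b) ^ 2 + (Y a - Y b) ^ 2) < 0 :=
    mul_neg_of_neg_of_pos (mul_neg_of_pos_of_neg ha hb) h1
  by_contra hc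
  push Not at hc
  have := mul_nonneg hc (sq_nonneg (Y a - Y b))
  linarith

theorem conv_q {cx c k1 k2 d : ℝ} (h1 : (k1 - cx) ^ 2 + c < 0) (h2 : (k2 - cx) ^ 2 + c ≤ 0)
    (h3 : k1 < d) (h4 : d ≤ k2) (h5 : d < k2 ∨ (k2 - cx) ^ 2 + c < 0) : (d - cx) ^ 2 + c < 0 := by
  rcases eq_or_lt_of_le h4 with h | h
  · rcases h5 with h5 | h5
    · linarith
    · rw [h]; exact h5
  · have e : ((d - cx) ^ 2 + c) * (k2 - k1) = (k2 - d) * ((k1 - cx) ^ 2 + c)
        + (d - k1) * ((k2 - cx) ^ 2 + c) - (k2 - d) * (d - k1) * (k2 - k1) := by ring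
    have a1 : (k2 - d) * ((k1 - cx) ^ 2 + c) < 0 := mul_neg_of_pos_of_neg (by linarith) h1
    have a2 : (d - k1) * ((k2 - cx) ^ 2 + c) ≤ 0 :=
      mul_nonpos_of_nonneg_of_nonpos (by linarith) h2
    have a3 : 0 ≤ (k2 - d) * (d - k1) * (k2 - k1) :=
      mul_nonneg (mul_nonneg (by linarith) (by linarith)) (by linarith)
    by_contra hc
    push Not at hc
    have := mul_nonneg hc (show 0 ≤ k2 - k1 by linarith)
    linarith

theorem rad_pos (hinj : ∀ p q, X p = X q → Y p = Y q → p = q) {cx cy R : ℝ} {a b : V}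
    (ta : pw X Y cx cy R a = 0) (tb : pw X Y cx cy R b = 0) (hne : a ≠ b) : 0 < R := by
  have h1 := sq_pos_of_ne hinj hne
  unfold pw at ta tb
  nlinarith [sq_nonneg (X a - cx + (X b - cx)), sq_nonneg (Y a - cy + (Y b - cy))]

variable [Fintype V]

theorem chain (hG : Cert ρ F Fx Fz Ft Fd E Ex Ez Et) (hinj : ∀ p q, X p = X q → Y p = Y q → p = q)
    (hix : Function.Injective ix) {D : V → ℝ}
    (hD : ∀ p q, Adj X Y ix p q → D q ≤ D p + dd (X p) (Y p) (X q) (Y q))
    {v : V} {d : ℝ} (hv : X v = d) (hv' : Y v = 0)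
    (hno : ∀ w, Y w = 0 → 0 < X w → X w < d → False) :
    ∀ s : V × V, ∀ cx cy R : ℝ, 0 < Y s.1 → Y s.2 < 0 → Wit X Y ix s.1 s.2 cx cy R →
      0 < key X Y s.1 s.2 → key X Y s.1 s.2 < d →
      Inv ρ F cx cy (√R) (X s.1) (Y s.1) (X s.2) (Y s.2) (D s.1) (D s.2) → D v ≤ ρ * d := by
  have wf : WellFounded (fun t s : V × V => key X Y s.1 s.2 < key X Y t.1 t.2) := by
    have : IsTrans (V × V) (fun t s : V × V => key X Y s.1 s.2 < key X Y t.1 t.2) :=
      ⟨fun a b c h1 h2 => lt_trans h2 h1⟩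
    have : Std.Irrefl (fun t s : V × V => key X Y s.1 s.2 < key X Y t.1 t.2) :=
      ⟨fun a => lt_irrefl _⟩
    exact Finite.wellFounded_of_trans_of_irrefl _
  intro s
  induction s using wf.induction with
  | _ s ih =>
  obtain ⟨a, b⟩ := s
  intro cx cy R ha hb hW k0 k1 hI
  simp only at ha hb hW k0 k1 hI ih
  have hab : a ≠ b := by intro e; rw [e] at ha; linarith
  have hp : 0 < Y a - Y b := by linarith
  have hk : key X Y a b * (Y a - Y b) = X b * Y a - X a * Y b := by
    unfold key; field_simp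
  have hfv : 0 < dt X Y a b v := by
    unfold dt; rw [hv, hv']
    have := mul_pos (sub_pos.mpr k1) hp
    linarith
  obtain ⟨c, cx', cy', R', t, ht, hO, hc, W1, W2⟩ := pivot hinj hix hW hab hfv
  have hR := rad_pos hinj hW.tp hW.tq hab
  have hR' := rad_pos hinj W1.tp W2.tq hab
  have hac : a ≠ c := by
    intro e; rw [← e] at hc; unfold dt at hc; linarith
  have hcb : c ≠ b := by
    intro e; rw [e] at hc; unfold dt at hc; linarith
  have Aac : Adj X Y ix a c := ⟨hac, _, _, _, W1⟩
  have Acb : Adj X Y ix c b := ⟨hcb, _, _, _, W2⟩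
  have tight : ∀ w, pw X Y cx' cy' R' w = 0 → (X w - cx') ^ 2 + (Y w - cy') ^ 2 = √R' ^ 2 := by
    intro w hw; rw [sq_sqrt hR'.le]; unfold pw at hw; linarith
  have hI' : Inv ρ F cx' cy' (√R') (X a) (Y a) (X b) (Y b) (D a) (D b) := by
    refine invC hG hI (sqrt_pos.mpr hR') ht (tight a W1.tp) (tight b W2.tq) ?_
    intro x y
    rw [sq_sqrt hR'.le, sq_sqrt hR.le]; exact hO x y
  have h1 := hD a c Aac
  have h2 := hD b c Acb.symm
  rw [dd_comm] at h2
  have q1 := inside_key hinj W1.tp W2.tq ha hb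
  have qv := W1.emp v
  unfold pw at qv
  rw [hv, hv'] at qv
  have q1' : (key X Y a b - cx') ^ 2 + ((0 - cy') ^ 2 - R') < 0 := by linarith
  rcases lt_trichotomy 0 (Y c) with hy | hy | hy
  · have hp' : 0 < Y c - Y b := by linarith
    have hk' : key X Y c b * (Y c - Y b) = X b * Y c - X c * Y b := by
      unfold key; field_simp
    have inc : key X Y a b < key X Y c b := by
      have e : (key X Y c b - key X Y a b) * ((Y c - Y b) * (Y a - Y b)) = -Y b * dt X Y a b c := by
        unfold dt; linear_combination (Y a - Y b) * hk' - (Y c - Y b) * hk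
      have := mul_pos (neg_pos.mpr hb) hc
      by_contra hcon
      push Not at hcon
      have := mul_nonpos_of_nonpos_of_nonneg (sub_nonpos.mpr hcon) (mul_pos hp' hp).le
      linarith
    have lt : key X Y c b < d := by
      by_contra hcon
      push Not at hcon
      have q2 := inside_key hinj W2.tp W2.tq hy hb
      have := conv_q q1' (k2 := key X Y c b) (by linarith) k1 hcon (Or.inr (by linarith))
      linarith
    exact ih (c, b) inc cx' cy' R' hy hb W2 (k0.trans inc) lt
      (invA hG hI' hb (tight c W2.tp) hy.le hc h1 h2)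
  · have hxc : key X Y a b < X c := by
      unfold dt at hc
      rw [← hy] at hc
      by_contra hcon
      push Not at hcon
      have := mul_nonneg (sub_nonneg.mpr hcon) hp.le
      linarith
    have tc := W2.tp
    unfold pw at tc
    rw [← hy] at tc
    have le : X c ≤ d := by
      by_contra hcon
      push Not at hcon
      have := conv_q q1' (k2 := X c) (by linarith) k1 hcon.le (Or.inl hcon)
      linarith
    have eq : X c = d := by
      by_contra hne
      exact hno c hy.symm (k0.trans hxc) (lt_of_le_of_ne le hne)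
    have hcv : c = v := hinj c v (by rw [eq, hv]) (by rw [← hy, hv'])
    have t3 := tight c W2.tp
    unfold dt at hc
    rw [← hy] at t3 hc h1 h2
    have := invEnd hG hI' ha hb t3 hc h1 h2
    rw [eq, hcv] at this
    exact this
  · have hp' : 0 < Y a - Y c := by linarith
    have hk' : key X Y a c * (Y a - Y c) = X c * Y a - X a * Y c := by
      unfold key; field_simp
    have inc : key X Y a b < key X Y a c := by
      have e : (key X Y a c - key X Y a b) * ((Y a - Y c) * (Y a - Y b)) = Y a * dt X Y a b c := by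
        unfold dt; linear_combination (Y a - Y b) * hk' - (Y a - Y c) * hk
      have := mul_pos ha hc
      by_contra hcon
      push Not at hcon
      have := mul_nonpos_of_nonpos_of_nonneg (sub_nonpos.mpr hcon) (mul_pos hp' hp).le
      linarith
    have lt : key X Y a c < d := by
      by_contra hcon
      push Not at hcon
      have q2 := inside_key hinj W1.tp W1.tq ha hy
      have := conv_q q1' (k2 := key X Y a c) (by linarith) k1 hcon (Or.inr (by linarith))
      linarith
    exact ih (a, c) inc cx' cy' R' ha hy W1 (k0.trans inc) lt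
      (invB hG hI' ha (tight c W2.tp) hy.le hc h1 h2)

omit [Fintype V] in
theorem adj_axis (hρ : 1 ≤ ρ) {D : V → ℝ}
    (hD : ∀ p q, Adj X Y ix p q → D q ≤ D p + dd (X p) (Y p) (X q) (Y q))
    {u v : V} {d : ℝ} (hd : 0 < d) (hu : X u = 0) (hu' : Y u = 0) (hDu : D u = 0)
    (hv : X v = d) (hv' : Y v = 0) (h : Adj X Y ix u v) : D v ≤ ρ * d := by
  have := hD u v h
  rw [hu, hu', hv, hv', hDu] at this
  unfold dd at this
  rw [show (0 - d) ^ 2 + (0 - 0 : ℝ) ^ 2 = d ^ 2 by ring, sqrt_sq hd.le] at this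
  nlinarith

omit [Fintype V] in
theorem axis_eq (hinj : ∀ p q, X p = X q → Y p = Y q → p = q)
    {u v c : V} {d cx cy R : ℝ} (hd : 0 < d) (hu : X u = 0) (hu' : Y u = 0)
    (hv : X v = d) (hv' : Y v = 0) (hno : ∀ w, Y w = 0 → 0 < X w → X w < d → False)
    (W : Wit X Y ix u c cx cy R) (hy : Y c = 0) (hx : 0 < X c) : c = v := by
  have t1 := W.tp
  have t2 := W.tq
  have t3 := W.emp v
  unfold pw at t1 t2 t3
  rw [hu, hu'] at t1
  rw [hy] at t2
  rw [hv, hv'] at t3
  have le : X c ≤ d := by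
    by_contra hcon
    push Not at hcon
    have e : ((d - cx) ^ 2 + (0 - cy) ^ 2 - R) * X c = -(d * X c * (X c - d)) := by
      linear_combination (X c - d) * t1 + d * t2
    have := mul_nonneg t3 hx.le
    have := mul_pos (mul_pos hd hx) (sub_pos.mpr hcon)
    linarith
  have eq : X c = d := by
    by_contra hne
    exact hno c hy hx (lt_of_le_of_ne le hne)
  exact hinj c v (by rw [eq, hv]) (by rw [hy, hv'])

theorem start_below (hG : Cert ρ F Fx Fz Ft Fd E Ex Ez Et) (hρ : 1 ≤ ρ)
    (hinj : ∀ p q, X p = X q → Y p = Y q → p = q)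
    (hix : Function.Injective ix) {D : V → ℝ}
    (hD : ∀ p q, Adj X Y ix p q → D q ≤ D p + dd (X p) (Y p) (X q) (Y q))
    {u v : V} {d : ℝ} (hd : 0 < d) (hu : X u = 0) (hu' : Y u = 0) (hDu : D u = 0)
    (hv : X v = d) (hv' : Y v = 0)
    (hno : ∀ w, Y w = 0 → 0 < X w → X w < d → False)
    {b0 : V} (h0 : Adj X Y ix u b0) (h0' : Y b0 < 0) : D v ≤ ρ * d := by
  classical
  obtain ⟨b, hb, hmax⟩ := Finset.exists_max_image
    (Finset.univ.filter fun z => Adj X Y ix u z ∧ Y z < 0) (fun z => X z / (-Y z))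
    ⟨b0, by simp [h0, h0']⟩
  simp only [Finset.mem_filter, Finset.mem_univ, true_and] at hb hmax
  obtain ⟨⟨hub, cx, cy, R, hW⟩, hyb⟩ := hb
  have hfv : 0 < dt X Y u b v := by
    unfold dt; rw [hv, hv', hu, hu']
    have := mul_pos (neg_pos.mpr hyb) hd
    linarith
  obtain ⟨c, cx', cy', R', t, ht, hO, hc, W1, W2⟩ := pivot hinj hix hW hub hfv
  have hac : u ≠ c := by
    intro e; rw [← e] at hc; unfold dt at hc; linarith
  have hcb : c ≠ b := by
    intro e; rw [e] at hc; unfold dt at hc; linarith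
  have Aab : Adj X Y ix u b := ⟨hub, _, _, _, hW⟩
  have Aac : Adj X Y ix u c := ⟨hac, _, _, _, W1⟩
  have Acb : Adj X Y ix c b := ⟨hcb, _, _, _, W2⟩
  unfold dt at hc
  rw [hu, hu'] at hc
  rcases lt_trichotomy 0 (Y c) with hy | hy | hy
  · have hR' := rad_pos hinj W2.tp W2.tq hcb
    have tight : ∀ w, pw X Y cx' cy' R' w = 0 → (X w - cx') ^ 2 + (Y w - cy') ^ 2 = √R' ^ 2 := by
      intro w hw; rw [sq_sqrt hR'.le]; unfold pw at hw; linarith
    have tu := tight u W1.tp
    rw [hu, hu'] at tu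
    have l1 := hD u c Aac
    have l2 := hD u b Aab
    have l3 := hD b c Acb.symm
    rw [hu, hu', hDu] at l1
    rw [hu, hu', hDu, zero_add] at l2
    rw [dd_comm] at l3
    have hI := invA hG (invStart hG (sqrt_pos.mpr hR') tu (tight b W2.tq) hyb l2) hyb
      (tight c W2.tp) hy.le hc l1 l3
    have hp' : 0 < Y c - Y b := by linarith
    have k0 : 0 < key X Y c b := by
      unfold key; apply div_pos _ hp'; linarith
    have k1 : key X Y c b < d := by
      by_contra hcon
      push Not at hcon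
      have q2 := inside_key hinj W2.tp W2.tq hy hyb
      have qv := W1.emp v
      have qu := W1.tp
      unfold pw at qv qu
      rw [hv, hv'] at qv
      rw [hu, hu'] at qu
      have e : ((d - cx') ^ 2 + (0 - cy') ^ 2 - R') * key X Y c b =
          d * ((key X Y c b - cx') ^ 2 + (0 - cy') ^ 2 - R')
            - d * key X Y c b * (key X Y c b - d) := by
        linear_combination (key X Y c b - d) * qu
      have := mul_nonneg qv k0.le
      have := mul_neg_of_pos_of_neg hd q2
      have := mul_nonneg (mul_pos hd k0).le (sub_nonneg.mpr hcon)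
      linarith
    exact chain hG hinj hix hD hv hv' hno (c, b) cx' cy' R' hy hyb W2 k0 k1 hI
  · have hx : 0 < X c := by
      rw [← hy] at hc
      by_contra hcon
      push Not at hcon
      nlinarith
    have := axis_eq hinj hd hu hu' hv hv' hno W1 hy.symm hx
    rw [this] at Aac
    exact adj_axis hρ hD hd hu hu' hDu hv hv' Aac
  · exfalso
    have := hmax c ⟨Aac, hy⟩
    rw [div_le_div_iff₀ (neg_pos.mpr hy) (neg_pos.mpr hyb)] at this
    linarith

theorem axis_bound (hG : Cert ρ F Fx Fz Ft Fd E Ex Ez Et) (hρ : 1 ≤ ρ)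
    (hinj : ∀ p q, X p = X q → Y p = Y q → p = q)
    (hix : Function.Injective ix) {D : V → ℝ}
    (hD : ∀ p q, Adj X Y ix p q → D q ≤ D p + dd (X p) (Y p) (X q) (Y q))
    {u v : V} {d : ℝ} (hd : 0 < d) (hu : X u = 0) (hu' : Y u = 0) (hDu : D u = 0)
    (hv : X v = d) (hv' : Y v = 0)
    (hno : ∀ w, Y w = 0 → 0 < X w → X w < d → False) : D v ≤ ρ * d := by
  obtain ⟨t, ht, hemp, w, hw, hw'⟩ := exists_shift (pw X Y 0 0 0) (fun w => 2 * X w)
    (fun w => by unfold pw; nlinarith [sq_nonneg (X w - 0), sq_nonneg (Y w - 0)]) (w0 := v)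
    (by rw [hv]; linarith)
  have hpw : ∀ w, pw X Y t 0 (t ^ 2) w = pw X Y 0 0 0 w - t * (2 * X w) := by
    intro w; unfold pw; ring
  have tu : pw X Y t 0 (t ^ 2) u = 0 := by unfold pw; rw [hu, hu']; ring
  have hwu : w ≠ u := by intro e; rw [e, hu] at hw; linarith
  obtain ⟨c, c1, c2, c3⟩ := exists_extreme hinj 1 one_ne_zero tu (by rw [hpw]; exact hw') hwu
  have W : Wit X Y ix u c t 0 (t ^ 2) :=
    wit_of_extreme (fun w => by rw [hpw]; exact hemp w) tu c1 c3
  have A : Adj X Y ix u c := ⟨c2.symm, _, _, _, W⟩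
  rcases lt_trichotomy 0 (Y c) with hy | hy | hy
  · have iso : ∀ p q, Adj X (fun p => -Y p) ix p q → Adj X Y ix p q := fun p q h =>
      adj_iso (a := 1) (b := 0) (e := 0) (f := 0) (σ := -1) (by norm_num) (by norm_num)
        (fun p => by ring) (fun p => by ring) h
    have iso' : Adj X (fun p => -Y p) ix u c :=
      adj_iso (a := 1) (b := 0) (e := 0) (f := 0) (σ := -1) (by norm_num) (by norm_num)
        (fun p => by ring) (fun p => by ring) A
    refine start_below (X := X) (Y := fun p => -Y p) hG hρ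
      (fun p q h1 h2 => hinj p q h1 (neg_injective h2)) hix ?_ hd hu (by simp [hu']) hDu hv
      (by simp [hv']) (fun w h => hno w (by simpa using h)) iso' (by simpa using hy)
    intro p q h
    have := hD p q (iso p q h)
    unfold dd at this ⊢
    rw [show (-Y p - -Y q) ^ 2 = (Y p - Y q) ^ 2 by ring]
    exact this
  · have hx : 0 < X c := by
      have p1 := sq_pos_of_ne hinj c2
      unfold pw at c1
      rw [hu, hu', ← hy] at p1
      rw [← hy] at c1
      by_contra hcon
      push Not at hcon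
      nlinarith
    have := axis_eq hinj hd hu hu' hv hv' hno W hy.symm hx
    rw [this] at A
    exact adj_axis hρ hD hd hu hu' hDu hv hv' A
  · exact start_below hG hρ hinj hix hD hd hu hu' hDu hv hv' hno A hy

/-- `w` lies strictly between `u` and `v`. -/
def Btw (X Y : V → ℝ) (u v w : V) : Prop :=
  ∃ s : ℝ, 0 < s ∧ s < 1 ∧ X w = X u + s * (X v - X u) ∧ Y w = Y u + s * (Y v - Y u)

theorem free_bound (hG : Cert ρ F Fx Fz Ft Fd E Ex Ez Et) (hρ : 1 ≤ ρ)
    (hinj : ∀ p q, X p = X q → Y p = Y q → p = q)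
    (hix : Function.Injective ix) {D : V → ℝ}
    (hD : ∀ p q, Adj X Y ix p q → D q ≤ D p + dd (X p) (Y p) (X q) (Y q))
    {u v : V} (huv : u ≠ v) (hno : ∀ w, ¬ Btw X Y u v w) :
    D v ≤ D u + ρ * dd (X u) (Y u) (X v) (Y v) := by
  set d := dd (X u) (Y u) (X v) (Y v) with hdd
  have p1 := sq_pos_of_ne hinj huv
  have hd : 0 < d := sqrt_pos.mpr p1
  have hd2 : d ^ 2 = (X u - X v) ^ 2 + (Y u - Y v) ^ 2 := sq_sqrt p1.le
  set a := (X v - X u) / d with ha
  set b := (Y v - Y u) / d with hb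
  have ea : a * d = X v - X u := by rw [ha]; field_simp
  have eb : b * d = Y v - Y u := by rw [hb]; field_simp
  have hab : a ^ 2 + b ^ 2 = 1 := by
    apply mul_right_cancel₀ (pow_pos hd 2).ne'
    linear_combination (a * d + (X v - X u)) * ea + (b * d + (Y v - Y u)) * eb - hd2
  have := axis_bound (X := fun p => a * (X p - X u) + b * (Y p - Y u))
    (Y := fun p => -b * (X p - X u) + a * (Y p - Y u)) (D := fun p => D p - D u) (u := u) (v := v)
    hG hρ ?_ hix ?_ hd (by ring) (by ring) (by ring) ?_ ?_ ?_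
  · linarith
  · intro p q h1 h2
    apply hinj
    · linear_combination a * h1 - b * h2 - (X p - X q) * hab
    · linear_combination b * h1 + a * h2 - (Y p - Y q) * hab
  · intro p q h
    have h' : Adj X Y ix p q :=
      adj_iso (a := a) (b := b) (e := -(a * X u + b * Y u)) (f := b * X u - a * Y u) (σ := 1) hab
        (by norm_num) (fun p => by ring) (fun p => by ring) h
    have := hD p q h'
    unfold dd at this ⊢
    have e : (a * (X p - X u) + b * (Y p - Y u) - (a * (X q - X u) + b * (Y q - Y u))) ^ 2 +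
        (-b * (X p - X u) + a * (Y p - Y u) - (-b * (X q - X u) + a * (Y q - Y u))) ^ 2 =
        (X p - X q) ^ 2 + (Y p - Y q) ^ 2 := by
      linear_combination ((X p - X q) ^ 2 + (Y p - Y q) ^ 2) * hab
    rw [e]; linarith
  · show a * (X v - X u) + b * (Y v - Y u) = d
    rw [← ea, ← eb]; linear_combination d * hab
  · show -b * (X v - X u) + a * (Y v - Y u) = 0
    rw [← ea, ← eb]; ring
  · intro w h1 h2 h3
    apply hno w
    refine ⟨(a * (X w - X u) + b * (Y w - Y u)) / d, div_pos h2 hd, (div_lt_one hd).mpr h3, ?_, ?_⟩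
    · rw [← ea]; field_simp
      linear_combination -b * h1 - (X w - X u) * hab
    · rw [← eb]; field_simp
      linear_combination a * h1 - (Y w - Y u) * hab

theorem lip_bound (hG : Cert ρ F Fx Fz Ft Fd E Ex Ez Et) (hρ : 1 ≤ ρ)
    (hinj : ∀ p q, X p = X q → Y p = Y q → p = q)
    (hix : Function.Injective ix) {D : V → ℝ}
    (hD : ∀ p q, Adj X Y ix p q → D q ≤ D p + dd (X p) (Y p) (X q) (Y q)) (u v : V) :
    D v ≤ D u + ρ * dd (X u) (Y u) (X v) (Y v) := by
  have wf : WellFounded (fun t s : V × V => dd (X t.1) (Y t.1) (X t.2) (Y t.2) <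
      dd (X s.1) (Y s.1) (X s.2) (Y s.2)) := by
    have : IsTrans (V × V) (fun t s : V × V => dd (X t.1) (Y t.1) (X t.2) (Y t.2) <
      dd (X s.1) (Y s.1) (X s.2) (Y s.2)) := ⟨fun a b c h1 h2 => lt_trans h1 h2⟩
    have : Std.Irrefl (fun t s : V × V => dd (X t.1) (Y t.1) (X t.2) (Y t.2) <
      dd (X s.1) (Y s.1) (X s.2) (Y s.2)) := ⟨fun a => lt_irrefl _⟩
    exact Finite.wellFounded_of_trans_of_irrefl _
  suffices h : ∀ s : V × V, D s.2 ≤ D s.1 + ρ * dd (X s.1) (Y s.1) (X s.2) (Y s.2) from h (u, v)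
  intro s
  induction s using wf.induction with
  | _ s ih =>
  obtain ⟨u, v⟩ := s
  simp only at ih ⊢
  by_cases huv : u = v
  · subst huv
    have := dd_nonneg (X u) (Y u) (X u) (Y u)
    nlinarith
  by_cases hb : ∃ w, Btw X Y u v w
  · obtain ⟨w, s, s0, s1, hx, hy⟩ := hb
    have hd : 0 < dd (X u) (Y u) (X v) (Y v) := sqrt_pos.mpr (sq_pos_of_ne hinj huv)
    have e1 : dd (X u) (Y u) (X w) (Y w) = s * dd (X u) (Y u) (X v) (Y v) := by
      unfold dd
      rw [hx, hy, ← sqrt_sq s0.le, ← sqrt_mul (sq_nonneg _), sqrt_sq s0.le]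
      congr 1; ring
    have e2 : dd (X w) (Y w) (X v) (Y v) = (1 - s) * dd (X u) (Y u) (X v) (Y v) := by
      unfold dd
      rw [hx, hy, ← sqrt_sq (sub_pos.mpr s1).le, ← sqrt_mul (sq_nonneg _)]
      congr 1; ring
    have h1 := ih (u, w) (by simp only; rw [e1]; nlinarith)
    have h2 := ih (w, v) (by simp only; rw [e2]; nlinarith)
    simp only at h1 h2
    rw [e1] at h1
    rw [e2] at h2
    linarith
  · push Not at hb
    exact free_bound hG hρ hinj hix hD huv hb

end

theorem dist_dd (p q : Pt) : dist p q = dd (p 0) (p 1) (q 0) (q 1) := by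
  rw [EuclideanSpace.dist_eq, Fin.sum_univ_two, Real.dist_eq, Real.dist_eq, sq_abs, sq_abs]; rfl

theorem seg_cases {a b x : Pt} (h : x ∈ segment ℝ a b) : x = a ∨ x = b ∨
    ∃ s : ℝ, 0 < s ∧ s < 1 ∧ x 0 = (1 - s) * a 0 + s * b 0 ∧ x 1 = (1 - s) * a 1 + s * b 1 := by
  rw [segment_eq_image] at h
  obtain ⟨s, ⟨s0, s1⟩, rfl⟩ := h
  rcases eq_or_lt_of_le s0 with h0 | h0
  · left; simp [← h0]
  rcases eq_or_lt_of_le s1 with h1 | h1
  · right; left; simp [h1]
  right; right
  exact ⟨s, h0, h1, by simp, by simp⟩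

theorem graphDist_self {P : Finset Pt} (G : SimpleGraph P) (u : P) : graphDist G u u = 0 := by
  apply le_antisymm _ zero_le
  refine (iInf_le _ SimpleGraph.Walk.nil).trans ?_
  simp [walkLength]

theorem graphDist_adj {P : Finset Pt} (G : SimpleGraph P) (u : P) {p q : P} (h : G.Adj p q) :
    graphDist G u q ≤ graphDist G u p + ENNReal.ofReal (dist (p : Pt) (q : Pt)) := by
  unfold graphDist
  rw [ENNReal.iInf_add]
  refine le_iInf fun w => (iInf_le _ (w.concat h)).trans ?_
  have : walkLength (w.concat h) = walkLength w + dist (p : Pt) (q : Pt) := by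
    simp [walkLength, SimpleGraph.Walk.darts_concat]
  rw [this]
  exact ENNReal.ofReal_add_le

theorem main_of_cert (hG : Cert ρ F Fx Fz Ft Fd E Ex Ez Et) (hρ : 1 ≤ ρ)
    (P : Finset Pt) : ∃ G : SimpleGraph P, IsPlane P G ∧
      (∀ p q : P, G.Adj p q → ∃ (c : Pt) (r : ℝ), dist (p : Pt) c = r ∧ dist (q : Pt) c = r ∧
        ∀ w ∈ P, r ≤ dist w c) ∧ stretch G ≤ ENNReal.ofReal ρ := by
  classical
  set X : P → ℝ := fun p => (p : Pt) 0 with hX
  set Y : P → ℝ := fun p => (p : Pt) 1 with hY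
  set ix : P → ℕ := fun p => (Fintype.equivFin P p : ℕ) with hix'
  have hix : Function.Injective ix := fun p q h => (Fintype.equivFin P).injective (Fin.ext h)
  have hinj : ∀ p q, X p = X q → Y p = Y q → p = q := by
    intro p q h1 h2
    apply Subtype.ext
    ext i
    fin_cases i
    · exact h1
    · exact h2
  let G : SimpleGraph P := ⟨Adj X Y ix, ⟨fun _ _ h => h.symm⟩, ⟨fun _ h => h.1 rfl⟩⟩
  refine ⟨G, ⟨?_, ?_⟩, ?_, ?_⟩
  · intro a b c d hab hcd hne x hx1 hx2
    have hab' : Adj X Y ix a b := hab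
    have hcd' : Adj X Y ix c d := hcd
    rcases seg_cases hx1 with h1 | h1 | ⟨s, s0, s1, e1, e2⟩
    · refine ⟨Or.inl h1, ?_⟩
      rcases seg_cases hx2 with h2 | h2 | ⟨t, t0, t1, f1, f2⟩
      · exact Or.inl h2
      · exact Or.inr h2
      · rw [h1] at f1 f2
        exact (no_point hinj hcd' (p := a) t0 t1 f1 f2).elim
    · refine ⟨Or.inr h1, ?_⟩
      rcases seg_cases hx2 with h2 | h2 | ⟨t, t0, t1, f1, f2⟩
      · exact Or.inl h2
      · exact Or.inr h2
      · rw [h1] at f1 f2
        exact (no_point hinj hcd' (p := b) t0 t1 f1 f2).elim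
    · exfalso
      rcases seg_cases hx2 with h2 | h2 | ⟨t, t0, t1, f1, f2⟩
      · rw [h2] at e1 e2
        exact no_point hinj hab' (p := c) s0 s1 e1 e2
      · rw [h2] at e1 e2
        exact no_point hinj hab' (p := d) s0 s1 e1 e2
      · rcases no_cross hinj hix hab' hcd' s0 s1 t0 t1 (e1.symm.trans f1) (e2.symm.trans f2) with
          ⟨h1, h2⟩ | ⟨h1, h2⟩
        · exact hne (by rw [h1, h2])
        · exact hne (by rw [h1, h2, Sym2.eq_swap])
  · intro a b p hab hp
    have hab' : Adj X Y ix a b := hab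
    rw [openSegment_eq_image] at hp
    obtain ⟨s, ⟨s0, s1⟩, hs⟩ := hp
    refine no_point hinj hab' (p := p) s0 s1 ?_ ?_
    · simp only [hX]; rw [← hs]; simp
    · simp only [hY]; rw [← hs]; simp
  · rintro p q ⟨hne, cx, cy, R, W⟩
    have hd : ∀ w : P, dist (w : Pt) (!₂[cx, cy] : Pt) = √(pw X Y cx cy R w + R) := by
      intro w
      rw [dist_dd]; unfold dd pw
      congr 1
      simp [hX, hY]
    refine ⟨!₂[cx, cy], √R, by rw [hd, W.tp, zero_add], by rw [hd, W.tq, zero_add], ?_⟩
    intro w hw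
    rw [hd ⟨w, hw⟩]
    apply sqrt_le_sqrt
    have := W.emp ⟨w, hw⟩
    linarith
  · unfold stretch
    refine iSup_le fun u => iSup_le fun v => iSup_le fun _ => ?_
    apply ENNReal.div_le_of_le_mul
    have hρ0 : 0 ≤ ρ := by linarith
    have hd0 : 0 ≤ ρ * dist (u : Pt) (v : Pt) := mul_nonneg hρ0 dist_nonneg
    set M : ℝ≥0∞ := ENNReal.ofReal (ρ * dist (u : Pt) (v : Pt) + 1) with hM
    have fin : ∀ w, min (graphDist G u w) M ≠ ⊤ := fun w =>
      ne_top_of_le_ne_top ENNReal.ofReal_ne_top (min_le_right _ _)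
    have hb := lip_bound hG hρ hinj hix (D := fun w => (min (graphDist G u w) M).toReal) ?_ u v
    · rw [graphDist_self, min_eq_left zero_le, ENNReal.toReal_zero, zero_add, ← dist_dd] at hb
      have h1 : min (graphDist G u v) M ≤ ENNReal.ofReal (ρ * dist (u : Pt) (v : Pt)) := by
        rw [← ENNReal.ofReal_toReal (fin v)]
        exact ENNReal.ofReal_le_ofReal hb
      rw [edist_dist, ← ENNReal.ofReal_mul hρ0]
      rcases min_le_iff.mp h1 with h2 | h2
      · exact h2
      · exfalso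
        rw [hM, ENNReal.ofReal_le_ofReal_iff hd0] at h2
        linarith
    · intro p q h
      have h1 := graphDist_adj G u (show G.Adj p q from h)
      have h2 : min (graphDist G u q) M ≤
          min (graphDist G u p) M + ENNReal.ofReal (dist (p : Pt) (q : Pt)) := by
        rw [← min_add_add_right]
        exact min_le_min h1 le_self_add
      have h3 := ENNReal.toReal_mono (ENNReal.add_ne_top.mpr ⟨fin p, ENNReal.ofReal_ne_top⟩) h2
      rw [ENNReal.toReal_add (fin p) ENNReal.ofReal_ne_top, ENNReal.toReal_ofReal dist_nonneg,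
        dist_dd] at h3
      exact h3

end Pool.Agent.MP_8fe08c_co.h82
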