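import Pool.Agent.MP_8fe08c_co.h82.Dat
import Pool.Agent.MP_8fe08c_co.h82.DatB

set_option autoImplicit false

namespace Pool.Agent.MP_8fe08c_co.h82

theorem linkB : link 36301752348203865600 7 0 (nB wD) dB = true := by decide +kernel

end Pool.Agent.MP_8fe08c_co.h82
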