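import Pool.Agent.MP_8fe08c_co.h82.Dat
import Pool.Agent.MP_8fe08c_co.h82.DatP

set_option autoImplicit false

namespace Pool.Agent.MP_8fe08c_co.h82

theorem linkP : link 8396518257931331404800 8 9 (nP wD XD) dP = true := by decide +kernel

end Pool.Agent.MP_8fe08c_co.h82
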