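import Pool.Agent.MP_8fe08c_co.h82.Tree
import Pool.Agent.MP_8fe08c_co.h82.DatA
import Pool.Agent.MP_8fe08c_co.h82.DatP

set_option autoImplicit false

namespace Pool.Agent.MP_8fe08c_co.h82

open Tr

def gA_12_0 : Prop := grp 263 5448266908646675097600 8 9 4 8 3 4 0 20 dA
    [⟨4, 8, 0, 1, 99, (X (Z L (XL (ZR L (ZR L (ZR L (ZR L L)))) (ZR L (ZR L (XR L (XR (ZR L L) (ZR L (ZR L L)))))))) (Z (XR L (ZL (XR L (XR L (ZL (ZL L L) L))) L)) (ZR L (ZR L L))))⟩,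
     ⟨4, 8, 1, 2, 65, (X (XL (Z (ZL (ZL L (ZR L L)) L) (ZR L (ZR L L))) (Z (ZL L L) L)) (Z (XR (ZL L L) (ZL L L)) (ZR (ZL L L) L)))⟩,
     ⟨4, 8, 2, 3, 77, (X (Z (ZL (XL (ZL L L) (XR (ZL (ZL L L) L) (ZL L (ZR L L)))) L) (XL (ZR (XL L L) L) (ZR L L))) (Z (XR (ZL L L) (ZL (ZL (ZL (ZL L L) L) L) L)) (ZR L L)))⟩,
     ⟨4, 8, 3, 4, 89, (X (XL (Z (ZL L L) (ZR L L)) (Z (ZL (XR (ZL L L) (ZL (XR (ZL L L) (ZL L L)) L)) L) (ZR L L))) (XR (Z L (XL (ZR L (XL L (ZR L L))) (ZR L (ZR L (ZR L L))))) (Z (ZL (ZL (ZL L L) L) L) (ZR L (ZR L (ZR L (XR L (ZR L L))))))))⟩,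
     ⟨4, 8, 4, 5, 131, (X (XL (Z (ZL (ZL (ZL L L) L) L) (ZR L L)) (Z (XR (ZL (ZL (ZL L L) L) L) (ZL (XR (ZL L L) (ZL L L)) L)) (ZR L (XR L (XR L L))))) (XR (XL (Z (XL (ZL L L) L) (ZR (XL L L) (ZR (XL L L) L))) (Z L (ZR L (ZR L (ZR (ZL L L) L))))) (Z (ZL L L) (ZR L (ZR L (ZR L (XR (ZR L L) (ZR L (XR (ZR L L) (XR (ZR L L) (ZR L (ZR L L))))))))))))⟩] = true

def gA_31_26 : Prop := grp 288 5448266908646675097600 8 9 1 32 31 32 26 32 dA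
    [⟨2, 16, 13, 14, 89, (X (XL (Z (ZL L L) (ZR L L)) (Z (XR (ZL (XL L L) (ZR (XL (ZL L L) L) L)) L) (ZR (XR (ZL (ZL L L) (ZR (ZL L L) L)) (ZL L (ZR L L))) L))) (Z L (ZR L L)))⟩,
     ⟨2, 16, 14, 15, 89, (X (XL (Z (ZL (ZL L (XL L (ZR L L))) (XL L (ZR L L))) (ZR L L)) (Z (ZL L L) (ZR (ZL L (XR (XL L (ZR L L)) (ZR L (ZR L L)))) (XR L L)))) (Z L (ZR L (ZR L L))))⟩,
     ⟨1, 32, 30, 31, 67, (X (XL (Z (XL (ZL L L) (ZL (ZL L L) (ZR L L))) (ZR L L)) (Z (ZL L L) (XR (ZR L L) (ZR L (ZR L L))))) (Z L (ZR L (XR L (ZR L L)))))⟩,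
     ⟨1, 32, 31, 32, 113, (X (XL (Z (ZL L (ZR L L)) (ZR (ZL L L) (ZR L (XL (XL L (ZR L L)) L)))) (Z L (ZR (ZL L L) (XR (ZR (ZL L L) (ZR L (XL L L))) (ZR (ZL L (ZR L L)) (ZR L (XR (ZR L L) (ZR L L)))))))) (XR (Z L (ZR L (XL (ZR L (XL (ZR L L) (ZR L L))) (XR (ZR L L) L)))) (Z L (ZR L (XR L (XR L (XR L (ZR L (XR L (ZR L L))))))))))⟩] = true

def gA_8_0 : Prop := grp 242 5448266908646675097600 8 9 4 8 2 3 0 16 dA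
    [⟨4, 8, 0, 1, 89, (X (XL (Z L (XL (ZR L (ZR L (ZR L (ZR L L)))) (ZR (XR (ZL L L) (ZL L L)) (ZR L (ZR (XR L L) L))))) (Z L (ZR L (ZR L (XR (ZR L L) (XR (ZR L L) (ZR L L))))))) (Z (XR (XL (XL L L) L) (ZL (XR L (ZL L (ZR L L))) L)) (ZR L (ZR L L))))⟩,
     ⟨4, 8, 1, 2, 53, (X (Z (ZL (ZL L (ZR L L)) L) (ZR L (XL L L))) (Z (ZL (XR L L) L) (ZR L L)))⟩,
     ⟨4, 8, 2, 3, 77, (X (Z (ZL (XL L (ZL L L)) L) (XL (ZR L L) (ZR L L))) (XR (Z (ZL L L) (XL (ZR L L) (ZR L L))) (Z (XR L (ZL (ZL (ZL L L) L) L)) (ZR L (ZR L (XR L (ZR L L)))))))⟩,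
     ⟨4, 8, 3, 4, 109, (X (Z (ZL L L) (XL (ZR L L) (ZR L L))) (XR (Z L (XL (XL (ZR L (ZR L L)) (ZR (ZL L L) (ZR L (ZR L L)))) (ZR (ZL L L) (ZR L (ZR L L))))) (Z (XR L (ZL (XR L (XR L (ZL (ZL L L) L))) L)) (ZR L (ZR L (ZR L (XR (ZR L (XL L (ZR L L))) (ZR L (ZR L L)))))))))⟩] = true

def gA_12_20 : Prop := grp 232 5448266908646675097600 8 9 4 8 3 4 20 28 dA
    [⟨4, 8, 5, 6, 99, (X (XL (Z (ZL (ZL (ZL L (ZR L L)) L) (XL L L)) L) (Z (ZL (XR (ZL (ZL (ZL L L) L) L) (XR (ZL (ZL L L) L) (ZL L L))) L) L)) (XR (Z (ZL L (XL (XL (ZR L L) (ZR L L)) L)) (ZR L L)) (Z (ZL (ZL (ZL L L) L) L) (XR (ZR L L) (ZR L (XR (ZR L L) (ZR L (ZR L (ZR L L)))))))))⟩,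
     ⟨2, 16, 12, 13, 77, (X (XL (Z (ZL (ZL (XL L (ZL L L)) L) (XL (XL L L) L)) (XL (XL (ZR L L) L) L)) (Z (ZL (ZL (XR (ZL L L) (ZL L L)) L) L) L)) (XR (Z (ZL L (XL (ZR (ZL L L) L) L)) (ZR L L)) (Z (ZL (XR L (ZL L L)) L) (ZR L L))))⟩,
     ⟨2, 16, 13, 14, 81, (X (XL (XL (Z (ZL (ZL L L) (XL L L)) (XL (ZR (XL L L) L) L)) (Z (ZL (ZL L L) L) L)) (Z (ZL (ZL (ZL L L) L) L) L)) (Z (XR (ZL L (XL (ZR L L) L)) (ZL (XR (ZL L L) (ZL (ZL L L) L)) L)) (ZR (XR L L) (ZR L (XR L (XR L (XR L L)))))))⟩] = true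

def gP_12_0 : Prop := grp 225 8396518257931331404800 8 9 4 8 3 4 0 16 dP
    [⟨4, 8, 0, 1, 89, (X (Z (ZL L L) (ZR (XL (XL (ZL (ZL L L) L) L) L) (ZR L (XL (ZR L (XL L (ZR L L))) (ZR L L))))) (XR (Z L (XL (ZR L (ZR L (ZR L (ZR L L)))) (ZR L (ZR L L)))) (XR (Z L (ZR L L)) (Z (ZL L (ZR L L)) (XR (ZR L L) (ZR L (ZR L (ZR L L))))))))⟩,
     ⟨4, 8, 1, 2, 79, (X (Z L (ZR L (ZR L (XL (XL (XL L L) (ZR L L)) (ZR L L))))) (Z (ZL L L) (ZR L (ZR L (ZR L L)))))⟩,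
     ⟨4, 8, 2, 3, 43, (X (Z (ZL L L) (ZR (ZL L L) L)) (Z (ZL L L) L))⟩,
     ⟨4, 8, 3, 4, 45, (Z (X (ZL L L) L) (ZR L (X (XL L L) L)))⟩] = true

def gP_20_0 : Prop := grp 227 8396518257931331404800 8 9 4 8 5 6 0 16 dP
    [⟨4, 8, 0, 1, 89, (X (Z (ZL (ZL (ZL L L) L) L) (XL (ZR L (ZR L (ZR L L))) (ZR (XR L L) (ZR L L)))) (XR (Z L (XL (ZR L L) (ZR L L))) (XR (Z L (ZR (ZL L L) L)) (Z (ZL L L) (ZR (ZL L (XR L L)) (XR (ZR L L) (ZR L (ZR L L))))))))⟩,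
     ⟨4, 8, 1, 2, 55, (X (Z (ZL L L) (ZR L (XL (ZR L L) L))) (Z (XR L (ZL L L)) (ZR (ZL L L) L)))⟩,
     ⟨4, 8, 2, 3, 45, (X (Z (ZL L L) (ZR L L)) (Z (ZL L L) (XR L (ZR L L))))⟩,
     ⟨4, 8, 3, 4, 65, (X (Z (ZL L L) L) (Z (ZL L L) (XR L (ZR L (ZR (ZL L L) L)))))⟩] = true

theorem run1 : gA_12_0 ∧ gA_31_26 ∧ gA_8_0 ∧ gA_12_20 ∧ gP_12_0 ∧ gP_20_0 :=
  ⟨by unfold gA_12_0; decide +kernel,
   by unfold gA_31_26; decide +kernel,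
   by unfold gA_8_0; decide +kernel,
   by unfold gA_12_20; decide +kernel,
   by unfold gP_12_0; decide +kernel,
   by unfold gP_20_0; decide +kernel⟩

end Pool.Agent.MP_8fe08c_co.h82
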