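import Pool.Agent.MP_8fe08c_co.h82.Tree
import Pool.Agent.MP_8fe08c_co.h82.DatA
import Pool.Agent.MP_8fe08c_co.h82.DatP

set_option autoImplicit false

namespace Pool.Agent.MP_8fe08c_co.h82

open Tr

def gA_31_8 : Prop := grp 254 5448266908646675097600 8 9 1 32 31 32 8 26 dA
    [⟨4, 8, 2, 3, 89, (X (XL (Z (ZL (XL (XL (ZL L L) L) (ZL L L)) (ZR L L)) (XL L (ZR L L))) (Z (XR (ZL (ZL L (XL (ZR L L) L)) (ZR (ZL L L) (ZR (ZL L L) L))) (ZL L L)) L)) (Z (ZL L L) (XR (ZR L (ZR L L)) L)))⟩,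
     ⟨4, 8, 3, 4, 89, (X (XL (Z (XL (ZL (XL (ZL L L) L) L) (ZL L (ZR L (ZR L L)))) (ZR (XL (XL L (ZL (ZL L L) L)) (ZL (ZL L L) L)) L)) (Z (ZL L (ZR L (XR (ZR L L) L))) (ZR (ZL (ZL (XR L L) L) L) L))) (Z (XR L (ZL L L)) (ZR (XR (XL L (ZL (ZL (ZL L L) L) L)) (ZL L L)) L)))⟩,
     ⟨4, 8, 4, 5, 77, (X (XL (Z (XL (ZL (ZL L L) L) (ZL L (ZR L (ZR L L)))) (ZR (XL (ZL L L) L) L)) (Z (XR (ZL L (ZR L (ZR L L))) L) (ZR (ZL (XR (ZL L L) L) L) L))) (XR (Z (XL L L) L) (XR (Z L L) (Z L L))))⟩,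
     ⟨4, 8, 5, 6, 89, (X (XL (Z (ZL (ZL L L) L) (ZR (ZL L L) L)) (Z (ZL L L) (XR (ZR (ZL (XL (ZL L L) (ZL L L)) L) L) L))) (Z (ZL (ZL L L) L) (ZR L L)))⟩,
     ⟨2, 16, 12, 13, 89, (X (XL (Z (ZL L L) (ZR (ZL L L) L)) (Z (XR (ZL (XL L L) (ZR (XL (ZL L L) L) L)) (ZL L L)) (ZR (XR (ZL (XL (ZL L L) (ZL L L)) L) L) L))) (Z (ZL L L) (ZR L L)))⟩] = true

def gA_28_0 : Prop := grp 258 5448266908646675097600 8 9 2 16 14 15 0 16 dA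
    [⟨4, 8, 0, 1, 109, (X (XL (Z (ZL (XL (ZL L L) (ZL L L)) L) (ZR L (ZR L L))) (Z (XR (ZL (ZL (ZL L L) L) L) (ZL (ZL (XR L (ZL L L)) L) L)) (ZR L (XR L (ZR L (XR (ZR L L) (ZR L (ZR L (ZR L L))))))))) (Z (ZL (XR (XL (XL (ZL L L) L) L) (XR L (XR (ZL L L) (ZL L L)))) L) (ZR L (ZR L L))))⟩,
     ⟨4, 8, 1, 2, 89, (X (XL (Z (ZL L (ZR L L)) (ZR L L)) (Z (XR (ZL (ZL L L) (ZR (XL (ZL L L) (ZL L L)) L)) (ZL (ZL L L) (ZR L L))) L)) (Z (ZL (XR (XL L L) (XR L (ZL (XR L L) L))) (ZR L L)) L))⟩,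
     ⟨4, 8, 2, 3, 89, (X (XL (Z (ZL (XL (XL (ZL (ZL L L) L) L) L) (ZR L L)) (ZR L L)) (Z (XR (ZL (ZL L (XL (ZR L L) (ZR L L))) (ZR (ZL L L) (ZR L L))) (ZL (ZL L L) (ZR L L))) L)) (Z (ZL (ZL L L) L) L))⟩,
     ⟨4, 8, 3, 4, 113, (X (XL (Z (ZL (XL (XL (ZL (XL (XL (ZL L L) (ZL L L)) L) L) L) L) (ZR L L)) (XL L L)) (Z (ZL (ZL L L) (XR (ZR L (ZR L L)) (ZR L L))) L)) (Z (XR L (ZL L L)) L))⟩] = true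

def gA_12_28 : Prop := grp 261 5448266908646675097600 8 9 4 8 3 4 28 32 dA
    [⟨2, 16, 14, 15, 87, (X (XL (Z (ZL (ZL L L) L) (XL L L)) (Z (XR (ZL (ZL (XL L L) L) L) (ZL (ZL L L) L)) (ZR L (ZR L L)))) (XR (Z (ZL L L) (ZR L (ZR L L))) (Z (ZL (XR (ZL L (ZR (ZL L L) L)) (ZL (ZL L L) L)) L) (ZR L (XR (ZR L (ZR L L)) (ZR L (ZR L L)))))))⟩,
     ⟨1, 32, 30, 31, 89, (X (XL (Z (ZL (ZL L L) L) (XL L L)) (Z (ZL (XR (ZL L L) L) L) (ZR L (ZR L (ZR L L))))) (XR (Z L (ZR L (ZR L (ZR L (ZR L L))))) (Z (ZL (ZL L L) L) (ZR L (XR (ZR L L) (ZR (XR (ZL L L) L) (ZR L L)))))))⟩,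
     ⟨1, 32, 31, 32, 109, (X (XL (XL (Z (ZL (ZL L (XL L (ZR L L))) (XL L L)) (XL L (ZR L L))) (Z (ZL L L) (ZR L L))) (XR (Z (ZL (ZL L L) L) (ZR (XL L L) (ZR L L))) (Z L (ZR L (ZR (ZL L L) (ZR L (ZR L L))))))) (XR (Z L (ZR (XL (ZL (ZL L L) L) L) (ZR L (XL (ZR L (XL (ZR L (ZR L L)) L)) L)))) (Z (ZL (ZL L L) L) (ZR L (XR (ZR L (ZR L L)) (XR (ZR L (ZR L (ZR L L))) (ZR L L)))))))⟩] = true

def gA_26_28 : Prop := grp 274 5448266908646675097600 8 9 2 16 13 14 28 32 dA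
    [⟨2, 16, 14, 15, 89, (X (XL (Z (ZL (XL (ZL L L) (ZL L L)) L) L) (Z (ZL (ZL (XR (XL (ZL L L) (ZL L L)) L) L) L) (XR L (ZR L (XR L L))))) (XR (Z (ZL L L) (XL (ZR (ZL (XL L (ZL L L)) L) (ZR L L)) (ZR (XR L L) (ZR (XR (ZL L L) L) (ZR (ZL L L) L))))) (Z L (ZR L (ZR L (ZR L (XR L (ZR L L))))))))⟩,
     ⟨1, 32, 30, 31, 87, (X (XL (Z (ZL (ZL L L) L) L) (Z (ZL (ZL L L) L) L)) (Z (ZL L L) (XR (ZR L (ZR L L)) (ZR L (ZR L (ZR L (XR L (ZR L L))))))))⟩,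
     ⟨1, 32, 31, 32, 109, (X (XL (XL (Z (ZL (ZL L L) (ZR L L)) (ZR L (XL L L))) (Z (ZL L L) (XR L L))) (Z (ZL (XR L (ZL L L)) L) (XR (ZR (ZL L L) (ZR L (ZR L L))) (ZR (ZL L L) (ZR L (XR L (ZR L L))))))) (Z (ZL (ZL L L) L) (ZR L (ZR L (XR (XL (ZR L (ZR L L)) (ZR L (ZR L (ZR L L)))) (ZR L (ZR L (XR (ZR L L) (XR L (ZR L L))))))))))⟩] = true

def gP_0_0 : Prop := grp 240 8396518257931331404800 8 9 4 8 0 1 0 8 dP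
    [⟨4, 8, 0, 1, 99, (X (XL (Z (XL (ZL (XL L L) (ZR (ZL L L) L)) L) (ZR L (ZR L (XL (ZR L (ZR (ZL L L) L)) (ZR L (XR L L)))))) (XR (Z L (ZR (ZL L L) (ZR L (ZR (ZL L L) L)))) (Z L (ZR L (ZR (ZL L L) (ZR L L)))))) (XR (XL (Z (ZL L (ZR (ZL L L) L)) (ZR (ZL L (XL L L)) (ZR (ZL L L) (ZR L (XL (ZR L L) L))))) (Z (ZL (XR L L) (ZR L L)) (ZR (ZL L (ZR L L)) L))) (XR (Z (XL L L) (ZR L L)) (Z (ZL L (XR L (XR (ZR L L) (ZR L L)))) (ZR (ZL L L) (ZR L (XR L (ZR L (ZR L L)))))))))⟩,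
     ⟨4, 8, 1, 2, 89, (X (Z (XL (ZL L L) (XR L (XR L L))) (ZR (XL (XL (ZL L L) (ZL L L)) L) L)) (XR (Z (ZL L (XL L (ZR L (ZR L L)))) (XL (ZR L L) (ZR (ZL L (XR (ZR L L) (ZR L L))) L))) (Z (XR L (ZL (ZL L L) (XR L (ZR (ZL L L) L)))) (ZR L (ZR L L)))))⟩] = true

theorem run2 : gA_31_8 ∧ gA_28_0 ∧ gA_12_28 ∧ gA_26_28 ∧ gP_0_0 :=
  ⟨by unfold gA_31_8; decide +kernel,
   by unfold gA_28_0; decide +kernel,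
   by unfold gA_12_28; decide +kernel,
   by unfold gA_26_28; decide +kernel,
   by unfold gP_0_0; decide +kernel⟩

end Pool.Agent.MP_8fe08c_co.h82
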