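import Pool.Agent.MP_8fe08c_co.h82.Tree
import Pool.Agent.MP_8fe08c_co.h82.DatA
import Pool.Agent.MP_8fe08c_co.h82.DatB

set_option autoImplicit false

namespace Pool.Agent.MP_8fe08c_co.h82

open Tr

def gA_30_0 : Prop := grp 256 5448266908646675097600 8 9 1 32 30 31 0 20 dA
    [⟨4, 8, 0, 1, 89, (X (XL (Z (ZL (XL (ZL (XL (ZL L L) L) (ZR (XL L L) L)) (ZL L L)) L) (ZR L (ZR L L))) (Z (XR (ZL (ZL (ZL L L) L) (ZR L L)) (ZL (XR (ZL L L) (ZL L L)) L)) (ZR L (XR L (ZR L (ZR (XR L L) L)))))) (Z (ZL (XR (ZL L L) (XR (ZL L L) (XR (ZL L (ZR L L)) (ZL L L)))) L) (ZR L L)))⟩,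
     ⟨4, 8, 1, 2, 89, (X (XL (Z (ZL (XL L L) (ZR L L)) L) (Z (XR (ZL (ZL L (ZR L L)) (ZR (XL (ZL L L) (ZL L L)) L)) (ZL (ZL L L) (ZR L L))) L)) (Z (ZL (XR L (ZL L L)) L) L))⟩,
     ⟨4, 8, 2, 3, 89, (X (XL (Z (ZL (XL (XL (ZL L L) L) (ZL L L)) (ZR L L)) L) (Z (XR (ZL (ZL L (XL (ZR L L) L)) (ZR (ZL L L) (ZR (ZL L L) L))) (ZL L (ZR L L))) L)) (Z L L))⟩,
     ⟨4, 8, 3, 4, 101, (X (XL (Z (ZL (XL (XL (ZL (XL (ZL L L) L) L) L) L) (ZR L (ZR L L))) (ZR (XL L L) L)) (Z (ZL L (XR (ZR L (ZR L L)) L)) L)) (XR (Z L L) (Z L L)))⟩,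
     ⟨4, 8, 4, 5, 89, (X (XL (Z (ZL (XL (XL (ZL L L) L) L) (ZR L L)) (ZR (XL (ZL (ZL L L) L) L) L)) (XR (Z (ZL L (ZR L (XL (ZR L L) L))) (ZR (ZL (XL (ZL L L) L) L) L)) (Z L L))) (XR (Z L L) (Z L (ZR L L))))⟩] = true

def gA_20_16 : Prop := grp 264 5448266908646675097600 8 9 4 8 5 6 16 26 dA
    [⟨4, 8, 4, 5, 99, (X (XL (Z (ZL (ZL (ZL L (XL (XL L L) L)) (XL (XL (XL L L) L) L)) (XL L L)) (ZR L L)) (Z (XR (ZL (ZL (ZL L L) L) (ZR L L)) (ZL L (ZR L L))) (ZR (XR L (XR (ZL L L) L)) L))) (Z (ZL (XR L (ZL (XR L (ZL (ZL L (XR L L)) L)) L)) L) (ZR (ZL L (XR L (ZR L L))) (XR L (ZR L L)))))⟩,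
     ⟨4, 8, 5, 6, 109, (X (XL (Z (ZL (ZL (ZL L L) L) L) (ZR L L)) (Z (ZL (XR (ZL (ZL (ZL L L) L) L) L) L) (XR (ZR L L) (ZR (XR (ZL L L) (ZL L (ZR L L))) (ZR L L))))) (XR (Z L (ZR L (XL (ZR (XL (ZL L L) L) L) (ZR L L)))) (Z (ZL (ZL (XR L (ZL (XR L (ZL L (ZR L L))) L)) L) L) (ZR L (ZR L (XR L (ZR L (ZR L L))))))))⟩,
     ⟨2, 16, 12, 13, 121, (X (XL (Z (ZL (ZL (XL L (ZL L (ZR L L))) L) L) (XL L L)) (Z (ZL (ZL (ZL L L) L) L) (XR L (ZR L (ZR L L))))) (Z (XR L (ZL (ZL L L) L)) (ZR L (XR (XL (XL (ZR (ZL L L) (ZR L (ZR L L))) (ZR L (ZR L L))) (ZR L L)) (ZR L (XR (XL L L) (XR L (ZR L (XR L (ZR L (ZR L L)))))))))))⟩] = true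

def gA_26_16 : Prop := grp 244 5448266908646675097600 8 9 2 16 13 14 16 28 dA
    [⟨4, 8, 4, 5, 89, (X (XL (Z (ZL (XL L L) L) (XL (ZR L L) L)) (Z (ZL (ZL (XR L L) L) (ZR L (XR (XL L (ZR L L)) L))) (ZR (XR (XL L (ZL L L)) L) L))) (XR (Z L (ZR L L)) (Z (ZL (ZL L L) L) (ZR (ZL L L) L))))⟩,
     ⟨4, 8, 5, 6, 89, (X (XL (Z (ZL (ZL L L) L) (XL (ZR (XL (ZL L L) L) L) L)) (Z (ZL L (XR L L)) (ZR (XR (ZL (XL L (ZL L L)) L) (ZL L (ZR L L))) L))) (Z (XR L (ZL L L)) (ZR L (XR L L))))⟩,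
     ⟨2, 16, 12, 13, 89, (X (XL (Z (ZL (XL (ZL (XL L L) L) L) L) (ZR L L)) (Z (ZL L L) (XR (ZR (ZL L L) L) (ZR (ZL L (XR (ZR L L) (ZR L L))) (XR L (ZR L L)))))) (Z (ZL L L) (ZR L (XR (ZR L L) (XR (XL L L) L)))))⟩,
     ⟨2, 16, 13, 14, 89, (X (XL (Z (ZL (XL (XL (ZL (ZL L L) L) (ZL L L)) L) L) L) (Z (ZL L L) (XR (ZR L L) (ZR (ZL L (XR L L)) (XR L (ZR (ZL L L) L)))))) (Z L (ZR L (XR (XL (ZR (XL (ZL L L) L) L) (ZR L L)) (ZR L (XR L L))))))⟩] = true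

def gA_28_16 : Prop := grp 245 5448266908646675097600 8 9 2 16 14 15 16 28 dA
    [⟨4, 8, 4, 5, 89, (X (XL (Z (ZL (XL (XL L L) L) L) (ZR (XL (XL L (ZL L L)) L) L)) (Z (ZL L (XR (ZR L (ZR L (XL L L))) L)) (XR (ZR (ZL (XL L L) L) L) L))) (XR (Z L L) (Z (ZL L L) (ZR (ZL L L) L))))⟩,
     ⟨4, 8, 5, 6, 89, (X (XL (XL (Z L (ZR (XL (ZL L L) L) L)) (Z L L)) (Z (ZL (ZL (XR L L) L) (XR L L)) (ZR (XR (ZL (XL (ZL L L) (ZL L L)) L) (ZL L L)) L))) (Z (ZL (XR L L) L) (ZR L L)))⟩,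
     ⟨2, 16, 12, 13, 89, (X (XL (Z (ZL L L) (ZR L L)) (Z (ZL (ZL (XR L L) L) L) (ZR (XR (XL (ZL L L) (ZL (ZL L L) L)) (XR (ZL L (ZR L L)) L)) L))) (Z (ZL L L) (ZR L (XR L L))))⟩,
     ⟨2, 16, 13, 14, 89, (X (XL (Z (ZL (XL (ZL L L) L) L) L) (Z (ZL L L) (XR (ZR (ZL L L) L) (ZR (ZL L (XR (ZR L L) L)) L)))) (Z (ZL L L) (XR (ZR L L) (ZR L (XR L L)))))⟩] = true

def gA_0_24 : Prop := grp 238 5448266908646675097600 8 9 4 8 0 1 24 28 dA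
    [⟨2, 16, 12, 13, 89, (X (XL (Z (ZL L L) (ZR L (XL (ZR L (XL L L)) L))) (Z (ZL (ZL L L) L) (ZR L (ZR L (ZR L L))))) (XR (Z (XL (ZL L (ZR (ZL L L) L)) (ZL L (ZR (XR (ZL L L) L) (ZR (XR L L) L)))) (ZR L (ZR (XL L L) (ZR L L)))) (Z (ZL L (XR (ZR L (ZR L L)) L)) (ZR L (XR L (XR L (ZR L (ZR L L))))))))⟩,
     ⟨2, 16, 13, 14, 91, (X (XL (Z (ZL L L) (ZR L (XL (ZR L (XL (ZR L L) L)) L))) (Z (ZL (ZL L L) (XR L L)) (XR (ZR (ZL (XL L L) L) L) (ZR L (ZR L (ZR L (ZR L L))))))) (XR (Z (XL (ZL (ZL L L) (ZR (ZL (ZL L L) L) L)) (ZL L (XR (ZR (ZL L L) L) (ZR L (ZR L L))))) (ZR L (ZR L (ZR L L)))) (Z (ZL L (XR (ZR L (ZR L (ZR L L))) L)) (XR (ZR L L) (ZR L (XR L (ZR L (XR L L))))))))⟩] = true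

def gB_0_24 : Prop := grp 209 36301752348203865600 7 0 32 1 0 1 24 32 dB
    [⟨2, 16, 12, 13, 89, (X (XL (Z (ZL (XL (ZL (ZL L L) L) (ZL L (ZR L (XR L L)))) L) (ZR L L)) (Z (ZL (XR (ZL L L) (ZL L (ZR L L))) L) L)) (Z (ZL (ZL L (ZR L L)) L) (ZR L L)))⟩,
     ⟨2, 16, 13, 14, 109, (X (Z (XL (ZL (ZL (XL (ZL (ZL (XL L (ZL L L)) L) L) L) L) L) (ZL (ZL (XR L L) L) L)) (ZR L L)) (Z (ZL (ZL L L) L) (ZR L L)))⟩,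
     ⟨2, 16, 14, 15, 97, (X (Z (ZL (XL (ZL (XL (ZL (ZL (ZL L L) L) L) (XR L L)) L) (ZL L L)) L) L) (Z (ZL L L) (ZR L L)))⟩,
     ⟨1, 32, 30, 31, 57, (X (Z (XL (XL L (ZL L L)) (ZL L L)) L) (Z L (ZR L (ZR L L))))⟩,
     ⟨1, 32, 31, 32, 99, (X (XL (Z (ZL (XL (ZL (ZL (ZL (XL L L) L) L) L) (ZL (ZL L L) (XR L (ZR L L)))) L) L) (Z (XR (ZL L L) L) (ZR L (ZR L (ZR L (ZR L L)))))) (XR (XL (Z L (ZR (ZL L L) (ZR L (ZR L (XL L (ZR L L)))))) (Z L (ZR L (ZR (XR (ZL L L) (ZL L L)) (ZR L (ZR L L)))))) (Z L (ZR L (ZR L (XR L (ZR L (XR (ZR L L) L))))))))⟩] = true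

theorem run3 : gA_30_0 ∧ gA_20_16 ∧ gA_26_16 ∧ gA_28_16 ∧ gA_0_24 ∧ gB_0_24 :=
  ⟨by unfold gA_30_0; decide +kernel,
   by unfold gA_20_16; decide +kernel,
   by unfold gA_26_16; decide +kernel,
   by unfold gA_28_16; decide +kernel,
   by unfold gA_0_24; decide +kernel,
   by unfold gB_0_24; decide +kernel⟩

end Pool.Agent.MP_8fe08c_co.h82
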