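import Pool.Agent.MP_8fe08c_co.h82.Tree
import Pool.Agent.MP_8fe08c_co.h82.DatA
import Pool.Agent.MP_8fe08c_co.h82.DatP
import Pool.Agent.MP_8fe08c_co.h82.Run0

set_option autoImplicit false

namespace Pool.Agent.MP_8fe08c_co.h82

open Tr

def gA_8_16 : Prop := grp 245 5448266908646675097600 8 9 4 8 2 3 16 28 dA
    [⟨4, 8, 4, 5, 109, (X (Z (XL (ZL L L) (ZL (XR L (ZL L L)) L)) (ZR L L)) (XR (Z (ZL L (XL (ZR L (XL L L)) L)) (ZR (XL (ZL L L) (ZL L L)) (ZR L (ZR L L)))) (Z (XR L (ZL (XR L (ZL L L)) L)) (ZR L (ZR L (ZR L (XR (ZR L L) (ZR L (XR L (ZR L L))))))))))⟩,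
     ⟨4, 8, 5, 6, 111, (X (XL (Z (ZL (ZL L L) L) L) (Z (ZL (XR (ZL L L) (XR (ZL (ZL L L) L) (ZL L L))) L) L)) (XR (Z (ZL L (XL (XL (ZR L L) (ZR L L)) (ZR L L))) (XL L (ZR (ZL L L) L))) (Z (ZL (ZL L L) L) (ZR (ZL L L) (XR L (XR (ZR (ZL L L) L) (ZR (XR (ZL L L) L) (ZR (XR L (ZL L L)) (ZR L L)))))))))⟩,
     ⟨2, 16, 12, 13, 89, (X (XL (XL (Z (ZL (ZL L L) L) L) (Z (ZL (ZL L L) L) L)) (Z (ZL (XR (ZL L L) (ZL L (ZR L L))) L) L)) (XR (Z (ZL L (XL (ZR (XL L L) L) (XR L L))) (XL L (ZR (ZL (XR L (ZL L L)) L) L))) (Z (ZL (ZL (ZL L L) L) L) (ZR (ZL L L) L))))⟩,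
     ⟨2, 16, 13, 14, 89, (X (XL (XL (Z (ZL (ZL L L) L) L) (Z (ZL (ZL (XR (ZL L L) L) L) L) L)) (Z (ZL (XR (ZL L L) (ZL L L)) L) L)) (XR (Z (ZL L (XL (ZR (ZL L L) L) L)) (XL L (ZR (XR L (ZL L L)) L))) (Z (ZL (ZL (XR L (ZL L L)) L) L) (ZR (ZL L L) (XR L L)))))⟩] = true

def gA_24_16 : Prop := grp 253 5448266908646675097600 8 9 2 16 12 13 16 28 dA
    [⟨4, 8, 4, 5, 99, (X (XL (Z (ZL (XL L L) L) (ZR L L)) (Z (ZL (ZL (XR (XL L (ZL (ZL L L) L)) L) L) (XR (ZR L L) (ZR L L))) (ZR (ZL (XR L L) L) L))) (Z (ZL (XR L (XR L (ZL L L))) L) (XR (ZR L L) (ZR (ZL L L) L))))⟩,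
     ⟨4, 8, 5, 6, 89, (X (XL (Z (ZL (ZL L L) L) (ZR L L)) (Z (ZL (ZL L L) L) (XR (ZR (ZL (ZL L L) L) L) (ZR (XR (ZL (ZL L L) L) (ZL L L)) L)))) (Z (XR L (ZL (ZL (ZL L L) L) L)) (ZR L (XR (ZR L L) (XR L L)))))⟩,
     ⟨2, 16, 12, 13, 89, (X (XL (Z (ZL (XL (ZL (ZL L (XL L L)) L) (ZL L L)) L) L) (Z (ZL L L) (XR (ZR L L) (ZR (ZL L (XR L L)) (XR L (ZR (ZL L L) L)))))) (Z (ZL L L) (ZR L (XR (XL (ZR (XL (ZL L L) L) L) (ZR L L)) (ZR L (XR L (XR L (ZR L L))))))))⟩,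
     ⟨2, 16, 13, 14, 99, (X (XL (Z (ZL (XL (XL (ZL (ZL L (ZR L L)) L) (ZL L L)) (ZL L L)) L) L) (Z (ZL L L) (XR L (ZR L (ZR L L))))) (Z L (ZR L (XR (XL (ZR (XL (ZL L L) L) L) (ZR L L)) (ZR L (XR L (XR L (ZR L L))))))))⟩] = true

def gA_8_28 : Prop := grp 253 5448266908646675097600 8 9 4 8 2 3 28 32 dA
    [⟨2, 16, 14, 15, 89, (X (Z (XL (ZL (XL (ZL L L) (ZL (XR L L) L)) L) (XR (ZL (ZL L L) L) (ZL (ZL L L) L))) (ZR L L)) (XR (Z (ZL L L) (ZR L (ZR L (XL (XL L L) L)))) (Z (ZL (XR (ZL L L) (ZL (ZL L (XR L L)) L)) L) (ZR L (ZR L (ZR L L))))))⟩,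
     ⟨1, 32, 30, 31, 77, (X (XL (Z (ZL (ZL L L) L) L) (Z (ZL (ZL (XR (ZL L L) L) L) (ZR L L)) (ZR L (ZR L L)))) (XR (Z (ZL L L) (ZR L (ZR L L))) (Z (ZL (XR L (ZL (ZL L L) L)) L) (ZR L (XR (ZR L L) (ZR L (ZR L L)))))))⟩,
     ⟨1, 32, 31, 32, 99, (X (XL (XL (Z (ZL (ZL L (ZR (XL L L) L)) L) L) (Z (ZL L (XR L L)) (ZR L L))) (XR (Z (ZL (ZL (XL L L) L) L) (ZR (ZL L L) (ZR L (ZR L L)))) (Z (ZL (ZL L L) (ZR L L)) (ZR (ZL (ZL L L) L) (ZR (ZL L L) L))))) (XR (Z (ZL L (ZR L (ZR L L))) (ZR L (ZR L (ZR L L)))) (Z (ZL (ZL (ZL L L) L) (ZR L L)) (XR (ZR L (ZR L (ZR L (ZR L L)))) (ZR L (XR (ZR L (ZR L (ZR L L))) (ZR L (ZR L L))))))))⟩] = true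

def gA_26_0 : Prop := grp 248 5448266908646675097600 8 9 2 16 13 14 0 16 dA
    [⟨4, 8, 0, 1, 99, (X (XL (Z (ZL L L) (ZR L (XL L L))) (Z (ZL L L) (ZR L (XR L (ZR L (ZR L (XR L (ZR L L)))))))) (Z (XR (ZL L L) (ZL (XR L (ZL (ZL L L) L)) L)) (ZR L (ZR L L))))⟩,
     ⟨4, 8, 1, 2, 101, (X (XL (Z (ZL L L) (ZR L L)) (Z (XR (ZL (ZL L L) (ZR (XL L (ZL L L)) L)) (ZL (ZL L L) L)) L)) (Z (XR (XL (ZL L L) L) (XR L (ZL (ZL (XR L (ZL L (XR L L))) L) (ZR L (ZR L L))))) L))⟩,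
     ⟨4, 8, 2, 3, 79, (X (XL (Z (ZL (ZL L L) L) (ZR L (ZR L L))) (Z (XR (ZL (XL (ZL L L) (ZL L L)) (ZR (ZL L L) L)) (ZL (ZL L L) (ZR L L))) L)) (Z (XR (ZL L L) (XR L (ZL (ZL (ZL L L) L) L))) L))⟩,
     ⟨4, 8, 3, 4, 91, (X (XL (Z (ZL (XL (XL (XL (ZL L L) L) L) L) (ZR L L)) (ZR L L)) (Z (ZL (ZL (XR L L) L) (XR (ZR L (ZR L L)) (ZR L L))) L)) (Z (XR L (ZL (ZL L L) L)) L))⟩] = true

def gP_16_0 : Prop := grp 224 8396518257931331404800 8 9 4 8 4 5 0 16 dP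
    [⟨4, 8, 0, 1, 87, (X (Z (ZL (ZL (ZL L L) L) L) (XL (ZR (ZL L L) (ZR L (ZR L (XL L (ZR L L))))) (ZR (XR (ZL L L) L) (ZR L (ZR L L))))) (XR (Z L (ZR (XL L L) (ZR (XL L L) (ZR L L)))) (Z (ZL L L) (XR (ZR L L) (ZR (ZL L L) (ZR (ZL L L) L))))))⟩,
     ⟨4, 8, 1, 2, 89, (X (Z L (ZR L (ZR L (XL (XL L (ZR L (ZR L L))) (XR L (XR L (ZR L L))))))) (Z (ZL (ZL L L) L) (ZR (ZL L L) (ZR L (ZR L L)))))⟩,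
     ⟨4, 8, 2, 3, 33, (Z (X (ZL L L) (ZL L L)) (ZR L (X L L)))⟩,
     ⟨4, 8, 3, 4, 45, (Z (ZL (X L L) L) (ZR L (X L (XR L L))))⟩] = true

def gP_28_0 : Prop := grp 230 8396518257931331404800 8 9 4 8 7 8 0 4 dP
    [⟨4, 8, 0, 1, 89, (X (XL (Z (ZL (ZL (XL (XL L L) L) (ZR L L)) (XL (XL (ZR (ZL L L) L) L) L)) (XL (ZR (ZL (XL L L) L) (ZR (ZL L L) (ZR L (XL L L)))) (ZR L (ZR L (ZR L L))))) (XR (Z (XL (ZL L L) (ZL (ZL L L) L)) (ZR L (ZR L L))) (Z (ZL (XR (ZL L L) L) L) (ZR L (ZR L (XR L L)))))) (XR (XL (Z (ZL (ZL L (ZR L L)) (XL L (ZR L L))) (ZR (XL L L) L)) (Z (ZL (ZL (ZL L L) (ZR L L)) (ZR L L)) (ZR L L))) (Z (ZL (ZL (ZL L L) L) (ZR (ZL L L) L)) (XR (ZR L L) (ZR (ZL (ZL L L) L) (ZR L L))))))⟩] = true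

theorem run4 : gA_8_16 ∧ gA_24_16 ∧ gA_8_28 ∧ gA_26_0 ∧ gP_16_0 ∧ gP_28_0 :=
  ⟨by unfold gA_8_16; decide +kernel,
   by unfold gA_24_16; decide +kernel,
   by unfold gA_8_28; decide +kernel,
   by unfold gA_26_0; decide +kernel,
   by unfold gP_16_0; decide +kernel,
   by unfold gP_28_0; decide +kernel⟩

end Pool.Agent.MP_8fe08c_co.h82
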