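import Pool.Agent.MP_8fe08c_co.h82.Tree
import Pool.Agent.MP_8fe08c_co.h82.DatA
import Pool.Agent.MP_8fe08c_co.h82.DatP
import Pool.Agent.MP_8fe08c_co.h82.Run2

set_option autoImplicit false

namespace Pool.Agent.MP_8fe08c_co.h82

open Tr

def gA_4_0 : Prop := grp 267 5448266908646675097600 8 9 4 8 1 2 0 20 dA
    [⟨4, 8, 0, 1, 77, (X (XL (Z (XL L (ZL L (ZR L (ZR L L)))) (ZR (XL L (ZL (ZL L L) L)) (ZR L (XL (ZR L L) (ZR L L))))) (Z (ZL L (ZR L L)) (ZR L (ZR L (ZR L L))))) (Z (ZL (XR (ZL L L) (XR L (ZL L L))) L) (ZR L L)))⟩,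
     ⟨4, 8, 1, 2, 67, (X (Z (ZL L L) (ZR L (ZR L (XL L L)))) (Z (ZL (XR L L) L) (XR (ZR L (XL (ZR L L) L)) (ZR L L))))⟩,
     ⟨4, 8, 2, 3, 131, (X (Z L (XL (ZR L L) (ZR L L))) (XR (Z L (XL (ZR L (XL (ZR L L) (ZR L L))) (ZR (ZL L (ZR L L)) L))) (Z (ZL L L) (ZR (ZL L L) (ZR L (XR L (ZR L (ZR L (XR L (XR (ZR L L) (ZR L (ZR L L))))))))))))⟩,
     ⟨4, 8, 3, 4, 99, (X (Z L (XL (XL (XL (ZR (ZL L (ZR L (ZR L L))) L) (ZR L L)) (ZR L L)) (ZR L L))) (XR (Z (ZL L (XL L L)) (ZR (XL (ZL L L) (ZL (ZL L L) L)) L)) (Z (XR L (ZL (XR L (ZL L L)) L)) (ZR L (ZR L (ZR L (XR L (ZR L L))))))))⟩,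
     ⟨4, 8, 4, 5, 103, (X (Z (ZL L L) (XL (ZR L (XL L L)) L)) (XR (Z (ZL L (XL (ZR L (ZR L L)) (ZR L (ZR L L)))) (ZR (ZL (XL L (ZL L L)) L) L)) (Z (XR L (ZL (XR L (XR L (ZL L (XR L L)))) L)) (ZR L L))))⟩] = true

def gA_0_0 : Prop := grp 257 5448266908646675097600 8 9 4 8 0 1 0 12 dA
    [⟨4, 8, 0, 1, 103, (X (Z (XL (ZL L L) (ZL L L)) (ZR L (XL (ZR L L) (ZR L L)))) (Z (ZL (XR (XL (ZL L (ZR L (XL L L))) (ZL L L)) (XR L (XR L (XR L (ZL (XR L L) (ZR L L)))))) L) (XR (XL (ZR (ZL L (XL L L)) (XL (ZR L L) (ZR (ZL L L) (ZR L L)))) (ZR L (ZR L (ZR L (XR (ZR L L) L))))) (ZR L (ZR L (XR L (XR L (XR L (XR L L)))))))))⟩,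
     ⟨4, 8, 1, 2, 111, (X (Z (XL (XL L L) (ZL L L)) (ZR (ZL L L) (XL (ZR L (XL (ZR L L) (ZR L L))) (ZR (XR L (ZL L (ZR L L))) (ZR L L))))) (XR (Z (ZL (XL L (XR L L)) L) (XL (ZR (ZL L (ZR L L)) (XL (ZR (ZL L L) (ZR L L)) (ZR L (ZR L L)))) (ZR (ZL L (ZR L (ZR L L))) (ZR L (ZR (XR L L) L))))) (Z (ZL (ZL L L) L) (ZR (ZL L L) (ZR L (XR (ZR (XL L L) L) (XR (ZR L L) (ZR L (ZR (XR L L) L)))))))))⟩,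
     ⟨4, 8, 2, 3, 119, (X (Z L (XL (XL (ZR L (ZR L (ZR L L))) (ZR L (ZR L (ZR L L)))) (ZR (ZL L L) (ZR L L)))) (Z (ZL (ZL L L) (XR L L)) (XR (ZR (ZL (ZL L (XL (XL L L) (XR L L))) (XL (XL L L) (XR L L))) (XL L L)) (ZR (ZL L L) (XR L (XR L (ZR L (ZR L (ZR L (ZR L (ZR L L)))))))))))⟩] = true

def gA_24_0 : Prop := grp 246 5448266908646675097600 8 9 2 16 12 13 0 16 dA
    [⟨4, 8, 0, 1, 99, (X (Z (ZL L L) (ZR L (XL (XL L L) (ZR L (XR L (ZR L (XR (ZR L L) (ZR L L)))))))) (Z (XR (ZL L L) (ZL (XR L (ZL (ZL (ZL L L) L) L)) L)) (ZR L (ZR L L))))⟩,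
     ⟨4, 8, 1, 2, 89, (X (XL (Z (ZL L L) (ZR L L)) (Z (XR (ZL (ZL L L) L) (ZL (ZL L L) L)) L)) (Z (XR (XL L L) (XR (ZL L (ZR L L)) (ZL (XR L (ZL (ZL L L) L)) (ZR L L)))) L))⟩,
     ⟨4, 8, 2, 3, 77, (X (XL (Z (ZL L L) (XL (ZR L (ZR L L)) (ZR L L))) (Z (ZL (XR (ZL (ZL L L) L) (ZL L L)) (ZR (XR L L) L)) L)) (Z (XR (ZL L L) (XR (ZL L L) (ZL (ZL (ZL L L) L) L))) L))⟩,
     ⟨4, 8, 3, 4, 97, (X (XL (Z (ZL (XL (ZL L L) (ZL L L)) L) (ZR L L)) (Z (XR (ZL (ZL (ZL (ZL (ZL L L) L) L) L) (ZR L (ZR L L))) (ZL (ZL L L) (ZR (ZL L L) L))) L)) (Z (XR (ZL (ZL (ZL L L) L) L) (ZL (XR L (ZL L L)) L)) L))⟩] = true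

def gA_16_20 : Prop := grp 234 5448266908646675097600 8 9 4 8 4 5 20 28 dA
    [⟨4, 8, 5, 6, 87, (X (XL (Z (ZL (ZL (ZL (ZL L L) (XL (ZR L L) L)) L) (XL (ZR L L) L)) (XL L L)) (Z (ZL (ZL (ZL (XR (ZL L L) L) L) L) L) (XR L (ZR (ZL L L) L)))) (XR (XL (Z (ZL L L) (ZR L (XL L (ZR L L)))) (Z (ZL L L) (ZR L (ZR (XR L L) L)))) (Z (ZL (XR L (ZL (ZL (ZL L L) L) L)) L) (ZR L (XR L (ZR L (ZR L L)))))))⟩,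
     ⟨2, 16, 12, 13, 87, (X (XL (Z (ZL (ZL (ZL L L) L) (XL (XL (XL L L) L) L)) (XL (XL (ZR (XL L L) L) L) L)) (Z (ZL (ZL (ZL (XR L L) L) L) L) L)) (Z (ZL (XR L (XR L (ZL L L))) L) (ZR L (XR L (XR L (ZR L (ZR L (ZR L L))))))))⟩,
     ⟨2, 16, 13, 14, 91, (X (XL (Z (ZL (ZL L L) (XL (XL L L) L)) (XL (XL (ZR (XL (ZL L L) L) L) L) L)) (Z (ZL (ZL (ZL L L) L) L) (ZR L L))) (Z (XR (ZL L L) (ZL (ZL (ZL L L) L) L)) (ZR L (ZR L (XR L (XR L (XR L (ZR L L))))))))⟩] = true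

def gP_0_8 : Prop := grp 236 8396518257931331404800 8 9 4 8 0 1 8 16 dP
    [⟨4, 8, 2, 3, 89, (X (XL (Z (ZL (ZL L (XL (ZR L L) L)) L) (ZR (XL (ZL L (ZR L (ZR L L))) L) L)) (Z (ZL L L) L)) (XR (Z (ZL L (XL L (ZR L (ZR L (XR L L))))) (ZR (XL L (XR (ZL L L) (ZL (ZL L L) L))) (ZR (XL (ZL L L) (ZL L L)) L))) (Z (ZL (XR L (XR (ZL L L) (ZL L (ZR L L)))) L) (XR (ZR (ZL (ZL L L) L) L) (ZR L (XR (ZR L L) (ZR (ZL L L) L)))))))⟩,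
     ⟨4, 8, 3, 4, 99, (X (XL (Z (ZL (ZL L (ZR L (XL L L))) L) (XL (XL (ZR (ZL L (ZR L L)) (ZR (ZL L L) L)) (ZR L L)) (ZR L L))) (Z (ZL L L) L)) (XR (XL (Z L (ZR L (ZR (ZL L L) L))) (Z (ZL L (XR L L)) (ZR (ZL (ZL L L) L) (ZR L L)))) (Z (ZL (XR L (XR (ZL L L) (ZL L (ZR (ZL L L) L)))) (ZR L L)) (ZR (ZL (XR (ZL L (ZR L L)) L) (ZR L L)) (XR L (XR L L))))))⟩] = true

theorem run6 : gA_4_0 ∧ gA_0_0 ∧ gA_24_0 ∧ gA_16_20 ∧ gP_0_8 :=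
  ⟨by unfold gA_4_0; decide +kernel,
   by unfold gA_0_0; decide +kernel,
   by unfold gA_24_0; decide +kernel,
   by unfold gA_16_20; decide +kernel,
   by unfold gP_0_8; decide +kernel⟩

end Pool.Agent.MP_8fe08c_co.h82
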