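import Pool.Agent.MP_8fe08c_co.h82.Tree
import Pool.Agent.MP_8fe08c_co.h82.DatA
import Pool.Agent.MP_8fe08c_co.h82.DatP
import Pool.Agent.MP_8fe08c_co.h82.Run3

set_option autoImplicit false

namespace Pool.Agent.MP_8fe08c_co.h82

open Tr

def gA_20_26 : Prop := grp 263 5448266908646675097600 8 9 4 8 5 6 26 32 dA
    [⟨2, 16, 13, 14, 119, (X (XL (Z (ZL (XL (ZL L L) (ZL L L)) L) L) (Z (ZL (ZL L L) L) (ZR L (ZR L L)))) (Z (ZL L L) (ZR L (XR (ZR (ZL L L) L) (ZR L (XR L (XR L (ZR L (ZR L (ZR L (ZR L L)))))))))))⟩,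
     ⟨2, 16, 14, 15, 111, (X (XL (Z (ZL (XL (ZL L L) L) L) L) (Z (ZL L L) (ZR L L))) (Z L (ZR L (XR (ZR L (ZR L L)) (ZR L (XR L (ZR L (XR L (ZR (XR L L) L)))))))))⟩,
     ⟨1, 32, 30, 31, 99, (X (XL (Z (ZL (XL L (ZL L L)) L) L) (Z (ZL (ZL (ZL L L) L) L) (ZR L L))) (Z (ZL L L) (ZR L (XR (ZR L (ZR L (XL (ZR L L) L))) (ZR L (XR L (XR L (ZR L (ZR L L)))))))))⟩,
     ⟨1, 32, 31, 32, 109, (X (XL (XL (Z (ZL (ZL L (XL (ZR L L) L)) (XL L L)) (XL (ZR L L) (ZR (ZL L L) (ZR L L)))) (Z (ZL L L) (XR (ZR L L) L))) (XR (Z (ZL (ZL L L) (XL (ZR L L) L)) (ZR (XL L L) (ZR (XL L L) L))) (Z (ZL (ZL L L) L) (ZR L (ZR L (XR L (ZR L (ZR L L)))))))) (Z (XR (ZL (ZL (ZL (XL L L) L) L) L) (ZL (ZL L L) L)) (ZR (ZL L L) (ZR (ZL L (XR (XL L L) L)) (XR (ZR L (XL (XL (ZR L L) (ZR L (ZR L L))) (ZR L L))) (XR L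 (ZR L (ZR L L))))))))⟩] = true

def gA_16_0 : Prop := grp 241 5448266908646675097600 8 9 4 8 4 5 0 20 dA
    [⟨4, 8, 0, 1, 89, (X (Z (ZL L L) (XL (ZR L (ZR L (ZR L L))) (ZR L (ZR L (XR L (ZR L L)))))) (Z (XR L (ZL (XR L (XR L (ZL (ZL L L) L))) L)) (ZR L (ZR L L))))⟩,
     ⟨4, 8, 1, 2, 75, (X (XL (Z (ZL (ZL (ZL (ZL L L) L) L) L) (ZR L (ZR L L))) (Z (ZL (ZL L L) L) L)) (Z (XR L (ZL L L)) (ZR L L)))⟩,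
     ⟨4, 8, 2, 3, 67, (X (XL (Z (ZL (ZL L L) L) (XL (ZR L L) (ZR L L))) (Z (ZL (XR (ZL L L) (ZL L L)) L) L)) (XR (Z L L) (Z (ZL L L) L)))⟩,
     ⟨4, 8, 3, 4, 89, (X (XL (Z (ZL (ZL L L) L) (ZR L L)) (Z (XR (ZL (ZL L L) L) (XR (ZL (ZL (ZL L L) L) (ZR L L)) (ZL (ZL L L) L))) L)) (Z (XR (ZL L L) (ZL (ZL L L) L)) (ZR L (XR L (XR L (ZR L L))))))⟩,
     ⟨4, 8, 4, 5, 109, (X (XL (Z (ZL (ZL (ZL L (XL (ZR L L) L)) L) L) (ZR L L)) (XR (Z (ZL (ZL (ZL L L) L) L) L) (Z (XR (ZL (ZL L L) L) (ZL (ZL L L) L)) (ZR (ZL L L) L)))) (XR (Z (ZL L (ZR (ZL L L) L)) (XL (ZR (XL L L) L) (ZR (XR L L) (ZR L L)))) (Z (ZL (ZL (ZL L L) L) L) (ZR L (ZR L (XR L (ZR L (XR L (ZR L (ZR L L))))))))))⟩] = true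

def gA_16_28 : Prop := grp 261 5448266908646675097600 8 9 4 8 4 5 28 32 dA
    [⟨2, 16, 14, 15, 99, (X (XL (Z (ZL (XL L (ZL L L)) L) (XL L L)) (Z (ZL (XR (ZL (XL L L) L) L) L) (ZR L L))) (Z (XR L (ZL L L)) (ZR L (XR (ZR L (ZR L L)) (XR (ZR L (ZR L L)) (ZR L (ZR L (ZR (XR L L) L))))))))⟩,
     ⟨1, 32, 30, 31, 99, (X (XL (Z (ZL (ZL L L) L) (XL (XL L L) L)) (Z (XR (ZL (ZL (XL (ZL L L) L) L) L) L) (ZR L (ZR L L)))) (Z (ZL L L) (ZR L (XR (ZR L (XL (ZR L (ZR (XL L L) L)) (ZR L L))) (XR (ZR L L) (ZR L (ZR L L)))))))⟩,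
     ⟨1, 32, 31, 32, 109, (X (XL (XL (Z (ZL (ZL L (ZR (XL L L) L)) (XL L L)) (XL L (ZR L L))) (Z (ZL (ZL L L) L) (XR (ZR L L) L))) (XR (Z (ZL (XL (ZL L L) L) L) (XL (ZR L L) (ZR L (ZR L L)))) (Z L (ZR L (ZR L (XR L (ZR L (ZR L L)))))))) (XR (Z L (ZR (ZL (XL (XL L (ZL L L)) L) L) (ZR (XL (ZL L L) L) (ZR L (XL (XL (ZR L (ZR L L)) (ZR L L)) L))))) (Z L (ZR L (XR (ZR L L) (ZR L (XR L (XR L L))))))))⟩] = true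

def gP_28_4 : Prop := grp 231 8396518257931331404800 8 9 4 8 7 8 4 16 dP
    [⟨4, 8, 1, 2, 91, (X (XL (Z (ZL (XL (XL (XL (ZL L L) L) L) L) L) (ZR (XL L L) (ZR (XL (ZL L L) (XR L L)) L))) (Z (XR (XL (ZL L (ZR L L)) (ZL (ZL L L) L)) (ZL (ZL L L) L)) (ZR (XR (ZL L L) L) L))) (Z (ZL (ZL (XR L (ZL L L)) L) (ZR L L)) (XR (XL L L) (ZR L (XR L (XR (ZR L L) (ZR L (ZR L L))))))))⟩,
     ⟨4, 8, 2, 3, 81, (X (XL (XL (Z (XL (ZL (XL L L) L) L) (ZR (ZL L L) L)) (Z L (ZR L L))) (XR (Z (XL (ZL L (ZR L L)) (ZL L L)) L) (Z (ZL L L) (XR L (ZR L L))))) (Z (ZL L (ZR L (XR (XL L L) L))) (XR (ZR (XL L L) L) (ZR L L))))⟩,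
     ⟨4, 8, 3, 4, 89, (X (XL (Z (ZL L (ZR L L)) (ZR (ZL (ZL L L) L) (XL (XL L L) L))) (XR (Z (ZL L (XL (ZR L L) L)) (ZR (ZL L L) L)) (Z L (ZR L (XR L (ZR L (ZR L L))))))) (Z (XR (ZL L L) (ZL L L)) (ZR (XR L L) (ZR (XR L (XR L L)) L))))⟩] = true

def gP_8_0 : Prop := grp 225 8396518257931331404800 8 9 4 8 2 3 0 16 dP
    [⟨4, 8, 0, 1, 87, (X (Z (ZL (XL (ZL L (ZR L L)) L) (ZR (XL L L) L)) (ZR L (XL (ZR L (ZR L (ZR L (XL L L)))) (ZR L (XR L (ZR L L)))))) (XR (Z (ZL L L) (ZR L (ZR (XL L L) L))) (Z (ZL (XR L L) (ZR L L)) (XR L (ZR L (ZR L (ZR L L)))))))⟩,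
     ⟨4, 8, 1, 2, 67, (X (Z (XL L L) (ZR L (XL (XL L (ZR L L)) L))) (Z (ZL L L) (ZR L L)))⟩,
     ⟨4, 8, 2, 3, 53, (X (Z (ZL L L) (ZR (ZL L (ZR L L)) L)) (Z (ZL L (ZR L L)) L))⟩,
     ⟨4, 8, 3, 4, 65, (X (Z (ZL L L) (XL (ZR (ZL L (ZR L L)) (ZR L L)) L)) (Z (ZL L L) L))⟩] = true

def gP_4_0 : Prop := grp 226 8396518257931331404800 8 9 4 8 1 2 0 16 dP
    [⟨4, 8, 0, 1, 87, (X (Z (XL (ZL (XL (ZL L (ZR L L)) L) L) (ZL (XR L L) (ZR L L))) (ZR L (ZR L (XL (ZR L (ZR L (XL L L))) L)))) (XR (Z (ZL L L) (ZR L (XL (ZR L (ZR L L)) L))) (XR (Z (XL L L) (ZR L L)) (Z (ZL L (ZR L L)) (ZR (ZL L L) (ZR L L))))))⟩,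
     ⟨4, 8, 1, 2, 43, (X (Z (XL L L) (ZR (ZL L L) L)) (Z (ZL L L) L))⟩,
     ⟨4, 8, 2, 3, 43, (X (Z (ZL L L) (ZR (ZL L L) L)) (Z (ZL L L) L))⟩,
     ⟨4, 8, 3, 4, 55, (X (Z (ZL (ZL L (ZR L L)) L) (XL (ZR (ZL L L) (ZR L L)) L)) (Z (ZL L (ZR L L)) L))⟩] = true

theorem run7 : gA_20_26 ∧ gA_16_0 ∧ gA_16_28 ∧ gP_28_4 ∧ gP_8_0 ∧ gP_4_0 :=
  ⟨by unfold gA_20_26; decide +kernel,
   by unfold gA_16_0; decide +kernel,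
   by unfold gA_16_28; decide +kernel,
   by unfold gP_28_4; decide +kernel,
   by unfold gP_8_0; decide +kernel,
   by unfold gP_4_0; decide +kernel⟩

end Pool.Agent.MP_8fe08c_co.h82
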