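import Pool.Agent.MP_8fe08c_co.h82.Run0
import Pool.Agent.MP_8fe08c_co.h82.Run1
import Pool.Agent.MP_8fe08c_co.h82.Run2
import Pool.Agent.MP_8fe08c_co.h82.Run3
import Pool.Agent.MP_8fe08c_co.h82.Run4
import Pool.Agent.MP_8fe08c_co.h82.Run5
import Pool.Agent.MP_8fe08c_co.h82.Run6
import Pool.Agent.MP_8fe08c_co.h82.Run7
import Pool.Agent.MP_8fe08c_co.h82.LnkA
import Pool.Agent.MP_8fe08c_co.h82.LnkP
import Pool.Agent.MP_8fe08c_co.h82.LnkB

set_option autoImplicit false

namespace Pool.Agent.MP_8fe08c_co.h82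

theorem posA : Pos 8 9 (nA 1000000000 1608000000 wD XD sqD) 0 32 0 32 :=
  have L := link_sound linkA
  have kgA_0_0 : Pos 8 9 (nA 1000000000 1608000000 wD XD sqD) 0 12 0 4 :=
    grp_sound (g := 4) (c := 0) (c' := 1) L (by have h := run6.2.1; unfold gA_0_0 at h; exact h)
  have kgA_0_12 : Pos 8 9 (nA 1000000000 1608000000 wD XD sqD) 12 24 0 4 :=
    grp_sound (g := 4) (c := 0) (c' := 1) L (by have h := run0.2.1; unfold gA_0_12 at h; exact h)
  have kgA_0_24 : Pos 8 9 (nA 1000000000 1608000000 wD XD sqD) 24 28 0 4 :=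
    grp_sound (g := 4) (c := 0) (c' := 1) L (by have h := run3.2.2.2.2.1; unfold gA_0_24 at h; exact h)
  have kgA_0_28 : Pos 8 9 (nA 1000000000 1608000000 wD XD sqD) 28 32 0 4 :=
    grp_sound (g := 4) (c := 0) (c' := 1) L (by have h := run5.1; unfold gA_0_28 at h; exact h)
  have kgA_4_0 : Pos 8 9 (nA 1000000000 1608000000 wD XD sqD) 0 20 4 8 :=
    grp_sound (g := 4) (c := 1) (c' := 2) L (by have h := run6.1; unfold gA_4_0 at h; exact h)
  have kgA_4_20 : Pos 8 9 (nA 1000000000 1608000000 wD XD sqD) 20 28 4 8 :=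
    grp_sound (g := 4) (c := 1) (c' := 2) L (by have h := run0.2.2.2.1; unfold gA_4_20 at h; exact h)
  have kgA_4_28 : Pos 8 9 (nA 1000000000 1608000000 wD XD sqD) 28 32 4 8 :=
    grp_sound (g := 4) (c := 1) (c' := 2) L (by have h := run5.2.1; unfold gA_4_28 at h; exact h)
  have kgA_8_0 : Pos 8 9 (nA 1000000000 1608000000 wD XD sqD) 0 16 8 12 :=
    grp_sound (g := 4) (c := 2) (c' := 3) L (by have h := run1.2.2.1; unfold gA_8_0 at h; exact h)
  have kgA_8_16 : Pos 8 9 (nA 1000000000 1608000000 wD XD sqD) 16 28 8 12 :=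
    grp_sound (g := 4) (c := 2) (c' := 3) L (by have h := run4.1; unfold gA_8_16 at h; exact h)
  have kgA_8_28 : Pos 8 9 (nA 1000000000 1608000000 wD XD sqD) 28 32 8 12 :=
    grp_sound (g := 4) (c := 2) (c' := 3) L (by have h := run4.2.2.1; unfold gA_8_28 at h; exact h)
  have kgA_12_0 : Pos 8 9 (nA 1000000000 1608000000 wD XD sqD) 0 20 12 16 :=
    grp_sound (g := 4) (c := 3) (c' := 4) L (by have h := run1.1; unfold gA_12_0 at h; exact h)
  have kgA_12_20 : Pos 8 9 (nA 1000000000 1608000000 wD XD sqD) 20 28 12 16 :=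
    grp_sound (g := 4) (c := 3) (c' := 4) L (by have h := run1.2.2.2.1; unfold gA_12_20 at h; exact h)
  have kgA_12_28 : Pos 8 9 (nA 1000000000 1608000000 wD XD sqD) 28 32 12 16 :=
    grp_sound (g := 4) (c := 3) (c' := 4) L (by have h := run2.2.2.1; unfold gA_12_28 at h; exact h)
  have kgA_16_0 : Pos 8 9 (nA 1000000000 1608000000 wD XD sqD) 0 20 16 20 :=
    grp_sound (g := 4) (c := 4) (c' := 5) L (by have h := run7.2.1; unfold gA_16_0 at h; exact h)
  have kgA_16_20 : Pos 8 9 (nA 1000000000 1608000000 wD XD sqD) 20 28 16 20 :=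
    grp_sound (g := 4) (c := 4) (c' := 5) L (by have h := run6.2.2.2.1; unfold gA_16_20 at h; exact h)
  have kgA_16_28 : Pos 8 9 (nA 1000000000 1608000000 wD XD sqD) 28 32 16 20 :=
    grp_sound (g := 4) (c := 4) (c' := 5) L (by have h := run7.2.2.1; unfold gA_16_28 at h; exact h)
  have kgA_20_0 : Pos 8 9 (nA 1000000000 1608000000 wD XD sqD) 0 16 20 24 :=
    grp_sound (g := 4) (c := 5) (c' := 6) L (by have h := run5.2.2.1; unfold gA_20_0 at h; exact h)
  have kgA_20_16 : Pos 8 9 (nA 1000000000 1608000000 wD XD sqD) 16 26 20 24 :=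
    grp_sound (g := 4) (c := 5) (c' := 6) L (by have h := run3.2.1; unfold gA_20_16 at h; exact h)
  have kgA_20_26 : Pos 8 9 (nA 1000000000 1608000000 wD XD sqD) 26 32 20 24 :=
    grp_sound (g := 4) (c := 5) (c' := 6) L (by have h := run7.1; unfold gA_20_26 at h; exact h)
  have kgA_24_0 : Pos 8 9 (nA 1000000000 1608000000 wD XD sqD) 0 16 24 26 :=
    grp_sound (g := 2) (c := 12) (c' := 13) L (by have h := run6.2.2.1; unfold gA_24_0 at h; exact h)
  have kgA_24_16 : Pos 8 9 (nA 1000000000 1608000000 wD XD sqD) 16 28 24 26 :=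
    grp_sound (g := 2) (c := 12) (c' := 13) L (by have h := run4.2.1; unfold gA_24_16 at h; exact h)
  have kgA_24_28 : Pos 8 9 (nA 1000000000 1608000000 wD XD sqD) 28 32 24 26 :=
    grp_sound (g := 2) (c := 12) (c' := 13) L (by have h := run5.2.2.2.1; unfold gA_24_28 at h; exact h)
  have kgA_26_0 : Pos 8 9 (nA 1000000000 1608000000 wD XD sqD) 0 16 26 28 :=
    grp_sound (g := 2) (c := 13) (c' := 14) L (by have h := run4.2.2.2.1; unfold gA_26_0 at h; exact h)
  have kgA_26_16 : Pos 8 9 (nA 1000000000 1608000000 wD XD sqD) 16 28 26 28 :=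
    grp_sound (g := 2) (c := 13) (c' := 14) L (by have h := run3.2.2.1; unfold gA_26_16 at h; exact h)
  have kgA_26_28 : Pos 8 9 (nA 1000000000 1608000000 wD XD sqD) 28 32 26 28 :=
    grp_sound (g := 2) (c := 13) (c' := 14) L (by have h := run2.2.2.2.1; unfold gA_26_28 at h; exact h)
  have kgA_28_0 : Pos 8 9 (nA 1000000000 1608000000 wD XD sqD) 0 16 28 30 :=
    grp_sound (g := 2) (c := 14) (c' := 15) L (by have h := run2.2.1; unfold gA_28_0 at h; exact h)
  have kgA_28_16 : Pos 8 9 (nA 1000000000 1608000000 wD XD sqD) 16 28 28 30 :=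
    grp_sound (g := 2) (c := 14) (c' := 15) L (by have h := run3.2.2.2.1; unfold gA_28_16 at h; exact h)
  have kgA_28_28 : Pos 8 9 (nA 1000000000 1608000000 wD XD sqD) 28 32 28 30 :=
    grp_sound (g := 2) (c := 14) (c' := 15) L (by have h := run0.2.2.1; unfold gA_28_28 at h; exact h)
  have kgA_30_0 : Pos 8 9 (nA 1000000000 1608000000 wD XD sqD) 0 20 30 31 :=
    grp_sound (g := 1) (c := 30) (c' := 31) L (by have h := run3.1; unfold gA_30_0 at h; exact h)
  have kgA_30_20 : Pos 8 9 (nA 1000000000 1608000000 wD XD sqD) 20 32 30 31 :=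
    grp_sound (g := 1) (c := 30) (c' := 31) L (by have h := run0.1; unfold gA_30_20 at h; exact h)
  have kgA_31_0 : Pos 8 9 (nA 1000000000 1608000000 wD XD sqD) 0 8 31 32 :=
    grp_sound (g := 1) (c := 31) (c' := 32) L (by have h := run5.2.2.2.2; unfold gA_31_0 at h; exact h)
  have kgA_31_8 : Pos 8 9 (nA 1000000000 1608000000 wD XD sqD) 8 26 31 32 :=
    grp_sound (g := 1) (c := 31) (c' := 32) L (by have h := run2.1; unfold gA_31_8 at h; exact h)
  have kgA_31_26 : Pos 8 9 (nA 1000000000 1608000000 wD XD sqD) 26 32 31 32 :=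
    grp_sound (g := 1) (c := 31) (c' := 32) L (by have h := run1.2.1; unfold gA_31_26 at h; exact h)
  (Pos.glueD (Pos.glueT kgA_0_0
    (Pos.glueT kgA_0_12
    (Pos.glueT kgA_0_24
    kgA_0_28)))
    (Pos.glueD (Pos.glueT kgA_4_0
    (Pos.glueT kgA_4_20
    kgA_4_28))
    (Pos.glueD (Pos.glueT kgA_8_0
    (Pos.glueT kgA_8_16
    kgA_8_28))
    (Pos.glueD (Pos.glueT kgA_12_0
    (Pos.glueT kgA_12_20
    kgA_12_28))
    (Pos.glueD (Pos.glueT kgA_16_0
    (Pos.glueT kgA_16_20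
    kgA_16_28))
    (Pos.glueD (Pos.glueT kgA_20_0
    (Pos.glueT kgA_20_16
    kgA_20_26))
    (Pos.glueD (Pos.glueT kgA_24_0
    (Pos.glueT kgA_24_16
    kgA_24_28))
    (Pos.glueD (Pos.glueT kgA_26_0
    (Pos.glueT kgA_26_16
    kgA_26_28))
    (Pos.glueD (Pos.glueT kgA_28_0
    (Pos.glueT kgA_28_16
    kgA_28_28))
    (Pos.glueD (Pos.glueT kgA_30_0
    kgA_30_20)
    (Pos.glueT kgA_31_0
    (Pos.glueT kgA_31_8
    kgA_31_26))))))))))))

theorem posP : Pos 8 9 (nP wD XD) 0 16 0 32 :=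
  have L := link_sound linkP
  have kgP_0_0 : Pos 8 9 (nP wD XD) 0 8 0 4 :=
    grp_sound (g := 4) (c := 0) (c' := 1) L (by have h := run2.2.2.2.2; unfold gP_0_0 at h; exact h)
  have kgP_0_8 : Pos 8 9 (nP wD XD) 8 16 0 4 :=
    grp_sound (g := 4) (c := 0) (c' := 1) L (by have h := run6.2.2.2.2; unfold gP_0_8 at h; exact h)
  have kgP_4_0 : Pos 8 9 (nP wD XD) 0 16 4 8 :=
    grp_sound (g := 4) (c := 1) (c' := 2) L (by have h := run7.2.2.2.2.2; unfold gP_4_0 at h; exact h)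
  have kgP_8_0 : Pos 8 9 (nP wD XD) 0 16 8 12 :=
    grp_sound (g := 4) (c := 2) (c' := 3) L (by have h := run7.2.2.2.2.1; unfold gP_8_0 at h; exact h)
  have kgP_12_0 : Pos 8 9 (nP wD XD) 0 16 12 16 :=
    grp_sound (g := 4) (c := 3) (c' := 4) L (by have h := run1.2.2.2.2.1; unfold gP_12_0 at h; exact h)
  have kgP_16_0 : Pos 8 9 (nP wD XD) 0 16 16 20 :=
    grp_sound (g := 4) (c := 4) (c' := 5) L (by have h := run4.2.2.2.2.1; unfold gP_16_0 at h; exact h)
  have kgP_20_0 : Pos 8 9 (nP wD XD) 0 16 20 24 :=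
    grp_sound (g := 4) (c := 5) (c' := 6) L (by have h := run1.2.2.2.2.2; unfold gP_20_0 at h; exact h)
  have kgP_24_0 : Pos 8 9 (nP wD XD) 0 16 24 28 :=
    grp_sound (g := 4) (c := 6) (c' := 7) L (by have h := run0.2.2.2.2.1; unfold gP_24_0 at h; exact h)
  have kgP_28_0 : Pos 8 9 (nP wD XD) 0 4 28 32 :=
    grp_sound (g := 4) (c := 7) (c' := 8) L (by have h := run4.2.2.2.2.2; unfold gP_28_0 at h; exact h)
  have kgP_28_4 : Pos 8 9 (nP wD XD) 4 16 28 32 :=
    grp_sound (g := 4) (c := 7) (c' := 8) L (by have h := run7.2.2.2.1; unfold gP_28_4 at h; exact h)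
  (Pos.glueD (Pos.glueT kgP_0_0
    kgP_0_8)
    (Pos.glueD kgP_4_0
    (Pos.glueD kgP_8_0
    (Pos.glueD kgP_12_0
    (Pos.glueD kgP_16_0
    (Pos.glueD kgP_20_0
    (Pos.glueD kgP_24_0
    (Pos.glueT kgP_28_0
    kgP_28_4))))))))

theorem posB : Pos 7 0 (nB wD) 0 32 0 32 :=
  have L := link_sound linkB
  have kgB_0_0 : Pos 7 0 (nB wD) 0 24 0 32 :=
    grp_sound (g := 32) (c := 0) (c' := 1) L (by have h := run0.2.2.2.2.2; unfold gB_0_0 at h; exact h)
  have kgB_0_24 : Pos 7 0 (nB wD) 24 32 0 32 :=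
    grp_sound (g := 32) (c := 0) (c' := 1) L (by have h := run3.2.2.2.2.2; unfold gB_0_24 at h; exact h)
  (Pos.glueT kgB_0_0
    kgB_0_24)


end Pool.Agent.MP_8fe08c_co.h82
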