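import Pool.Agent.MP_8fe08c_co.h82.Chain
import Pool.Agent.MP_8fe08c_co.h82.Glue

set_option autoImplicit false

namespace Pool.Agent.MP_8fe08c_co.h82

open Pool.Agent.MP_8fe08c_co.h31

theorem upper_bound (P : Finset Pt) : ∃ G : SimpleGraph P, IsPlane P G ∧
    (∀ p q : P, G.Adj p q → ∃ (c : Pt) (r : ℝ), dist (p : Pt) c = r ∧ dist (q : Pt) c = r ∧
      ∀ w ∈ P, r ≤ dist w c) ∧ stretch G ≤ ENNReal.ofReal (201 / 125) := by
  obtain ⟨G, Gx, Gz, Gt, Gd, W, Wx, Wz, Wt, h⟩ := cert_of_pos (by norm_num) posA posP posB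
  have := main_of_cert h (by norm_num) P
  norm_num at this ⊢
  exact this

end Pool.Agent.MP_8fe08c_co.h82
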