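import Mathlib.Analysis.Calculus.Deriv.Basic

set_option autoImplicit false

namespace Pool.Agent.MP_8fe08c_co.h82

/-- The differential inequalities that make `G` a potential for the chain of circles. -/
structure Cert (lam : ℝ) (G Gx Gz Gt Gd : ℝ → ℝ → ℝ → ℝ → ℝ) (W Wx Wz Wt : ℝ → ℝ → ℝ → ℝ) :
    Prop where
  dG : ∀ {x z t d : ℝ → ℝ} {x' z' t' d' s : ℝ}, HasDerivAt x x' s → HasDerivAt z z' s →
    HasDerivAt t t' s → HasDerivAt d d' s → HasDerivAt (fun s => G (x s) (z s) (t s) (d s))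
      (x' * Gx (x s) (z s) (t s) (d s) + z' * Gz (x s) (z s) (t s) (d s)
        + t' * Gt (x s) (z s) (t s) (d s) + d' * Gd (x s) (z s) (t s) (d s)) s
  dW : ∀ {x z t : ℝ → ℝ} {x' z' t' s : ℝ}, HasDerivAt x x' s → HasDerivAt z z' s →
    HasDerivAt t t' s → HasDerivAt (fun s => W (x s) (z s) (t s))
      (x' * Wx (x s) (z s) (t s) + z' * Wz (x s) (z s) (t s) + t' * Wt (x s) (z s) (t s)) s
  sym : ∀ x z t d, G x z t d = G (-x) z (-t) (-d)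
  top : ∀ x z t, G x z t 1 = (1 - t) * W x z t
  nA : ∀ x z t d, |x| ≤ 1 → |z| ≤ 1 → |t| ≤ 1 → |d| ≤ 1 →
    0 ≤ (1 - x ^ 4) * (2 * z * G x z t d
        - (1 - z ^ 2) * ((1 + x ^ 2) * Gx x z t d + (1 + z ^ 2) * Gz x z t d) / 2
        + (1 + z ^ 2 - 2 * d * z) * Gd x z t d - (1 - z) ^ 2 / 2)
      + lam / 2 * (1 - x ^ 2) * ((1 - x ^ 2) * (1 - z ^ 2) * (1 - d) + 2 * x * (1 - z) ^ 2)
      + (1 + x ^ 2) * (1 - t) * (2 * z * (1 - x ^ 2) + 2 * x * (1 - z ^ 2)) * Gt x z t d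
  nP : ∀ x z t d, |x| ≤ 1 → |z| ≤ 1 → -1 ≤ t → t ≤ 0 → |d| ≤ 1 → 0 ≤ Gz x z t d
  nB : ∀ x z t, |x| ≤ 1 → |z| ≤ 1 → |t| ≤ 1 →
    0 ≤ -((1 - x ^ 2) * (1 - z ^ 2) * ((1 + x ^ 2) * Wx x z t + (1 + z ^ 2) * Wz x z t) / 2)
      + (1 - t) * (2 * z * (1 - x ^ 2) + 2 * x * (1 - z ^ 2)) * Wt x z t
      - 2 * x * (1 - z ^ 2) * W x z t

end Pool.Agent.MP_8fe08c_co.h82
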