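import Pool.Agent.MP_8fe08c_co.h82.Tree
import Pool.Agent.MP_8fe08c_co.h82.Spec

set_option autoImplicit false

namespace Pool.Agent.MP_8fe08c_co.h82

noncomputable section

def tdx (n : ℕ) (T : T4) : T4 := der a3 s3 T n
def tdz (n : ℕ) (T : T4) : T4 := mp (fun r => der a2 s2 r n) T
def tdt (n : ℕ) (T : T4) : T4 := mp (mp (fun r => der a1 s1 r n)) T
def tdd (n : ℕ) (T : T4) : T4 := mp (mp (mp (fun r => der iadd imul r n))) T

/-- The value of a form at `1 + v` and `1 - v`. -/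
def E4 (n1 n2 n3 n4 : ℕ) (T : T4) (x z t d : ℝ) : ℝ :=
  e4 (1 + x) (1 - x) (1 + z) (1 - z) (1 + t) (1 - t) (1 + d) (1 - d) n1 n2 n3 n4 T

theorem evH_mp1 {α β : Type} (f : α → ℝ) (h : β → α) (A B : ℝ) (n : ℕ) (p : List β) :
    evH f A B n (mp h p) = evH (fun a => f (h a)) A B n p := by
  rw [evH_mp (g := fun a => f (h a)) (c := 1) (fun a => by simp), one_mul]

theorem evH_cmul {α : Type} (f : α → ℝ) (c A B : ℝ) (n : ℕ) (p : List α) :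
    evH (fun a => c * f a) A B n p = c * evH f A B n p := evH_fmul (fun _ => rfl) A B n p

theorem E4_hasDerivAt {x z t d : ℝ → ℝ} {x' z' t' d' s : ℝ} (hx : HasDerivAt x x' s)
    (hz : HasDerivAt z z' s) (ht : HasDerivAt t t' s) (hd : HasDerivAt d d' s) (n1 n2 n3 n4 : ℕ)
    (T : T4) : HasDerivAt (fun s => E4 n1 n2 n3 n4 T (x s) (z s) (t s) (d s))
      (x' * E4 (n1 - 1) n2 n3 n4 (tdx n1 T) (x s) (z s) (t s) (d s)
        + z' * E4 n1 (n2 - 1) n3 n4 (tdz n2 T) (x s) (z s) (t s) (d s)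
        + t' * E4 n1 n2 (n3 - 1) n4 (tdt n3 T) (x s) (z s) (t s) (d s)
        + d' * E4 n1 n2 n3 (n4 - 1) (tdd n4 T) (x s) (z s) (t s) (d s)) s := by
  have h1 := fun p => (evH_hasDerivAt (f := fun _ => e0) (f' := fun _ => 0) e0_a e0_s
    (fun a => hasDerivAt_const s (e0 a)) hd p n4).congr_deriv (by
      rw [evH_fmul (f := fun _ => 0) (g := fun _ => 0) (c := 0) (by simp), zero_mul, add_zero])
  have h2 := fun p => evH_hasDerivAt (f := fun s => e1 (1 + d s) (1 - d s) n4) (e1_a _ _ _)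
    (e1_s _ _ _) h1 ht p n3
  have h3 := fun p => evH_hasDerivAt
    (f := fun s => e2 (1 + t s) (1 - t s) (1 + d s) (1 - d s) n3 n4) (e2_a _ _ _ _ _ _)
    (e2_s _ _ _ _ _ _) h2 hz p n2
  have h4 := evH_hasDerivAt
    (f := fun s => e3 (1 + z s) (1 - z s) (1 + t s) (1 - t s) (1 + d s) (1 - d s) n2 n3 n4)
    (e3_a _ _ _ _ _ _ _ _ _) (e3_s _ _ _ _ _ _ _ _ _) h3 hx T n1
  refine h4.congr_deriv ?_
  simp only [evH_fadd, evH_cmul, E4, e4, e3, e2, e1, tdx, tdz, tdt, tdd, evH_mp1]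
  ring

theorem E4_cont_t (n1 n2 n3 n4 : ℕ) (T : T4) (x z d : ℝ) :
    Continuous fun t => E4 n1 n2 n3 n4 T x z t d :=
  continuous_iff_continuousAt.mpr fun s => (E4_hasDerivAt (hasDerivAt_const s x)
    (hasDerivAt_const s z) (hasDerivAt_id s) (hasDerivAt_const s d) n1 n2 n3 n4 T).continuousAt

theorem E4_cont_d (n1 n2 n3 n4 : ℕ) (T : T4) (x z t : ℝ) :
    Continuous fun d => E4 n1 n2 n3 n4 T x z t d :=
  continuous_iff_continuousAt.mpr fun s => (E4_hasDerivAt (hasDerivAt_const s x)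
    (hasDerivAt_const s z) (hasDerivAt_const s t) (hasDerivAt_id s) n1 n2 n3 n4 T).continuousAt

theorem nonneg_closed {f : ℝ → ℝ} (hf : Continuous f) {a b : ℝ} (hab : a < b)
    (h : ∀ t, a ≤ t → t < b → 0 ≤ f t) {t : ℝ} (h1 : a ≤ t) (h2 : t ≤ b) : 0 ≤ f t := by
  have : Set.Icc a b ⊆ {t | 0 ≤ f t} := by
    rw [← closure_Ico hab.ne]
    exact (isClosed_le continuous_const hf).closure_subset_iff.mpr fun t ht => h t ht.1 ht.2
  exact this ⟨h1, h2⟩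

theorem Pos.closed {nt nd t1 : ℕ} {T : T4} (h : Pos nt nd T 0 t1 0 32) (h0 : 0 < t1) {x z t d : ℝ}
    (hx : |x| ≤ 1) (hz : |z| ≤ 1) (ht : -1 ≤ t) (ht' : 16 * (1 + t) ≤ t1) (hd : |d| ≤ 1) :
    0 ≤ E4 12 10 nt nd T x z t d := by
  rw [abs_le] at hx hz hd
  have h0' : (0 : ℝ) < t1 := by exact_mod_cast h0
  refine nonneg_closed (E4_cont_t _ _ _ _ T x z d) (a := -1) (b := t1 / 16 - 1) (by linarith) ?_ ht
    (by linarith)
  intro t a1 a2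
  refine nonneg_closed (E4_cont_d _ _ _ _ T x z t) (a := -1) (b := 1) (by linarith) ?_ hd.1 hd.2
  intro d b1 b2
  have := h (1 + x) (1 - x) (1 + z) (1 - z) ((1 + t) / 2) ((1 + d) / 2) (by linarith) (by linarith)
    (by linarith) (by linarith) (by push_cast; linarith) (by linarith) (by push_cast; linarith)
    (by push_cast; linarith)
  have e := e4_scale (1 + x) (1 - x) (1 + z) (1 - z) ((1 + t) / 2) (1 - (1 + t) / 2) ((1 + d) / 2)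
    (1 - (1 + d) / 2) 2 2 12 10 nt nd T
  rw [show 2 * ((1 + t) / 2) = 1 + t by ring, show 2 * (1 - (1 + t) / 2) = 1 - t by ring,
    show 2 * ((1 + d) / 2) = 1 + d by ring, show 2 * (1 - (1 + d) / 2) = 1 - d by ring] at e
  unfold E4
  rw [e]; positivity

def refl (n1 n3 n4 : ℕ) (T : T4) : T4 :=
  rvA [] (n1 + 1) (mp (mp (fun q => rvA [] (n3 + 1) (mp (fun u => rvA 0 (n4 + 1) u []) q) [])) T) []

def rpd1 (k : ℕ) (u : T1) : T1 := rep 0 u k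
def rpd4 (k : ℕ) : T4 → T4 := mp (mp (mp (rpd1 k)))
def rpd3 (k : ℕ) : T3 → T3 := mp (mp (rpd1 k))
def rpt3 (k : ℕ) : T3 → T3 := mp (fun q => rep [] q k)
def rpz3 (k : ℕ) (r : T3) : T3 := rep [] r k
def ou2 (p : T1) (R : T1) : T2 := mp (fun c => s1 c R) p
def ou3 (p : T1) (R : T2) : T3 := mp (fun c => s2 c R) p
def ou4 (p : T1) (R : T3) : T4 := mp (fun c => s3 c R) p
def el (n : ℕ) (p : T1) (k : ℕ) : T1 := Nat.rec p (fun j ih => pld1 (n + j) ih) k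
def sqd1 (n : ℕ) : T1 → T1 := sq iadd 0 n

section
variable (Ax Bx Az Bz At Bt Ad Bd : ℝ) (n1 n2 n3 n4 n k : ℕ)

theorem e_refl (T : T4) : e4 Ax Bx Az Bz At Bt Ad Bd n1 n2 n3 n4 (refl n1 n3 n4 T) =
    e4 Bx Ax Az Bz Bt At Bd Ad n1 n2 n3 n4 T := by
  rw [refl, e4, evH_rv (e3_z _ _ _ _ _ _ _ _ _), evH_mp1, e4]
  congr 1
  funext r
  rw [e3, evH_mp1, e3]
  congr 1
  funext q
  rw [e2, evH_rv (e1_z _ _ _), evH_mp1, e2]
  congr 1
  funext u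
  exact evH_rv e0_z _ _ _ _

theorem e_rpd1 (p : T1) : e1 Ad Bd (n + k) (rpd1 k p) = Ad ^ k * e1 Ad Bd n p :=
  evH_rep e0_z _ _ _ _ _
theorem e_rpd3 (p : T3) : e3 Az Bz At Bt Ad Bd n2 n3 (n + k) (rpd3 k p) =
    Ad ^ k * e3 Az Bz At Bt Ad Bd n2 n3 n p :=
  evH_mp (fun q => evH_mp (e_rpd1 _ _ _ _) _ _ _ q) _ _ _ p
theorem e_rpd4 (p : T4) : e4 Ax Bx Az Bz At Bt Ad Bd n1 n2 n3 (n + k) (rpd4 k p) =
    Ad ^ k * e4 Ax Bx Az Bz At Bt Ad Bd n1 n2 n3 n p :=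
  evH_mp (e_rpd3 _ _ _ _ _ _ _ _ _ _) _ _ _ p
theorem e_rpt3 (p : T3) : e3 Az Bz At Bt Ad Bd n2 (n + k) n4 (rpt3 k p) =
    At ^ k * e3 Az Bz At Bt Ad Bd n2 n n4 p :=
  evH_mp (fun q => evH_rep (e1_z _ _ _) _ _ _ _ q) _ _ _ p
theorem e_rpz3 (p : T3) : e3 Az Bz At Bt Ad Bd (n + k) n3 n4 (rpz3 k p) =
    Az ^ k * e3 Az Bz At Bt Ad Bd n n3 n4 p := evH_rep (e2_z _ _ _ _ _ _) _ _ _ _ p
theorem e_ou2 (p R : T1) : e2 At Bt Ad Bd n3 n4 (ou2 p R) = e1 Ad Bd n4 R * e1 At Bt n3 p :=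
  evH_mp (fun a => by rw [e1_s, mul_comm]; rfl) _ _ _ p
theorem e_ou3 (p : T1) (R : T2) : e3 Az Bz At Bt Ad Bd n2 n3 n4 (ou3 p R) =
    e2 At Bt Ad Bd n3 n4 R * e1 Az Bz n2 p :=
  evH_mp (fun a => by rw [e2_s, mul_comm]; rfl) _ _ _ p
theorem e_ou4 (p : T1) (R : T3) : e4 Ax Bx Az Bz At Bt Ad Bd n1 n2 n3 n4 (ou4 p R) =
    e3 Az Bz At Bt Ad Bd n2 n3 n4 R * e1 Ax Bx n1 p :=
  evH_mp (fun a => by rw [e3_s, mul_comm]; rfl) _ _ _ p
theorem e_el (p : T1) : e1 Ad Bd (n + k) (el n p k) = (Ad + Bd) ^ k * e1 Ad Bd n p := by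
  induction k with
  | zero => simp [el]
  | succ k ih =>
    have : el n p (k + 1) = pld1 (n + k) (el n p k) := rfl
    rw [this, ← Nat.add_assoc, e_pld1, ih]; ring
theorem e_sqd1 (p : T1) : e1 Ad Bd (n + 2) (sqd1 n p) = (Ad ^ 2 + Bd ^ 2) * e1 Ad Bd n p :=
  evH_sq e0_a e0_z _ _ _ p
theorem e_one (c : ℤ) : e1 Ad Bd 0 [c] = c := evH_zero _ _ _ _ _
end

/-- Multiplication by a linear form. -/
def lin3 (e a c : ℤ) (n : ℕ) (R : T3) : T3 :=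
  a3 (s3 e (bbz3 n (plt3 n (pld3 n R))))
    (a3 (s3 a (plz3 n (bbt3 n (pld3 n R)))) (s3 c (plz3 n (plt3 n (bbd3 n R)))))

/-- A square term. -/
structure Sq where
  (e a c : ℤ)
  xp : List ℕ

def sos1 (q : Sq) : T4 :=
  Sq.rec (fun e a c xp => ou4 (mp (fun k => ngN k) xp)
    (rpz3 8 (rpt3 6 (rpd3 7 (lin3 e a c 1 (lin3 e a c 0 [[[1]]])))))) q

def sos (l : List Sq) : T4 := List.rec [] (fun q _ ih => a4 (sos1 q) ih) l

theorem e1_neg {A B : ℝ} (hA : 0 ≤ A) (hB : 0 ≤ B) (n : ℕ) (p : List ℕ) :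
    e1 A B n (mp (fun k => ngN k) p) ≤ 0 := by
  induction p generalizing n with
  | nil => exact (e1_z _ _ _).le
  | cons a p ih =>
    have : mp (fun k => ngN k) (a :: p) = ngN a :: mp (fun k => ngN k) p := rfl
    have h : e0 (ngN a) ≤ 0 := by rw [ngN_eq]; simp [e0]
    cases n with
    | zero => rw [this, e1, evH_zero]; exact h
    | succ n =>
      rw [this, e1, evH_succ]
      exact add_nonpos (mul_nonpos_of_nonneg_of_nonpos (by positivity) h)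
        (mul_nonpos_of_nonneg_of_nonpos hA (ih n))

theorem sos_nonpos {Ax Bx Az Bz At Bt Ad Bd : ℝ} (h1 : 0 ≤ Ax) (h2 : 0 ≤ Bx) (_h3 : 0 ≤ Az)
    (_h4 : 0 ≤ At) (_h5 : 0 ≤ Ad) (l : List Sq) :
    e4 Ax Bx Az Bz At Bt Ad Bd 12 10 8 9 (sos l) ≤ 0 := by
  induction l with
  | nil => exact (e4_z _ _ _ _ _ _ _ _ _ _ _ _).le
  | cons q l ih =>
    obtain ⟨e, a, c, xp⟩ := q
    have : sos (⟨e, a, c, xp⟩ :: l) = a4 (ou4 (mp (fun k => ngN k) xp)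
      (rpz3 8 (rpt3 6 (rpd3 7 (lin3 e a c 1 (lin3 e a c 0 [[[1]]])))))) (sos l) := rfl
    rw [this, e4_a, e_ou4, e_rpz3 _ _ _ _ _ _ _ _ 2 8, e_rpt3 _ _ _ _ _ _ _ _ 2 6,
      e_rpd3 _ _ _ _ _ _ _ _ 2 7]
    have l1 : ∀ n R, e3 Az Bz At Bt Ad Bd (n + 1) (n + 1) (n + 1) (lin3 e a c n R) =
        (e * (Bz * ((At + Bt) * (Ad + Bd))) + a * ((Az + Bz) * (Bt * (Ad + Bd)))
          + c * ((Az + Bz) * ((At + Bt) * Bd))) * e3 Az Bz At Bt Ad Bd n n n R := by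
      intro n R
      simp only [lin3, e3_a, e3_s, e_bbz3, e_plt3, e_pld3, e_plz3, e_bbt3, e_bbd3]
      ring
    have l2 : e3 Az Bz At Bt Ad Bd 0 0 0 [[[1]]] = 1 := by simp [e3, e2, e1, e0, evH_zero]
    rw [l1 1, l1 0, l2, mul_one]
    refine add_nonpos (mul_nonpos_of_nonneg_of_nonpos ?_ (e1_neg h1 h2 _ _)) ih
    exact mul_nonneg (by positivity) (mul_nonneg (by positivity) (mul_nonneg (by positivity)
      (mul_self_nonneg _)))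

def hH (w X : T4) : T4 := a4 (bbt4 7 (rpd4 9 w)) (abd4 7 X)
def gG (w X : T4) : T4 := (fun H => a4 H (refl 7 8 9 H)) (hH w X)

/-- The terms with the derivative in the third variable. -/
def t3 (c : T4) : T4 := plx4 9 (plz4 9 (a4 (abx4 7 (plz4 8 (miz4 7 c)))
  (abz4 7 (plx4 8 (mix4 7 c)))))

def nA0 (g gd : T4) : T4 := sqx4 10 (a4 (abx4 8 (a4
    (plx4 7 (a4 (plz4 9 (plz4 8 (miz4 7 (a4 (s4 2 g) (s4 (-1) (mid4 8 gd))))))
      (sqz4 8 (a4 (plz4 7 (pld4 8 gd)) (abz4 6 (s4 (-2) (tdz 7 g)))))))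
    (plz4 9 (abz4 7 (sqx4 6 (s4 (-2) (tdx 7 g)))))))
  (t3 (s4 2 (bbt4 7 (tdt 8 g)))))

def nA1 (s sl : ℕ) : T4 := a4
  (ou4 (el 4 (a1 (s1 (ngN s) (abd1 2 (sqd1 0 [1]))) (s1 sl (abd1 2 (pld1 1 (mid1 0 [1]))))) 8)
    (ou3 (el 2 (bbd1 1 (bbd1 0 [1])) 8) (ou2 (el 0 [1] 8) (el 0 [1] 9))))
  (ou4 (el 4 (s1 (4 * sl) (abd1 2 (abd1 0 [1]))) 8)
    (ou3 (el 2 (abd1 0 [1]) 8) (ou2 (el 0 [1] 8) (el 1 (bbd1 0 [1]) 8))))

def nA (s sl : ℕ) (w X : T4) (l : List Sq) : T4 :=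
  a4 ((fun g => nA0 g (tdd 9 g)) (gG w X)) (a4 (nA1 s sl) (sos l))

def nP (w X : T4) : T4 := plx4 11 (plx4 10 (plx4 9 (plx4 8 (plx4 7
  (plz4 9 (plz4 8 (plz4 7 (plz4 6 (tdz 7 (gG w X))))))))))

def nB (w : T4) : T4 := plx4 11 (plx4 10 (a4 (t3 (bbt4 6 (tdt 7 w))) (s4 (-1) (a4
  (abx4 8 (abz4 8 (a4 (plz4 7 (sqx4 6 (tdx 7 w))) (plx4 7 (sqz4 6 (tdz 7 w))))))
  (plx4 9 (plx4 8 (plz4 9 (abz4 7 (mix4 7 w)))))))))

theorem cert_of_pos {s sl : ℕ} (hs : 0 < s) {w X : T4} {l : List Sq}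
    (hA : Pos 8 9 (nA s sl w X l) 0 32 0 32) (hP : Pos 8 9 (nP w X) 0 16 0 32)
    (hB : Pos 7 0 (nB w) 0 32 0 32) :
    ∃ G Gx Gz Gt Gd W Wx Wz Wt, Cert (sl / s) G Gx Gz Gt Gd W Wx Wz Wt := by
  have hs' : (0 : ℝ) < s := by exact_mod_cast hs
  obtain ⟨k, hk, hk'⟩ : ∃ k : ℝ, 0 < k ∧ k * (s * 2 ^ 30) = 1 :=
    ⟨1 / (s * 2 ^ 30), by positivity, by field_simp⟩
  refine ⟨fun x z t d => k * E4 7 7 8 9 (gG w X) x z t d,
    fun x z t d => k * E4 6 7 8 9 (tdx 7 (gG w X)) x z t d,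
    fun x z t d => k * E4 7 6 8 9 (tdz 7 (gG w X)) x z t d,
    fun x z t d => k * E4 7 7 7 9 (tdt 8 (gG w X)) x z t d,
    fun x z t d => k * E4 7 7 8 8 (tdd 9 (gG w X)) x z t d,
    fun x z t => k * 2 ^ 9 * E4 7 7 7 0 w x z t 0,
    fun x z t => k * 2 ^ 9 * E4 6 7 7 0 (tdx 7 w) x z t 0,
    fun x z t => k * 2 ^ 9 * E4 7 6 7 0 (tdz 7 w) x z t 0,
    fun x z t => k * 2 ^ 9 * E4 7 7 6 0 (tdt 7 w) x z t 0, ?_, ?_, ?_, ?_, ?_, ?_, ?_⟩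
  · intro x z t d x' z' t' d' u hx hz ht hd
    refine ((E4_hasDerivAt hx hz ht hd 7 7 8 9 (gG w X)).const_mul k).congr_deriv ?_
    simp only [Nat.reduceSub]
    ring
  · intro x z t x' z' t' u hx hz ht
    refine ((E4_hasDerivAt hx hz ht (hasDerivAt_const u (0 : ℝ)) 7 7 7 0 w).const_mul
      (k * 2 ^ 9)).congr_deriv ?_
    simp only [Nat.reduceSub]
    ring
  · intro x z t d
    simp only [E4, gG, e4_a, e_refl, sub_neg_eq_add, ← sub_eq_add_neg]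
    ring
  · intro x z t
    have r1 : ∀ Ax Bx Az Bz At Bt Ad Bd, e4 Ax Bx Az Bz At Bt Ad Bd 7 7 7 9 (rpd4 9 w) =
        Ad ^ 9 * e4 Ax Bx Az Bz At Bt (1 + 0) (1 - 0) 7 7 7 0 w :=
      fun Ax Bx Az Bz At Bt Ad Bd => e_rpd4 Ax Bx Az Bz At Bt Ad Bd 7 7 7 0 9 w
    simp only [E4, gG, hH, e4_a, e_refl, e_bbt4, e_abd4, r1]
    ring
  · intro x z t d hx hz ht hd
    have h := hA.closed (by norm_num) hx hz (abs_le.mp ht).1
      (by have := (abs_le.mp ht).2; push_cast; linarith) hd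
    rw [abs_le] at hx hz ht hd
    have h2 := sos_nonpos (Ax := 1 + x) (Bx := 1 - x) (Az := 1 + z) (Bz := 1 - z) (At := 1 + t)
      (Bt := 1 - t) (Ad := 1 + d) (Bd := 1 - d) (by linarith) (by linarith) (by linarith)
      (by linarith) (by linarith) l
    have r1 : ∀ A B p, e1 A B 12 (el 4 p 8) = _ := fun A B p => e_el A B 4 8 p
    have r2 : ∀ A B p, e1 A B 10 (el 2 p 8) = _ := fun A B p => e_el A B 2 8 p
    have r3 : ∀ A B p, e1 A B 8 (el 0 p 8) = _ := fun A B p => e_el A B 0 8 p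
    have r4 : ∀ A B p, e1 A B 9 (el 0 p 9) = _ := fun A B p => e_el A B 0 9 p
    have r5 : ∀ A B p, e1 A B 9 (el 1 p 8) = _ := fun A B p => e_el A B 1 8 p
    have two : ∀ v : ℝ, 1 + v + (1 - v) = 2 := fun v => by ring
    simp only [E4, nA, nA0, nA1, t3, e4_a, e4_s, e_sqx4, e_abx4, e_plx4, e_mix4, e_plz4, e_miz4,
      e_abz4, e_sqz4, e_mid4, e_pld4, e_bbt4, e_ou4, e_ou3, e_ou2, r1, r2, r3, r4, r5, e1_a, e1_s,
      e_abd1, e_sqd1, e_pld1, e_mid1, e_bbd1, e_one, two, ngN_eq] at h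
    simp only [E4]
    push_cast at h
    have e1 : (sl : ℝ) = s * (sl / s) := by field_simp
    generalize (sl : ℝ) / s = lam at e1 ⊢
    rw [e1] at h
    have h3 := mul_nonneg hk.le (h.trans (add_le_add le_rfl (add_le_add le_rfl h2)))
    refine nonneg_of_mul_nonneg_right (a := 32) (h3.trans (le_of_eq ?_)) (by norm_num)
    linear_combination (-16 * (1 - x ^ 4) * (1 - z) ^ 2 + 16 * lam * (1 - x ^ 2) *
      ((1 - x ^ 2) * (1 - z ^ 2) * (1 - d) + 2 * x * (1 - z) ^ 2)) * hk'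
  · intro x z t d hx hz ht ht' hd
    have h := hP.closed (by norm_num) hx hz ht (by push_cast; linarith) hd
    have two : ∀ v : ℝ, 1 + v + (1 - v) = 2 := fun v => by ring
    simp only [E4, nP, e_plx4, e_plz4, two] at h
    exact mul_nonneg hk.le (by simp only [E4]; linarith)
  · intro x z t hx hz ht
    have h := hB.closed (d := 0) (by norm_num) hx hz (abs_le.mp ht).1
      (by have := (abs_le.mp ht).2; push_cast; linarith) (by simp)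
    have two : ∀ v : ℝ, 1 + v + (1 - v) = 2 := fun v => by ring
    simp only [E4, nB, t3, e4_a, e4_s, e_sqx4, e_abx4, e_plx4, e_mix4, e_plz4, e_miz4,
      e_abz4, e_sqz4, e_bbt4, two] at h
    simp only [E4]
    push_cast at h
    have h3 := mul_nonneg (mul_pos hk (by positivity : (0 : ℝ) < 2 ^ 9)).le h
    refine nonneg_of_mul_nonneg_right (a := 32) (h3.trans (le_of_eq ?_)) (by norm_num)
    ring

end

end Pool.Agent.MP_8fe08c_co.h82
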