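import Mathlib.Analysis.Calculus.Deriv.Mul
import Mathlib.Analysis.Calculus.Deriv.Pow
import Mathlib.Analysis.Calculus.Deriv.Add

set_option autoImplicit false

namespace Pool.Agent.MP_8fe08c_co.h82

noncomputable section

/-- `List.map` by the recursor. -/
def mp {α β : Type} (f : α → β) (p : List α) : List β := List.rec [] (fun a _ ih => f a :: ih) p

theorem mp_eq {α β : Type} (f : α → β) (p : List α) : mp f p = p.map f := by
  induction p with
  | nil => rfl
  | cons a p ih => exact congrArg (f a :: ·) ih

/-- Sum of two coefficient lists. -/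
def addL {α : Type} (add : α → α → α) (p : List α) : List α → List α :=
  List.rec (fun q => q) (fun a l ih q => List.rec (a :: l) (fun b m _ => add a b :: ih m) q) p

/-- `List.take` by the recursor. -/
def tk {α : Type} (p : List α) : ℕ → List α :=
  List.rec (fun _ => []) (fun a _ ih n => Nat.rec [] (fun k _ => a :: ih k) n) p

/-- The first `n` entries in reverse order, padded by `z`, in front of `acc`. -/
def rvA {α : Type} (z : α) (n : ℕ) : List α → List α → List α :=
  Nat.rec (fun _ acc => acc)
    (fun _ ih p acc => List.rec (ih [] (z :: acc)) (fun a l _ => ih l (a :: acc)) p) n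

/-- `k` copies of `z` in front of `p`. -/
def rep {α : Type} (z : α) (p : List α) (k : ℕ) : List α := Nat.rec p (fun _ ih => z :: ih) k

/-- Entrywise scaling by a list of integers. -/
def zs {α : Type} (sm : ℤ → α → α) (cs : List ℤ) : List α → List α :=
  List.rec (fun _ => []) (fun c _ ih p => List.rec [] (fun a l _ => sm c a :: ih l) p) cs

/-- Derivative of a form of degree `n` in `1 + v` and `1 - v`. -/
def der {α : Type} (add : α → α → α) (sm : ℤ → α → α) (p : List α) : ℕ → List α :=
  List.rec (fun _ => [])
    (fun a l ih n => Nat.rec [] (fun k _ => addL add l (sm (Int.negSucc k) a :: ih k)) n) p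

/-- Scalar product of two lists. -/
def dot {R : Type} [CommSemiring R] : List R → List R → R
  | w :: ws, a :: p => w * a + dot ws p
  | _, _ => 0

/-- The monomials of degree `n` in `A` and `B`. -/
def wts {R : Type} [CommSemiring R] (A B : R) : ℕ → List R
  | 0 => [1]
  | n + 1 => B ^ (n + 1) :: (wts A B n).map (A * ·)

section gen
variable {R : Type} [CommSemiring R]

@[simp] theorem dot_nil_right (ws : List R) : dot ws [] = 0 := by cases ws <;> rfl
@[simp] theorem dot_nil_left (p : List R) : dot [] p = 0 := by cases p <;> rfl
@[simp] theorem dot_cons (w a : R) (ws p : List R) : dot (w :: ws) (a :: p) = w * a + dot ws p := rfl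

theorem dot_map_mul (A : R) (ws p : List R) : dot (ws.map (A * ·)) p = A * dot ws p := by
  induction ws generalizing p with
  | nil => simp
  | cons w ws ih => cases p with
    | nil => simp
    | cons a p => simp only [List.map_cons, dot_cons, ih]; ring

theorem dot_wts_zero (A B a : R) (p : List R) : dot (wts A B 0) (a :: p) = a := by simp [wts]

theorem dot_wts_succ (A B a : R) (p : List R) (n : ℕ) :
    dot (wts A B (n + 1)) (a :: p) = B ^ (n + 1) * a + A * dot (wts A B n) p := by
  simp only [wts, dot_cons, dot_map_mul]

theorem dot_wts_scale (c A B : R) (p : List R) (n : ℕ) :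
    dot (wts (c * A) (c * B) n) p = c ^ n * dot (wts A B n) p := by
  induction n generalizing p with
  | zero => cases p <;> simp [wts]
  | succ n ih => cases p with
    | nil => simp
    | cons a p => rw [dot_wts_succ, dot_wts_succ, ih]; ring

end gen

variable {α β : Type}

/-- The value of a form of degree `n` in `A` and `B`. -/
def evH (f : α → ℝ) (A B : ℝ) (n : ℕ) (p : List α) : ℝ := dot (wts A B n) (p.map f)

@[simp] theorem evH_nil (f : α → ℝ) (A B : ℝ) (n : ℕ) : evH f A B n [] = 0 := by simp [evH]

theorem evH_zero (f : α → ℝ) (A B : ℝ) (a : α) (p : List α) : evH f A B 0 (a :: p) = f a := by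
  simp [evH, wts]

theorem evH_succ (f : α → ℝ) (A B : ℝ) (a : α) (p : List α) (n : ℕ) :
    evH f A B (n + 1) (a :: p) = B ^ (n + 1) * f a + A * evH f A B n p := by
  simp only [evH, List.map_cons, dot_wts_succ]

theorem dot_addL {f : α → ℝ} {add : α → α → α} (h : ∀ a b, f (add a b) = f a + f b) (ws : List ℝ)
    (p q : List α) : dot ws ((addL add p q).map f) = dot ws (p.map f) + dot ws (q.map f) := by
  induction ws generalizing p q with
  | nil => simp
  | cons w ws ih => cases p with
    | nil => simp [addL]
    | cons a p => cases q with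
      | nil => simp [addL]
      | cons b q =>
        have : addL add (a :: p) (b :: q) = add a b :: addL add p q := rfl
        simp only [this, List.map_cons, dot_cons, ih, h]; ring

theorem evH_addL {f : α → ℝ} {add : α → α → α} (h : ∀ a b, f (add a b) = f a + f b) (A B : ℝ)
    (n : ℕ) (p q : List α) : evH f A B n (addL add p q) = evH f A B n p + evH f A B n q :=
  dot_addL h _ p q

theorem dot_mp {f : α → ℝ} {g : β → ℝ} {h : β → α} {c : ℝ} (H : ∀ a, f (h a) = c * g a)
    (ws : List ℝ) (p : List β) : dot ws ((mp h p).map f) = c * dot ws (p.map g) := by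
  rw [mp_eq]
  induction ws generalizing p with
  | nil => simp
  | cons w ws ih => cases p with
    | nil => simp
    | cons a p => simp only [List.map_cons, dot_cons, ih, H]; ring

theorem evH_mp {f : α → ℝ} {g : β → ℝ} {h : β → α} {c : ℝ} (H : ∀ a, f (h a) = c * g a)
    (A B : ℝ) (n : ℕ) (p : List β) : evH f A B n (mp h p) = c * evH g A B n p := dot_mp H _ p

theorem evH_fadd (f g : α → ℝ) (A B : ℝ) (n : ℕ) (p : List α) :
    evH (fun a => f a + g a) A B n p = evH f A B n p + evH g A B n p := by
  unfold evH
  generalize wts A B n = ws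
  induction ws generalizing p with
  | nil => simp
  | cons w ws ih => cases p with
    | nil => simp
    | cons a p => simp only [List.map_cons, dot_cons, ih]; ring

theorem evH_cons_zero {f : α → ℝ} {z : α} (hz : f z = 0) (A B : ℝ) (n : ℕ) (p : List α) :
    evH f A B (n + 1) (z :: p) = A * evH f A B n p := by
  rw [evH_succ, hz]; ring

theorem evH_rep {f : α → ℝ} {z : α} (hz : f z = 0) (A B : ℝ) (n k : ℕ) (p : List α) :
    evH f A B (n + k) (rep z p k) = A ^ k * evH f A B n p := by
  induction k with
  | zero => simp [rep]
  | succ k ih =>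
    have : rep z p (k + 1) = z :: rep z p k := rfl
    rw [this, ← Nat.add_assoc, evH_cons_zero hz, ih]; ring

theorem evH_tk (f : α → ℝ) (A B : ℝ) (n k : ℕ) (p : List α) :
    evH f A B (n + k) (tk p (n + 1)) = B ^ k * evH f A B n p := by
  induction n generalizing p with
  | zero => cases p with
    | nil => simp [tk]
    | cons a p =>
      have : tk (a :: p) (0 + 1) = a :: tk p 0 := rfl
      have h0 : tk p 0 = [] := by cases p <;> rfl
      rw [this, h0, evH_zero, Nat.zero_add]
      cases k with
      | zero => simp [evH_zero]
      | succ k => simp [evH_succ]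
  | succ n ih => cases p with
    | nil => simp [tk]
    | cons a p =>
      have : tk (a :: p) (n + 1 + 1) = a :: tk p (n + 1) := rfl
      rw [this, show n + 1 + k = n + k + 1 by ring, evH_succ, evH_succ, ih]; ring

theorem evH_rvA {f : α → ℝ} {z : α} (hz : f z = 0) (A B : ℝ) (n k : ℕ) (p acc : List α) :
    evH f A B (n + (k + 1)) (rvA z (n + 1) p acc) =
      A ^ (n + 1) * evH f A B k acc + B ^ (k + 1) * evH f B A n p := by
  induction n generalizing p acc k with
  | zero => cases p with
    | nil =>
      have : rvA z (0 + 1) [] acc = z :: acc := rfl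
      rw [this, Nat.zero_add, evH_succ, hz]; simp
    | cons a p =>
      have : rvA z (0 + 1) (a :: p) acc = a :: acc := rfl
      rw [this, Nat.zero_add, evH_succ, evH_zero]; ring
  | succ n ih => cases p with
    | nil =>
      have : rvA z (n + 1 + 1) [] acc = rvA z (n + 1) [] (z :: acc) := rfl
      rw [this, show n + 1 + (k + 1) = n + (k + 1 + 1) by ring, ih, evH_succ, hz]; simp; ring
    | cons a p =>
      have : rvA z (n + 1 + 1) (a :: p) acc = rvA z (n + 1) p (a :: acc) := rfl
      rw [this, show n + 1 + (k + 1) = n + (k + 1 + 1) by ring, ih, evH_succ, evH_succ]; ring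

theorem evH_rv {f : α → ℝ} {z : α} (hz : f z = 0) (A B : ℝ) (n : ℕ) (p : List α) :
    evH f A B n (rvA z (n + 1) p []) = evH f B A n p := by
  cases n with
  | zero => cases p with
    | nil =>
      have : rvA z (0 + 1) [] [] = [z] := rfl
      rw [this, evH_zero, hz]; simp
    | cons a p =>
      have : rvA z (0 + 1) (a :: p) [] = [a] := rfl
      rw [this, evH_zero, evH_zero]
  | succ n => cases p with
    | nil =>
      have : rvA z (n + 1 + 1) [] [] = rvA z (n + 1) [] [z] := rfl
      rw [this, evH_rvA hz A B n 0, evH_zero, hz]; simp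
    | cons a p =>
      have : rvA z (n + 1 + 1) (a :: p) [] = rvA z (n + 1) p [a] := rfl
      rw [this, evH_rvA hz A B n 0, evH_zero, evH_succ]; ring

theorem dot_zs {f : α → ℝ} {sm : ℤ → α → α} (hs : ∀ c a, f (sm c a) = c * f a) (ws : List ℝ)
    (cs : List ℤ) (p : List α) :
    dot ws ((zs sm cs p).map f) = dot (List.zipWith (fun (c : ℤ) w => (c : ℝ) * w) cs ws) (p.map f) := by
  induction cs generalizing ws p with
  | nil => simp [zs]
  | cons c cs ih => cases p with
    | nil => simp [zs]
    | cons a p =>
      have : zs sm (c :: cs) (a :: p) = sm c a :: zs sm cs p := rfl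
      cases ws with
      | nil => simp
      | cons w ws => simp only [this, List.map_cons, dot_cons, List.zipWith_cons_cons, ih, hs]; ring

theorem evH_hasDerivAt {f : ℝ → α → ℝ} {f' : α → ℝ} {v : ℝ → ℝ} {v' s : ℝ} {add : α → α → α}
    {sm : ℤ → α → α} (ha : ∀ a b, f s (add a b) = f s a + f s b)
    (hs : ∀ c a, f s (sm c a) = c * f s a) (hf : ∀ a, HasDerivAt (fun s => f s a) (f' a) s)
    (hv : HasDerivAt v v' s) (p : List α) (n : ℕ) :
    HasDerivAt (fun s => evH (f s) (1 + v s) (1 - v s) n p)
      (v' * evH (f s) (1 + v s) (1 - v s) (n - 1) (der add sm p n)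
        + evH f' (1 + v s) (1 - v s) n p) s := by
  induction p generalizing n with
  | nil => simpa [der] using hasDerivAt_const s (0 : ℝ)
  | cons a p ih => cases n with
    | zero =>
      have : der add sm (a :: p) 0 = [] := rfl
      simpa [this, evH_zero] using hf a
    | succ n =>
      have e : der add sm (a :: p) (n + 1) = addL add p (sm (Int.negSucc n) a :: der add sm p n) := rfl
      have h1 := (((hv.const_sub 1).fun_pow (n + 1)).fun_mul (hf a)).fun_add
        ((hv.const_add 1).fun_mul (ih n))
      simp only [evH_succ, e, Nat.add_sub_cancel, evH_addL ha]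
      refine h1.congr_deriv ?_
      cases n with
      | zero =>
        have : der add sm p 0 = [] := by cases p <;> rfl
        simp only [evH_zero, hs, this, evH_nil, Int.cast_negSucc]
        push_cast; ring
      | succ n =>
        simp only [evH_succ, hs, Int.cast_negSucc, Nat.add_sub_cancel]
        push_cast; ring

end

end Pool.Agent.MP_8fe08c_co.h82
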