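import Pool.Agent.MP_8fe08c_co.h82.Poly
import Mathlib.Algebra.Polynomial.Eval.Degree
import Mathlib.Algebra.Polynomial.AlgebraMap
import Mathlib.Data.Nat.Bitwise

set_option autoImplicit false

open Finset

namespace Pool.Agent.MP_8fe08c_co.h82

noncomputable section

/-- The number `n` packs `K` signed digits in base `V`, bounded by `B0` times its top part, and
`φ` is the combination of the weights `Y` with these digits. -/
def R0 (V K B0 : ℕ) (Y : ℕ → ℝ) (n : ℕ) (φ : ℝ) : Prop :=
  ∃ (c : ℕ → ℤ) (M : ℕ), (n : ℤ) = ∑ k ∈ range K, c k * (V : ℤ) ^ k + M * (V : ℤ) ^ K ∧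
    (∀ k, |c k| ≤ M * B0) ∧ φ = ∑ k ∈ range K, (c k : ℝ) * Y k

theorem R0.add {V K B0 : ℕ} {Y : ℕ → ℝ} (n m : ℕ) (φ ψ : ℝ) (h1 : R0 V K B0 Y n φ)
    (h2 : R0 V K B0 Y m ψ) : R0 V K B0 Y (Nat.add n m) (φ + ψ) := by
  obtain ⟨c, M, a1, a2, a3⟩ := h1
  obtain ⟨d, N, b1, b2, b3⟩ := h2
  refine ⟨fun k => c k + d k, M + N, ?_, fun k => ?_, ?_⟩
  · simp only [Nat.add_eq, Nat.cast_add, a1, b1, add_mul, sum_add_distrib]; ring
  · have := abs_add_le (c k) (d k)
    have := a2 k
    have := b2 k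
    push_cast; linarith
  · simp only [a3, b3, Int.cast_add, add_mul, sum_add_distrib]

theorem R0.shl {V K B0 : ℕ} {Y : ℕ → ℝ} (j n : ℕ) (φ : ℝ) (h : R0 V K B0 Y n φ) :
    R0 V K B0 Y (Nat.shiftLeft n j) (2 ^ j * φ) := by
  obtain ⟨c, M, a1, a2, a3⟩ := h
  have e : Nat.shiftLeft n j = 2 ^ j * n := by
    rw [mul_comm]; exact Nat.shiftLeft_eq n j
  refine ⟨fun k => 2 ^ j * c k, 2 ^ j * M, ?_, fun k => ?_, ?_⟩
  · rw [e]; push_cast; rw [a1, mul_add, mul_sum]; simp only [mul_assoc]
  · rw [abs_mul, abs_of_nonneg (by positivity : (0 : ℤ) ≤ 2 ^ j)]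
    push_cast; rw [mul_assoc]
    exact mul_le_mul_of_nonneg_left (a2 k) (by positivity)
  · rw [a3, mul_sum]; push_cast; simp only [mul_assoc]

/-- `1 + V + ... + V ^ (K - 1)`. -/
def geo (V K : ℕ) : ℕ := Nat.rec 0 (fun _ ih => Nat.add 1 (Nat.mul V ih)) K

theorem geo_succ (V K : ℕ) : geo V (K + 1) = 1 + V * geo V K := rfl

theorem geo_eq (V K : ℕ) : (geo V K : ℤ) = ∑ k ∈ range K, (V : ℤ) ^ k := by
  induction K with
  | zero => rfl
  | succ K ih =>
    rw [geo_succ, sum_range_succ']; push_cast; rw [ih, mul_sum]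
    simp only [pow_succ', pow_zero]; ring

theorem geo_digit {V h : ℕ} (hV : h < V) (k K : ℕ) (hk : k < K) : h * geo V K / V ^ k % V = h := by
  induction k generalizing K with
  | zero =>
    obtain ⟨K, rfl⟩ : ∃ L, K = L + 1 := ⟨K - 1, by omega⟩
    rw [geo_succ, pow_zero, Nat.div_one, show h * (1 + V * geo V K) = h + V * (h * geo V K) by ring,
      Nat.add_mul_mod_self_left, Nat.mod_eq_of_lt hV]
  | succ k ih =>
    obtain ⟨K, rfl⟩ : ∃ L, K = L + 1 := ⟨K - 1, by omega⟩
    rw [geo_succ, pow_succ', ← Nat.div_div_eq_div_mul,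
      show h * (1 + V * geo V K) = h + V * (h * geo V K) by ring,
      Nat.add_mul_div_left _ _ (by omega), Nat.div_eq_of_lt hV, Nat.zero_add]
    exact ih K (by omega)

theorem digits_nonneg {V h : ℕ} (hV : V = 2 * h) (K : ℕ) (n : ℕ) (c : ℕ → ℤ) (M : ℤ)
    (hn : (n : ℤ) = ∑ k ∈ range K, c k * (V : ℤ) ^ k + M * (V : ℤ) ^ K) (hc : ∀ k, |c k| < h)
    (hd : ∀ k < K, n / V ^ k % V < h) : ∀ k < K, 0 ≤ c k := by
  induction K generalizing n c with
  | zero => intro k hk; omega
  | succ K ih =>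
    have h0 := hd 0 (by omega)
    rw [pow_zero, Nat.div_one] at h0
    have hs : (n : ℤ) = c 0 + V * (∑ k ∈ range K, c (k + 1) * (V : ℤ) ^ k + M * (V : ℤ) ^ K) := by
      rw [hn, sum_range_succ', mul_add, mul_sum]
      simp only [pow_succ', pow_zero]
      have : ∀ k, c (k + 1) * ((V : ℤ) * V ^ k) = V * (c (k + 1) * V ^ k) := fun k => by ring
      simp only [this]; ring
    set r := ∑ k ∈ range K, c (k + 1) * (V : ℤ) ^ k + M * (V : ℤ) ^ K
    have hdm : (n : ℤ) = ((n % V : ℕ) : ℤ) + V * ((n / V : ℕ) : ℤ) := by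
      exact_mod_cast (Nat.mod_add_div n V).symm
    have hc0 := abs_lt.mp (hc 0)
    have hz : c 0 - ((n % V : ℕ) : ℤ) = 0 := by
      refine Int.eq_zero_of_abs_lt_dvd (m := V) ⟨((n / V : ℕ) : ℤ) - r, by linarith⟩ ?_
      have h1 : ((n % V : ℕ) : ℤ) < h := by exact_mod_cast h0
      have h2 : (0 : ℤ) ≤ ((n % V : ℕ) : ℤ) := Int.natCast_nonneg _
      have h3 : (V : ℤ) = 2 * h := by exact_mod_cast hV
      rw [abs_lt]; constructor <;> linarith
    have hV0 : (0 : ℤ) < V := by
      have h3 : (V : ℤ) = 2 * h := by exact_mod_cast hV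
      linarith
    have hr : ((n / V : ℕ) : ℤ) = r := by
      apply mul_left_cancel₀ hV0.ne'
      linarith
    intro k hk
    cases k with
    | zero =>
      have h2 : (0 : ℤ) ≤ ((n % V : ℕ) : ℤ) := Int.natCast_nonneg _
      linarith
    | succ k =>
      refine ih (n / V) (fun k => c (k + 1)) hr (fun k => hc _) (fun j hj => ?_) k (by omega)
      have := hd (j + 1) (by omega)
      rwa [pow_succ', ← Nat.div_div_eq_div_mul] at this

/-- Every bit of `n` is a bit of `o`. -/
def Sub (n o : ℕ) : Prop := ∀ i, n.testBit i = true → o.testBit i = true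

theorem Sub.refl (n : ℕ) : Sub n n := fun _ h => h

theorem Sub.left {n a : ℕ} (b : ℕ) (h : Sub n a) : Sub n (Nat.lor a b) := fun i hi => by
  have : (Nat.lor a b).testBit i = (a.testBit i || b.testBit i) := Nat.testBit_or a b i
  rw [this, h i hi]; rfl

theorem Sub.right {n b : ℕ} (a : ℕ) (h : Sub n b) : Sub n (Nat.lor a b) := fun i hi => by
  have : (Nat.lor a b).testBit i = (a.testBit i || b.testBit i) := Nat.testBit_or a b i
  rw [this, h i hi]; simp

theorem Sub.trans {a b c : ℕ} (h : Sub a b) (h' : Sub b c) : Sub a c := fun i hi => h' i (h i hi)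

/-- The test at a leaf. -/
def okN (H Big o : ℕ) : Bool := Bool.rec false (Nat.ble o Big) (Nat.beq (Nat.land o H) 0)

theorem R0.nonneg {u K B0 mb : ℕ} {Y : ℕ → ℝ} (hY : ∀ k, 0 ≤ Y k) {n o : ℕ} {φ : ℝ}
    (h1 : 2 * B0 * geo (2 ^ (u + 1)) K ≤ (2 ^ (u + 1)) ^ K) (h2 : 2 * 2 ^ mb * B0 < 2 ^ u)
    (ho : okN (2 ^ u * geo (2 ^ (u + 1)) K) (2 ^ mb * (2 ^ (u + 1)) ^ K) o = true)
    (hs : Sub n o) (h : R0 (2 ^ (u + 1)) K B0 Y n φ) : 0 ≤ φ := by
  obtain ⟨c, M, a1, a2, a3⟩ := h
  set V := 2 ^ (u + 1) with hV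
  unfold okN at ho
  cases hb : Nat.beq (Nat.land o (2 ^ u * geo V K)) 0 with
  | false => rw [hb] at ho; cases ho
  | true =>
  rw [hb] at ho
  have b1 : o &&& (2 ^ u * geo V K) = 0 := Nat.eq_of_beq_eq_true hb
  have b2 : o ≤ 2 ^ mb * V ^ K := Nat.le_of_ble_eq_true ho
  have b3 : n ≤ o := Nat.le_of_testBit hs
  have hVK : (0 : ℤ) < (V : ℤ) ^ K := by positivity
  have hM : M ≤ 2 * 2 ^ mb := by
    have l1 : -((M * B0 : ℤ) * ∑ k ∈ range K, (V : ℤ) ^ k) ≤ ∑ k ∈ range K, c k * (V : ℤ) ^ k := by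
      rw [mul_sum, ← sum_neg_distrib]
      refine sum_le_sum fun k _ => ?_
      have := (abs_le.mp (a2 k)).1
      have hp : (0 : ℤ) ≤ (V : ℤ) ^ k := by positivity
      nlinarith
    rw [← geo_eq] at l1
    have l2 : (2 * B0 * geo V K : ℤ) ≤ (V : ℤ) ^ K := by exact_mod_cast h1
    have l3 : (n : ℤ) ≤ 2 ^ mb * (V : ℤ) ^ K := by exact_mod_cast b3.trans b2
    have l4 : (M : ℤ) * (V : ℤ) ^ K ≤ (2 * 2 ^ mb) * (V : ℤ) ^ K := by
      have := mul_le_mul_of_nonneg_left l2 (Int.natCast_nonneg M)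
      nlinarith
    exact_mod_cast le_of_mul_le_mul_right l4 hVK
  have hc : ∀ k, |c k| < (2 ^ u : ℕ) := fun k => by
    refine (a2 k).trans_lt ?_
    have : M * B0 < 2 ^ u := lt_of_le_of_lt (Nat.mul_le_mul_right _ hM) h2
    exact_mod_cast this
  have hpos := digits_nonneg (V := V) (h := 2 ^ u) (by rw [hV]; ring) K n c M a1 hc (fun k hk => by
    have t1 : ∀ x : ℕ, (x / V ^ k % V).testBit u = x.testBit (u + (u + 1) * k) := fun x => by
      rw [hV, ← pow_mul, Nat.testBit_mod_two_pow, Nat.testBit_div_two_pow]; simp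
    have t2 : (2 ^ u * geo V K).testBit (u + (u + 1) * k) = true := by
      rw [← t1, geo_digit (by rw [hV]; exact Nat.pow_lt_pow_right (by norm_num) (by omega)) k K hk,
        Nat.testBit_two_pow_self]
    have t3 : o.testBit (u + (u + 1) * k) = false := by
      have := Nat.testBit_and o (2 ^ u * geo V K) (u + (u + 1) * k)
      rw [b1, t2] at this
      simpa using this.symm
    have t4 : n.testBit (u + (u + 1) * k) = false := by
      cases hh : n.testBit (u + (u + 1) * k)
      · rfl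
      · rw [hs _ hh] at t3; cases t3
    refine Nat.lt_pow_two_of_testBit _ fun i hi => ?_
    rcases eq_or_lt_of_le hi with rfl | hlt
    · rw [t1, t4]
    · refine Nat.testBit_lt_two_pow (lt_of_lt_of_le (Nat.mod_lt _ (by positivity)) ?_)
      exact Nat.pow_le_pow_right (by norm_num) hlt)
  rw [a3]
  exact sum_nonneg fun k hk => mul_nonneg (by exact_mod_cast hpos k (mem_range.mp hk)) (hY k)

section root
open Polynomial

theorem map_wts {R S : Type} [CommSemiring R] [CommSemiring S] (φ : R →+* S) (A B : R) (n : ℕ) :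
    (wts A B n).map φ = wts (φ A) (φ B) n := by
  induction n with
  | zero => simp [wts]
  | succ n ih => simp only [wts, List.map_cons, map_pow, ← ih, List.map_map]; congr 1; simp

theorem map_dot {R S : Type} [CommSemiring R] [CommSemiring S] (φ : R →+* S) (ws p : List R) :
    φ (dot ws p) = dot (ws.map φ) (p.map φ) := by
  induction ws generalizing p with
  | nil => simp
  | cons w ws ih => cases p <;> simp [ih]

theorem length_wts {R : Type} [CommSemiring R] (A B : R) (n : ℕ) : (wts A B n).length = n + 1 := by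
  induction n with
  | zero => rfl
  | succ n ih => simp [wts, ih]

theorem dot_le {R : Type} [CommSemiring R] (c u : R) (ws r : List R)
    (h : ∀ a ∈ r, ∃ q, a + q = c * u) :
    ∃ q, dot ws r + q = c * dot ws (List.replicate ws.length u) := by
  induction ws generalizing r with
  | nil => exact ⟨0, by simp⟩
  | cons w ws ih => cases r with
    | nil => exact ⟨_, by rw [dot_nil_right, zero_add]⟩
    | cons a r =>
      obtain ⟨q, hq⟩ := h a (by simp)
      obtain ⟨q', hq'⟩ := ih r (fun b hb => h b (by simp [hb]))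
      refine ⟨w * q + q', ?_⟩
      simp only [List.length_cons, List.replicate_succ, dot_cons, mul_add, ← hq', mul_left_comm c w u,
        ← hq]
      ring

theorem natDegree_dot {A B : ℕ[X]} {e f : ℕ} (hA : A.natDegree ≤ e) (hB : B.natDegree ≤ e) (n : ℕ)
    (gs : List ℕ[X]) (h : ∀ g ∈ gs, g.natDegree ≤ f) :
    (dot (wts A B n) gs).natDegree ≤ n * e + f := by
  induction n generalizing gs with
  | zero => cases gs with
    | nil => simp
    | cons g gs => simpa [dot_wts_zero] using h g (by simp)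
  | succ n ih => cases gs with
    | nil => simp
    | cons g gs =>
      rw [dot_wts_succ]
      refine natDegree_add_le_of_degree_le (natDegree_mul_le.trans ?_) (natDegree_mul_le.trans ?_)
      · have := natDegree_pow_le_of_le (n + 1) hB
        have := h g (by simp)
        omega
      · have := ih gs (fun b hb => h b (by simp [hb]))
        rw [Nat.succ_mul]; omega

/-- A form in two pairs of variables with natural coefficients. -/
def vv {R : Type} [CommSemiring R] (A B C E : R) (nt nd : ℕ) (D : List (List ℕ)) : R :=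
  dot (wts A B nt) (D.map fun r => dot (wts C E nd) (r.map Nat.cast))

theorem map_vv {R S : Type} [CommSemiring R] [CommSemiring S] (φ : R →+* S) (A B C E : R)
    (nt nd : ℕ) (D : List (List ℕ)) :
    φ (vv A B C E nt nd D) = vv (φ A) (φ B) (φ C) (φ E) nt nd D := by
  simp only [vv, map_dot, map_wts, List.map_map]
  congr 2
  funext r
  simp only [Function.comp, map_dot, map_wts, List.map_map]
  congr 2
  funext a
  simp

/-- The weights of the digits. -/
def YY (m : ℕ) (yT yD : ℝ) (k : ℕ) : ℝ := yT ^ (k / m) * yD ^ (k % m)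

def psi (Y : ℕ → ℝ) (p : ℕ[X]) : ℝ := p.sum fun k a => (a : ℝ) * Y k

theorem psi_add (Y : ℕ → ℝ) (p q : ℕ[X]) : psi Y (p + q) = psi Y p + psi Y q :=
  sum_add_index _ _ _ (by simp) (by intro k a b; push_cast; ring)

theorem psi_monomial (Y : ℕ → ℝ) (k a : ℕ) : psi Y (monomial k a) = a * Y k :=
  sum_monomial_index _ _ (by simp)

theorem psi_range (Y : ℕ → ℝ) (p : ℕ[X]) {K : ℕ} (h : p.natDegree < K) :
    psi Y p = ∑ k ∈ range K, (p.coeff k : ℝ) * Y k := sum_over_range' _ (by simp) _ h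

theorem psi_lin {m : ℕ} (hm : 0 < m) (yT yD : ℝ) (a b : ℕ) (p : ℕ[X]) :
    psi (YY m yT yD) ((C a + C b * X ^ m) * p) = (a + b * yT) * psi (YY m yT yD) p := by
  induction p using Polynomial.induction_on' with
  | add p q hp hq => rw [mul_add, psi_add, psi_add, hp, hq]; ring
  | monomial k c =>
    rw [add_mul, mul_assoc, X_pow_mul_monomial, C_mul_monomial, C_mul_monomial, psi_add,
      psi_monomial, psi_monomial, psi_monomial]
    simp only [YY, Nat.add_div_right _ hm, Nat.add_mod_right]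
    push_cast; ring

theorem psi_low {m : ℕ} (yT yD : ℝ) (p : ℕ[X]) (h : p.natDegree < m) :
    psi (YY m yT yD) p = eval₂RingHom (Nat.castRingHom ℝ) yD p := by
  rw [psi_range _ _ h, coe_eval₂RingHom, eval₂_eq_sum_range' _ h]
  refine sum_congr rfl fun k hk => ?_
  have := mem_range.mp hk
  simp [YY, Nat.div_eq_of_lt this, Nat.mod_eq_of_lt this]

theorem psi_dot {Y : ℕ → ℝ} {A B : ℕ[X]} {a b : ℝ} (hA : ∀ p, psi Y (A * p) = a * psi Y p)
    (hB : ∀ p, psi Y (B * p) = b * psi Y p) (n : ℕ) (gs : List ℕ[X]) :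
    psi Y (dot (wts A B n) gs) = dot (wts a b n) (gs.map (psi Y)) := by
  have hp : ∀ k p, psi Y (B ^ k * p) = b ^ k * psi Y p := by
    intro k p
    induction k with
    | zero => simp
    | succ k ih => rw [pow_succ', mul_assoc, hB, ih]; ring
  induction n generalizing gs with
  | zero => cases gs with
    | nil => simp [psi]
    | cons g gs => simp [dot_wts_zero]
  | succ n ih => cases gs with
    | nil => simp [psi]
    | cons g gs => rw [List.map_cons, dot_wts_succ, dot_wts_succ, psi_add, hp, hA, ih]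

/-- The all-ones array. -/
def on2 (nt nd : ℕ) : List (List ℕ) := List.replicate (nt + 1) (List.replicate (nd + 1) 1)

theorem R0.root (V nt nd M0 a a' b b' c c' e e' : ℕ) (yT yD : ℝ) (D : List (List ℕ))
    (hD : ∀ r ∈ D, ∀ x ∈ r, x ≤ 2 * M0)
    (h : M0 * vv (a + a' * V ^ (nd + 1)) (b + b' * V ^ (nd + 1)) (c + c' * V) (e + e' * V) nt nd
      (on2 nt nd) ≤ V ^ ((nt + 1) * (nd + 1))) :
    R0 V ((nt + 1) * (nd + 1)) (M0 * vv (a + a') (b + b') (c + c') (e + e') nt nd (on2 nt nd))
      (YY (nd + 1) yT yD)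
      (vv (a + a' * V ^ (nd + 1)) (b + b' * V ^ (nd + 1)) (c + c' * V) (e + e' * V) nt nd D +
        (V ^ ((nt + 1) * (nd + 1)) - M0 * vv (a + a' * V ^ (nd + 1)) (b + b' * V ^ (nd + 1))
          (c + c' * V) (e + e' * V) nt nd (on2 nt nd)))
      (vv (a + a' * yT) (b + b' * yT) (c + c' * yD) (e + e' * yD) nt nd D -
        M0 * vv (a + a' * yT) (b + b' * yT) (c + c' * yD) (e + e' * yD) nt nd (on2 nt nd)) := by
  set F : List (List ℕ) → ℕ[X] := vv (C a + C a' * X ^ (nd + 1)) (C b + C b' * X ^ (nd + 1))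
    (C c + C c' * X ^ 1) (C e + C e' * X ^ 1) nt nd with hF
  have lin : ∀ x y k : ℕ, (C x + C y * X ^ k : ℕ[X]).natDegree ≤ k := fun x y k =>
    natDegree_add_le_of_degree_le (by simp) (natDegree_C_mul_X_pow_le _ _)
  have inner : ∀ r : List ℕ, (dot (wts (C c + C c' * X ^ 1) (C e + C e' * X ^ 1 : ℕ[X]) nd)
      (r.map Nat.cast)).natDegree ≤ nd := fun r => by
    have := natDegree_dot (f := 0) (lin c c' 1) (lin e e' 1) nd (r.map Nat.cast) (by
      intro g hg
      obtain ⟨x, -, rfl⟩ := List.mem_map.mp hg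
      simp)
    simpa using this
  have deg : ∀ D, (F D).natDegree < (nt + 1) * (nd + 1) := fun D => by
    have := natDegree_dot (f := nd) (lin a a' (nd + 1)) (lin b b' (nd + 1)) nt
      (D.map fun r => dot (wts (C c + C c' * X ^ 1) (C e + C e' * X ^ 1) nd) (r.map Nat.cast)) (by
      intro g hg
      obtain ⟨x, -, rfl⟩ := List.mem_map.mp hg
      exact inner x)
    refine lt_of_le_of_lt this ?_
    rw [Nat.succ_mul]; omega
  have ev : ∀ (W : ℕ) D, vv (a + a' * W ^ (nd + 1)) (b + b' * W ^ (nd + 1)) (c + c' * W)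
      (e + e' * W) nt nd D = ∑ k ∈ range ((nt + 1) * (nd + 1)), (F D).coeff k * W ^ k := fun W D => by
    rw [← eval_eq_sum_range' (deg D)]
    have := map_vv (evalRingHom W) (C a + C a' * X ^ (nd + 1)) (C b + C b' * X ^ (nd + 1))
      (C c + C c' * X ^ 1) (C e + C e' * X ^ 1) nt nd D
    simpa [hF] using this.symm
  have ps : ∀ D, vv (a + a' * yT) (b + b' * yT) (c + c' * yD) (e + e' * yD) nt nd D =
      ∑ k ∈ range ((nt + 1) * (nd + 1)), ((F D).coeff k : ℝ) * YY (nd + 1) yT yD k := fun D => by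
    rw [← psi_range _ _ (deg D), hF, vv, vv,
      psi_dot (psi_lin (by omega) yT yD a a') (psi_lin (by omega) yT yD b b'), List.map_map]
    congr 2
    funext r
    simp only [Function.comp]
    rw [psi_low _ _ _ (Nat.lt_succ_of_le (inner r)), map_dot, map_wts, List.map_map]
    congr 2
    · simp
    · simp
    · funext x; simp
  have le : ∃ q, F D + q = (2 * M0 : ℕ) * F (on2 nt nd) := by
    have := dot_le ((2 * M0 : ℕ) : ℕ[X]) (dot (wts (C c + C c' * X ^ 1) (C e + C e' * X ^ 1) nd)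
      (List.replicate (nd + 1) 1)) (wts (C a + C a' * X ^ (nd + 1)) (C b + C b' * X ^ (nd + 1)) nt)
      (D.map fun r => dot (wts (C c + C c' * X ^ 1) (C e + C e' * X ^ 1) nd) (r.map Nat.cast)) (by
        intro g hg
        obtain ⟨r, hr, rfl⟩ := List.mem_map.mp hg
        have := dot_le ((2 * M0 : ℕ) : ℕ[X]) 1 (wts (C c + C c' * X ^ 1) (C e + C e' * X ^ 1) nd)
          (r.map Nat.cast) (by
            intro g hg
            obtain ⟨x, hx, rfl⟩ := List.mem_map.mp hg
            obtain ⟨q, hq⟩ := Nat.exists_eq_add_of_le (hD r hr x hx)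
            exact ⟨q, by rw [hq]; simp⟩)
        rwa [length_wts] at this)
    rw [length_wts] at this
    simpa [hF, vv, on2] using this
  obtain ⟨q, hq⟩ := le
  refine ⟨fun k => (F D).coeff k - M0 * (F (on2 nt nd)).coeff k, 1, ?_, fun k => ?_, ?_⟩
  · rw [Nat.cast_add, Nat.cast_sub h, ev, ev]
    push_cast
    simp only [sub_mul, sum_sub_distrib, mul_sum, mul_assoc]; ring
  · have h1 := congrArg (fun p => coeff p k) hq
    simp only [coeff_add, coeff_natCast_mul, Nat.cast_id] at h1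
    have h2 : (F (on2 nt nd)).coeff k ≤ vv (a + a') (b + b') (c + c') (e + e') nt nd (on2 nt nd) := by
      have := ev 1 (on2 nt nd)
      simp only [one_pow, mul_one] at this
      rw [this]
      by_cases hk : k < (nt + 1) * (nd + 1)
      · exact single_le_sum (f := fun k => (F (on2 nt nd)).coeff k) (fun _ _ => Nat.zero_le _)
          (mem_range.mpr hk)
      · rw [coeff_eq_zero_of_natDegree_lt (lt_of_lt_of_le (deg _) (not_lt.mp hk))]
        exact Nat.zero_le _
    have h3 := Nat.mul_le_mul_left M0 h2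
    have h4 : (F D).coeff k ≤ 2 * (M0 * (F (on2 nt nd)).coeff k) := by
      rw [← mul_assoc, ← h1]; omega
    beta_reduce
    rw [abs_le]
    constructor <;> omega
  · rw [ps, ps, mul_sum, ← sum_sub_distrib]
    refine sum_congr rfl fun k _ => ?_
    push_cast; ring

end root

end

end Pool.Agent.MP_8fe08c_co.h82
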