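import Pool.Agent.MP_8fe08c_co.h82.Poly

set_option autoImplicit false

namespace Pool.Agent.MP_8fe08c_co.h82

noncomputable section

def snn (m n : ℕ) : ℤ :=
  Bool.rec (Int.negSucc (Nat.sub (Nat.sub n m) 1)) (Int.ofNat (Nat.sub m n)) (Nat.ble n m)

def iadd (a b : ℤ) : ℤ :=
  Int.rec (fun m => Int.rec (fun n => Int.ofNat (Nat.add m n)) (fun n => snn m (Nat.add n 1)) b)
    (fun m => Int.rec (fun n => snn n (Nat.add m 1))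
      (fun n => Int.negSucc (Nat.add (Nat.add m n) 1)) b) a

def ngN (k : ℕ) : ℤ := Nat.rec (Int.ofNat 0) (fun p _ => Int.negSucc p) k

def imul (a b : ℤ) : ℤ :=
  Int.rec (fun m => Int.rec (fun n => Int.ofNat (Nat.mul m n))
      (fun n => ngN (Nat.mul m (Nat.add n 1))) b)
    (fun m => Int.rec (fun n => ngN (Nat.mul (Nat.add m 1) n))
      (fun n => Int.ofNat (Nat.mul (Nat.add m 1) (Nat.add n 1))) b) a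

theorem snn_eq (m n : ℕ) : snn m n = (m : ℤ) - n := by
  unfold snn
  cases h : Nat.ble n m
  · have : ¬ n ≤ m := fun h' => by rw [Nat.ble_eq_true_of_le h'] at h; cases h
    simp only [Nat.sub_eq, Int.negSucc_eq]; omega
  · have := Nat.le_of_ble_eq_true h
    simp only [Nat.sub_eq, Int.ofNat_eq_natCast]; omega

theorem iadd_eq (a b : ℤ) : iadd a b = a + b := by
  cases a <;> cases b <;> simp only [iadd, snn_eq, Nat.add_eq, Int.ofNat_eq_natCast, Int.negSucc_eq] <;>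
    push_cast <;> ring

theorem ngN_eq (k : ℕ) : ngN k = -(k : ℤ) := by
  cases k
  · rfl
  · rfl

theorem imul_eq (a b : ℤ) : imul a b = a * b := by
  cases a <;> cases b <;>
    simp only [imul, ngN_eq, Nat.add_eq, Nat.mul_eq, Int.ofNat_eq_natCast, Int.negSucc_eq] <;>
    push_cast <;> ring

section ops
variable {α : Type} (add : α → α → α) (sm : ℤ → α → α) (z : α)

def pl (n : ℕ) (p : List α) : List α := addL add (z :: p) (tk p (n + 1))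
def mi (n : ℕ) (p : List α) : List α := addL add (z :: p) (mp (sm (Int.negSucc 0)) (tk p (n + 1)))
def ab (n : ℕ) (p : List α) : List α := z :: tk p (n + 1)
def sq (n : ℕ) (p : List α) : List α := addL add (z :: z :: p) (tk p (n + 1))
def bb (n : ℕ) (p : List α) : List α := tk p (n + 1)

variable {add sm z} {f : α → ℝ} (ha : ∀ a b, f (add a b) = f a + f b)
  (hs : ∀ c a, f (sm c a) = c * f a) (hz : f z = 0) (A B : ℝ) (n : ℕ) (p : List α)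

include ha hz in
theorem evH_pl : evH f A B (n + 1) (pl add z n p) = (A + B) * evH f A B n p := by
  rw [pl, evH_addL ha, evH_cons_zero hz, evH_tk]; ring

include ha hs hz in
theorem evH_mi : evH f A B (n + 1) (mi add sm z n p) = (A - B) * evH f A B n p := by
  rw [mi, evH_addL ha, evH_cons_zero hz, evH_mp (hs _), evH_tk]; simp; ring

include hz in
theorem evH_ab : evH f A B (n + 2) (ab z n p) = (A * B) * evH f A B n p := by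
  rw [ab, evH_cons_zero hz, evH_tk]; ring

include ha hz in
theorem evH_sq : evH f A B (n + 2) (sq add z n p) = (A ^ 2 + B ^ 2) * evH f A B n p := by
  rw [sq, evH_addL ha, evH_cons_zero hz, evH_cons_zero hz, evH_tk]; ring

theorem evH_bb : evH f A B (n + 1) (bb n p) = B * evH f A B n p := by
  rw [bb, evH_tk]; ring

end ops

abbrev T1 : Type := List ℤ
abbrev T2 : Type := List T1
abbrev T3 : Type := List T2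
abbrev T4 : Type := List T3

def a1 : T1 → T1 → T1 := addL iadd
def a2 : T2 → T2 → T2 := addL a1
def a3 : T3 → T3 → T3 := addL a2
def a4 : T4 → T4 → T4 := addL a3
def s1 (c : ℤ) : T1 → T1 := mp (imul c)
def s2 (c : ℤ) : T2 → T2 := mp (s1 c)
def s3 (c : ℤ) : T3 → T3 := mp (s2 c)
def s4 (c : ℤ) : T4 → T4 := mp (s3 c)

def e0 (a : ℤ) : ℝ := a
def e1 (Ad Bd : ℝ) (n4 : ℕ) : T1 → ℝ := evH e0 Ad Bd n4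
def e2 (At Bt Ad Bd : ℝ) (n3 n4 : ℕ) : T2 → ℝ := evH (e1 Ad Bd n4) At Bt n3
def e3 (Az Bz At Bt Ad Bd : ℝ) (n2 n3 n4 : ℕ) : T3 → ℝ := evH (e2 At Bt Ad Bd n3 n4) Az Bz n2
def e4 (Ax Bx Az Bz At Bt Ad Bd : ℝ) (n1 n2 n3 n4 : ℕ) : T4 → ℝ :=
  evH (e3 Az Bz At Bt Ad Bd n2 n3 n4) Ax Bx n1

variable (Ax Bx Az Bz At Bt Ad Bd : ℝ) (n1 n2 n3 n4 n : ℕ)

theorem e0_a (a b : ℤ) : e0 (iadd a b) = e0 a + e0 b := by simp [e0, iadd_eq]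
theorem e0_s (c a : ℤ) : e0 (imul c a) = c * e0 a := by simp [e0, imul_eq]
theorem e0_z : e0 0 = 0 := by simp [e0]
theorem e1_a (a b : T1) : e1 Ad Bd n4 (a1 a b) = e1 Ad Bd n4 a + e1 Ad Bd n4 b :=
  evH_addL e0_a _ _ _ a b
theorem e1_s (c : ℤ) (a : T1) : e1 Ad Bd n4 (s1 c a) = c * e1 Ad Bd n4 a :=
  evH_mp (e0_s c) _ _ _ a
theorem e1_z : e1 Ad Bd n4 [] = 0 := evH_nil _ _ _ _
theorem e2_a (a b : T2) : e2 At Bt Ad Bd n3 n4 (a2 a b) = e2 At Bt Ad Bd n3 n4 a + e2 At Bt Ad Bd n3 n4 b :=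
  evH_addL (e1_a _ _ _) _ _ _ a b
theorem e2_s (c : ℤ) (a : T2) : e2 At Bt Ad Bd n3 n4 (s2 c a) = c * e2 At Bt Ad Bd n3 n4 a :=
  evH_mp (e1_s _ _ _ c) _ _ _ a
theorem e2_z : e2 At Bt Ad Bd n3 n4 [] = 0 := evH_nil _ _ _ _
theorem e3_a (a b : T3) : e3 Az Bz At Bt Ad Bd n2 n3 n4 (a3 a b) = e3 Az Bz At Bt Ad Bd n2 n3 n4 a + e3 Az Bz At Bt Ad Bd n2 n3 n4 b :=
  evH_addL (e2_a _ _ _ _ _ _) _ _ _ a b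
theorem e3_s (c : ℤ) (a : T3) : e3 Az Bz At Bt Ad Bd n2 n3 n4 (s3 c a) = c * e3 Az Bz At Bt Ad Bd n2 n3 n4 a :=
  evH_mp (e2_s _ _ _ _ _ _ c) _ _ _ a
theorem e3_z : e3 Az Bz At Bt Ad Bd n2 n3 n4 [] = 0 := evH_nil _ _ _ _
theorem e4_a (a b : T4) : e4 Ax Bx Az Bz At Bt Ad Bd n1 n2 n3 n4 (a4 a b) = e4 Ax Bx Az Bz At Bt Ad Bd n1 n2 n3 n4 a + e4 Ax Bx Az Bz At Bt Ad Bd n1 n2 n3 n4 b :=
  evH_addL (e3_a _ _ _ _ _ _ _ _ _) _ _ _ a b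
theorem e4_s (c : ℤ) (a : T4) : e4 Ax Bx Az Bz At Bt Ad Bd n1 n2 n3 n4 (s4 c a) = c * e4 Ax Bx Az Bz At Bt Ad Bd n1 n2 n3 n4 a :=
  evH_mp (e3_s _ _ _ _ _ _ _ _ _ c) _ _ _ a
theorem e4_z : e4 Ax Bx Az Bz At Bt Ad Bd n1 n2 n3 n4 [] = 0 := evH_nil _ _ _ _
def abd1 (n : ℕ) : T1 → T1 := ab 0 n
theorem e_abd1 (p : T1) : e1 Ad Bd (n + 2) (abd1 n p) =
    (Ad * Bd) * e1 Ad Bd n p :=
  evH_ab e0_z _ _ _ p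
def abd2 (n : ℕ) : T2 → T2 := mp (abd1 n)
theorem e_abd2 (p : T2) : e2 At Bt Ad Bd n3 (n + 2) (abd2 n p) =
    (Ad * Bd) * e2 At Bt Ad Bd n3 n p :=
  evH_mp (e_abd1 _ _ _) _ _ _ p
def abd3 (n : ℕ) : T3 → T3 := mp (abd2 n)
theorem e_abd3 (p : T3) : e3 Az Bz At Bt Ad Bd n2 n3 (n + 2) (abd3 n p) =
    (Ad * Bd) * e3 Az Bz At Bt Ad Bd n2 n3 n p :=
  evH_mp (e_abd2 _ _ _ _ _ _) _ _ _ p
def abd4 (n : ℕ) : T4 → T4 := mp (abd3 n)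
theorem e_abd4 (p : T4) : e4 Ax Bx Az Bz At Bt Ad Bd n1 n2 n3 (n + 2) (abd4 n p) =
    (Ad * Bd) * e4 Ax Bx Az Bz At Bt Ad Bd n1 n2 n3 n p :=
  evH_mp (e_abd3 _ _ _ _ _ _ _ _ _) _ _ _ p
def abz3 (n : ℕ) : T3 → T3 := ab [] n
theorem e_abz3 (p : T3) : e3 Az Bz At Bt Ad Bd (n + 2) n3 n4 (abz3 n p) =
    (Az * Bz) * e3 Az Bz At Bt Ad Bd n n3 n4 p :=
  evH_ab (e2_z _ _ _ _ _ _) _ _ _ p
def abz4 (n : ℕ) : T4 → T4 := mp (abz3 n)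
theorem e_abz4 (p : T4) : e4 Ax Bx Az Bz At Bt Ad Bd n1 (n + 2) n3 n4 (abz4 n p) =
    (Az * Bz) * e4 Ax Bx Az Bz At Bt Ad Bd n1 n n3 n4 p :=
  evH_mp (e_abz3 _ _ _ _ _ _ _ _ _) _ _ _ p
def abx4 (n : ℕ) : T4 → T4 := ab [] n
theorem e_abx4 (p : T4) : e4 Ax Bx Az Bz At Bt Ad Bd (n + 2) n2 n3 n4 (abx4 n p) =
    (Ax * Bx) * e4 Ax Bx Az Bz At Bt Ad Bd n n2 n3 n4 p :=
  evH_ab (e3_z _ _ _ _ _ _ _ _ _) _ _ _ p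
def bbd1 (n : ℕ) : T1 → T1 := bb n
theorem e_bbd1 (p : T1) : e1 Ad Bd (n + 1) (bbd1 n p) =
    Bd * e1 Ad Bd n p :=
  evH_bb _ _ _ p
def bbd2 (n : ℕ) : T2 → T2 := mp (bbd1 n)
theorem e_bbd2 (p : T2) : e2 At Bt Ad Bd n3 (n + 1) (bbd2 n p) =
    Bd * e2 At Bt Ad Bd n3 n p :=
  evH_mp (e_bbd1 _ _ _) _ _ _ p
def bbd3 (n : ℕ) : T3 → T3 := mp (bbd2 n)
theorem e_bbd3 (p : T3) : e3 Az Bz At Bt Ad Bd n2 n3 (n + 1) (bbd3 n p) =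
    Bd * e3 Az Bz At Bt Ad Bd n2 n3 n p :=
  evH_mp (e_bbd2 _ _ _ _ _ _) _ _ _ p
def bbd4 (n : ℕ) : T4 → T4 := mp (bbd3 n)
theorem e_bbd4 (p : T4) : e4 Ax Bx Az Bz At Bt Ad Bd n1 n2 n3 (n + 1) (bbd4 n p) =
    Bd * e4 Ax Bx Az Bz At Bt Ad Bd n1 n2 n3 n p :=
  evH_mp (e_bbd3 _ _ _ _ _ _ _ _ _) _ _ _ p
def bbt2 (n : ℕ) : T2 → T2 := bb n
theorem e_bbt2 (p : T2) : e2 At Bt Ad Bd (n + 1) n4 (bbt2 n p) =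
    Bt * e2 At Bt Ad Bd n n4 p :=
  evH_bb _ _ _ p
def bbt3 (n : ℕ) : T3 → T3 := mp (bbt2 n)
theorem e_bbt3 (p : T3) : e3 Az Bz At Bt Ad Bd n2 (n + 1) n4 (bbt3 n p) =
    Bt * e3 Az Bz At Bt Ad Bd n2 n n4 p :=
  evH_mp (e_bbt2 _ _ _ _ _ _) _ _ _ p
def bbt4 (n : ℕ) : T4 → T4 := mp (bbt3 n)
theorem e_bbt4 (p : T4) : e4 Ax Bx Az Bz At Bt Ad Bd n1 n2 (n + 1) n4 (bbt4 n p) =
    Bt * e4 Ax Bx Az Bz At Bt Ad Bd n1 n2 n n4 p :=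
  evH_mp (e_bbt3 _ _ _ _ _ _ _ _ _) _ _ _ p
def bbz3 (n : ℕ) : T3 → T3 := bb n
theorem e_bbz3 (p : T3) : e3 Az Bz At Bt Ad Bd (n + 1) n3 n4 (bbz3 n p) =
    Bz * e3 Az Bz At Bt Ad Bd n n3 n4 p :=
  evH_bb _ _ _ p
def bbz4 (n : ℕ) : T4 → T4 := mp (bbz3 n)
theorem e_bbz4 (p : T4) : e4 Ax Bx Az Bz At Bt Ad Bd n1 (n + 1) n3 n4 (bbz4 n p) =
    Bz * e4 Ax Bx Az Bz At Bt Ad Bd n1 n n3 n4 p :=
  evH_mp (e_bbz3 _ _ _ _ _ _ _ _ _) _ _ _ p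
def bbx4 (n : ℕ) : T4 → T4 := bb n
theorem e_bbx4 (p : T4) : e4 Ax Bx Az Bz At Bt Ad Bd (n + 1) n2 n3 n4 (bbx4 n p) =
    Bx * e4 Ax Bx Az Bz At Bt Ad Bd n n2 n3 n4 p :=
  evH_bb _ _ _ p
def mid1 (n : ℕ) : T1 → T1 := mi iadd imul 0 n
theorem e_mid1 (p : T1) : e1 Ad Bd (n + 1) (mid1 n p) =
    (Ad - Bd) * e1 Ad Bd n p :=
  evH_mi e0_a e0_s e0_z _ _ _ p
def mid2 (n : ℕ) : T2 → T2 := mp (mid1 n)
theorem e_mid2 (p : T2) : e2 At Bt Ad Bd n3 (n + 1) (mid2 n p) =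
    (Ad - Bd) * e2 At Bt Ad Bd n3 n p :=
  evH_mp (e_mid1 _ _ _) _ _ _ p
def mid3 (n : ℕ) : T3 → T3 := mp (mid2 n)
theorem e_mid3 (p : T3) : e3 Az Bz At Bt Ad Bd n2 n3 (n + 1) (mid3 n p) =
    (Ad - Bd) * e3 Az Bz At Bt Ad Bd n2 n3 n p :=
  evH_mp (e_mid2 _ _ _ _ _ _) _ _ _ p
def mid4 (n : ℕ) : T4 → T4 := mp (mid3 n)
theorem e_mid4 (p : T4) : e4 Ax Bx Az Bz At Bt Ad Bd n1 n2 n3 (n + 1) (mid4 n p) =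
    (Ad - Bd) * e4 Ax Bx Az Bz At Bt Ad Bd n1 n2 n3 n p :=
  evH_mp (e_mid3 _ _ _ _ _ _ _ _ _) _ _ _ p
def miz3 (n : ℕ) : T3 → T3 := mi a2 s2 [] n
theorem e_miz3 (p : T3) : e3 Az Bz At Bt Ad Bd (n + 1) n3 n4 (miz3 n p) =
    (Az - Bz) * e3 Az Bz At Bt Ad Bd n n3 n4 p :=
  evH_mi (e2_a _ _ _ _ _ _) (e2_s _ _ _ _ _ _) (e2_z _ _ _ _ _ _) _ _ _ p
def miz4 (n : ℕ) : T4 → T4 := mp (miz3 n)
theorem e_miz4 (p : T4) : e4 Ax Bx Az Bz At Bt Ad Bd n1 (n + 1) n3 n4 (miz4 n p) =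
    (Az - Bz) * e4 Ax Bx Az Bz At Bt Ad Bd n1 n n3 n4 p :=
  evH_mp (e_miz3 _ _ _ _ _ _ _ _ _) _ _ _ p
def mix4 (n : ℕ) : T4 → T4 := mi a3 s3 [] n
theorem e_mix4 (p : T4) : e4 Ax Bx Az Bz At Bt Ad Bd (n + 1) n2 n3 n4 (mix4 n p) =
    (Ax - Bx) * e4 Ax Bx Az Bz At Bt Ad Bd n n2 n3 n4 p :=
  evH_mi (e3_a _ _ _ _ _ _ _ _ _) (e3_s _ _ _ _ _ _ _ _ _) (e3_z _ _ _ _ _ _ _ _ _) _ _ _ p
def pld1 (n : ℕ) : T1 → T1 := pl iadd 0 n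
theorem e_pld1 (p : T1) : e1 Ad Bd (n + 1) (pld1 n p) =
    (Ad + Bd) * e1 Ad Bd n p :=
  evH_pl e0_a e0_z _ _ _ p
def pld2 (n : ℕ) : T2 → T2 := mp (pld1 n)
theorem e_pld2 (p : T2) : e2 At Bt Ad Bd n3 (n + 1) (pld2 n p) =
    (Ad + Bd) * e2 At Bt Ad Bd n3 n p :=
  evH_mp (e_pld1 _ _ _) _ _ _ p
def pld3 (n : ℕ) : T3 → T3 := mp (pld2 n)
theorem e_pld3 (p : T3) : e3 Az Bz At Bt Ad Bd n2 n3 (n + 1) (pld3 n p) =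
    (Ad + Bd) * e3 Az Bz At Bt Ad Bd n2 n3 n p :=
  evH_mp (e_pld2 _ _ _ _ _ _) _ _ _ p
def pld4 (n : ℕ) : T4 → T4 := mp (pld3 n)
theorem e_pld4 (p : T4) : e4 Ax Bx Az Bz At Bt Ad Bd n1 n2 n3 (n + 1) (pld4 n p) =
    (Ad + Bd) * e4 Ax Bx Az Bz At Bt Ad Bd n1 n2 n3 n p :=
  evH_mp (e_pld3 _ _ _ _ _ _ _ _ _) _ _ _ p
def plt2 (n : ℕ) : T2 → T2 := pl a1 [] n
theorem e_plt2 (p : T2) : e2 At Bt Ad Bd (n + 1) n4 (plt2 n p) =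
    (At + Bt) * e2 At Bt Ad Bd n n4 p :=
  evH_pl (e1_a _ _ _) (e1_z _ _ _) _ _ _ p
def plt3 (n : ℕ) : T3 → T3 := mp (plt2 n)
theorem e_plt3 (p : T3) : e3 Az Bz At Bt Ad Bd n2 (n + 1) n4 (plt3 n p) =
    (At + Bt) * e3 Az Bz At Bt Ad Bd n2 n n4 p :=
  evH_mp (e_plt2 _ _ _ _ _ _) _ _ _ p
def plt4 (n : ℕ) : T4 → T4 := mp (plt3 n)
theorem e_plt4 (p : T4) : e4 Ax Bx Az Bz At Bt Ad Bd n1 n2 (n + 1) n4 (plt4 n p) =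
    (At + Bt) * e4 Ax Bx Az Bz At Bt Ad Bd n1 n2 n n4 p :=
  evH_mp (e_plt3 _ _ _ _ _ _ _ _ _) _ _ _ p
def plz3 (n : ℕ) : T3 → T3 := pl a2 [] n
theorem e_plz3 (p : T3) : e3 Az Bz At Bt Ad Bd (n + 1) n3 n4 (plz3 n p) =
    (Az + Bz) * e3 Az Bz At Bt Ad Bd n n3 n4 p :=
  evH_pl (e2_a _ _ _ _ _ _) (e2_z _ _ _ _ _ _) _ _ _ p
def plz4 (n : ℕ) : T4 → T4 := mp (plz3 n)
theorem e_plz4 (p : T4) : e4 Ax Bx Az Bz At Bt Ad Bd n1 (n + 1) n3 n4 (plz4 n p) =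
    (Az + Bz) * e4 Ax Bx Az Bz At Bt Ad Bd n1 n n3 n4 p :=
  evH_mp (e_plz3 _ _ _ _ _ _ _ _ _) _ _ _ p
def plx4 (n : ℕ) : T4 → T4 := pl a3 [] n
theorem e_plx4 (p : T4) : e4 Ax Bx Az Bz At Bt Ad Bd (n + 1) n2 n3 n4 (plx4 n p) =
    (Ax + Bx) * e4 Ax Bx Az Bz At Bt Ad Bd n n2 n3 n4 p :=
  evH_pl (e3_a _ _ _ _ _ _ _ _ _) (e3_z _ _ _ _ _ _ _ _ _) _ _ _ p
def sqz3 (n : ℕ) : T3 → T3 := sq a2 [] n
theorem e_sqz3 (p : T3) : e3 Az Bz At Bt Ad Bd (n + 2) n3 n4 (sqz3 n p) =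
    (Az ^ 2 + Bz ^ 2) * e3 Az Bz At Bt Ad Bd n n3 n4 p :=
  evH_sq (e2_a _ _ _ _ _ _) (e2_z _ _ _ _ _ _) _ _ _ p
def sqz4 (n : ℕ) : T4 → T4 := mp (sqz3 n)
theorem e_sqz4 (p : T4) : e4 Ax Bx Az Bz At Bt Ad Bd n1 (n + 2) n3 n4 (sqz4 n p) =
    (Az ^ 2 + Bz ^ 2) * e4 Ax Bx Az Bz At Bt Ad Bd n1 n n3 n4 p :=
  evH_mp (e_sqz3 _ _ _ _ _ _ _ _ _) _ _ _ p
def sqx4 (n : ℕ) : T4 → T4 := sq a3 [] n
theorem e_sqx4 (p : T4) : e4 Ax Bx Az Bz At Bt Ad Bd (n + 2) n2 n3 n4 (sqx4 n p) =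
    (Ax ^ 2 + Bx ^ 2) * e4 Ax Bx Az Bz At Bt Ad Bd n n2 n3 n4 p :=
  evH_sq (e3_a _ _ _ _ _ _ _ _ _) (e3_z _ _ _ _ _ _ _ _ _) _ _ _ p

end

end Pool.Agent.MP_8fe08c_co.h82
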