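import Pool.Agent.MP_8fe08c_co.h82.Cast
import Pool.Agent.MP_8fe08c_co.h82.Ten

set_option autoImplicit false

namespace Pool.Agent.MP_8fe08c_co.h82

/-- Subdivision trees. -/
inductive Tr : Type
  | L : Tr
  | X : Tr → Tr → Tr
  | Z : Tr → Tr → Tr
  | a : Tr → Tr
  | b : Tr → Tr
  | c : Tr → Tr
  | d : Tr → Tr

def Tr.XL (l r : Tr) : Tr := .a (.X l r)
def Tr.XR (l r : Tr) : Tr := .b (.X l r)
def Tr.ZL (l r : Tr) : Tr := .c (.Z l r)
def Tr.ZR (l r : Tr) : Tr := .d (.Z l r)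

/-- A cell in the third variable. -/
structure Cl where
  (g dn a b mb : ℕ)
  t : Tr

noncomputable section

def band (a b : Bool) : Bool := Bool.rec false b a

theorem band_eq {a b : Bool} (h : band a b = true) : a = true ∧ b = true := by
  cases a
  · cases h
  · exact ⟨rfl, h⟩

abbrev Mat (α : Type) : Type := RX (RZ α)

def shl (k a : ℕ) : ℕ := Nat.shiftLeft a k

def run (H Big : ℕ) (t : Tr) : Mat ℕ → Bool :=
  Tr.rec (motive := fun _ => Mat ℕ → Bool) (fun T => okN H Big (RX.orr RZ.orr T))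
    (fun _ _ l r T => (fun p : Mat ℕ × Mat ℕ => band (l p.1) (r p.2)) (RX.lr (RZ.zip Nat.add) T))
    (fun _ _ l r T => band (l (RX.map (fun q => (RZ.lr Nat.add q).1) T))
      (r (RX.map (fun q => (RZ.lr Nat.add q).2) T)))
    (fun _ l T => l (RX.sL (fun k => RZ.map (fun a => Nat.shiftLeft a k)) T))
    (fun _ l T => l (RX.sR (fun k => RZ.map (fun a => Nat.shiftLeft a k)) T))
    (fun _ l T => l (RX.map (RZ.sL (fun k a => Nat.shiftLeft a k)) T))
    (fun _ l T => l (RX.map (RZ.sR (fun k a => Nat.shiftLeft a k)) T)) t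

def R1 (R : ℕ → ℝ → Prop) (A B : ℝ) (r : RZ ℕ) (φ : ℝ) : Prop :=
  ∃ u, RZ.rel R r u ∧ φ = RZ.ev A B u

def Good (R : ℕ → ℝ → Prop) (T : Mat ℕ) : Prop :=
  ∀ A B A' B' : ℝ, 0 ≤ A → 0 ≤ B → 0 ≤ A' → 0 ≤ B' → ∀ v, RX.rel (R1 R A' B') T v → 0 ≤ RX.ev A B v

theorem run_sound {R : ℕ → ℝ → Prop} {H Big : ℕ}
    (ha : ∀ a b u v, R a u → R b v → R (Nat.add a b) (u + v))
    (hs : ∀ k a u, R a u → R (Nat.shiftLeft a k) (2 ^ k * u))
    (hl : ∀ o, okN H Big o = true → ∀ a u, Sub a o → R a u → 0 ≤ u) (t : Tr) :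
    ∀ T, run H Big t T = true → Good R T := by
  have ha1 : ∀ A B a b u v, R1 R A B a u → R1 R A B b v → R1 R A B (RZ.zip Nat.add a b) (u + v) := by
    rintro A B a b _ _ ⟨u, h1, rfl⟩ ⟨v, h2, rfl⟩
    exact ⟨_, RZ.zip_rel ha h1 h2, (RZ.ev_zip A B u v).symm⟩
  have hs1 : ∀ A B k a u, R1 R A B a u →
      R1 R A B (RZ.map (fun a => Nat.shiftLeft a k) a) (2 ^ k * u) := by
    rintro A B k a _ ⟨u, h1, rfl⟩
    exact ⟨_, RZ.map_rel (hs k) h1, (RZ.ev_map A B _ u).symm⟩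
  induction t with
  | L =>
    intro T h A B A' B' hA hB hA' hB' v hv
    refine RX.ev_nonneg (f := RZ.orr) ?_ hA hB (Sub.refl _) hv
    rintro r _ k ⟨u, h1, rfl⟩
    exact RZ.ev_nonneg (hl _ h) hA' hB' k h1
  | X l r ihl ihr =>
    intro T h A B A' B' hA hB hA' hB' v hv
    obtain ⟨h1, h2⟩ := band_eq h
    obtain ⟨k1, k2⟩ := RX.lr_rel (ha1 A' B') hv
    rcases le_total A B with hAB | hAB
    · have := ihl _ h1 A (B - A) A' B' hA (by linarith) hA' hB' _ k1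
      rwa [RX.ev_l, add_sub_cancel] at this
    · have := ihr _ h2 (A - B) B A' B' (by linarith) hB hA' hB' _ k2
      rwa [RX.ev_r, sub_add_cancel] at this
  | Z l r ihl ihr =>
    intro T h A B A' B' hA hB hA' hB' v hv
    obtain ⟨h1, h2⟩ := band_eq h
    rcases le_total A' B' with hAB | hAB
    · refine ihl _ h1 A B A' (B' - A') hA hB hA' (by linarith) v (RX.rel_map ?_ hv)
      rintro r _ ⟨u, k, rfl⟩
      exact ⟨_, (RZ.lr_rel ha k).1, by rw [RZ.ev_l, add_sub_cancel]⟩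
    · refine ihr _ h2 A B (A' - B') B' hA hB (by linarith) hB' v (RX.rel_map ?_ hv)
      rintro r _ ⟨u, k, rfl⟩
      exact ⟨_, (RZ.lr_rel ha k).2, by rw [RZ.ev_r, sub_add_cancel]⟩
  | a l ih =>
    intro T h A B A' B' hA hB hA' hB' v hv
    have := ih _ h A (B / 2) A' B' hA (by linarith) hA' hB' _ (RX.sL_rel (hs1 A' B') hv)
    rwa [RX.ev_sL, mul_div_cancel₀ _ two_ne_zero] at this
  | b l ih =>
    intro T h A B A' B' hA hB hA' hB' v hv
    have := ih _ h (A / 2) B A' B' (by linarith) hB hA' hB' _ (RX.sR_rel (hs1 A' B') hv)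
    rwa [RX.ev_sR, mul_div_cancel₀ _ two_ne_zero] at this
  | c l ih =>
    intro T h A B A' B' hA hB hA' hB' v hv
    refine ih _ h A B A' (B' / 2) hA hB hA' (by linarith) v (RX.rel_map ?_ hv)
    rintro r _ ⟨u, k, rfl⟩
    exact ⟨_, RZ.sL_rel hs k, by rw [RZ.ev_sL, mul_div_cancel₀ _ two_ne_zero]⟩
  | d l ih =>
    intro T h A B A' B' hA hB hA' hB' v hv
    refine ih _ h A B (A' / 2) B' hA hB (by linarith) hB' v (RX.rel_map ?_ hv)
    rintro r _ ⟨u, k, rfl⟩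
    exact ⟨_, RZ.sR_rel hs k, by rw [RZ.ev_sR, mul_div_cancel₀ _ two_ne_zero]⟩

def dotN (ws : List ℕ) : List ℕ → ℕ :=
  List.rec (fun _ => 0)
    (fun w _ ih p => List.rec 0 (fun a l _ => Nat.add (Nat.mul w a) (ih l)) p) ws

def wtsN (A B n : ℕ) : List ℕ :=
  Nat.rec [1] (fun k ih => Nat.pow B (Nat.add k 1) :: mp (Nat.mul A) ih) n

theorem dotN_eq (ws p : List ℕ) : dotN ws p = dot ws p := by
  induction ws generalizing p with
  | nil => cases p <;> rfl
  | cons w ws ih => cases p with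
    | nil => rfl
    | cons a p => exact congrArg (w * a + ·) (ih p)

theorem wtsN_eq (A B n : ℕ) : wtsN A B n = wts A B n := by
  induction n with
  | zero => rfl
  | succ n ih =>
    have : wtsN A B (n + 1) = B ^ (n + 1) :: mp (Nat.mul A) (wtsN A B n) := rfl
    rw [this, mp_eq, ih]; rfl

theorem vv_nat (A B C E nt nd : ℕ) (D : List (List ℕ)) :
    dotN (wtsN A B nt) (mp (dotN (wtsN C E nd)) D) = vv A B C E nt nd D := by
  rw [dotN_eq, mp_eq, wtsN_eq, wtsN_eq, vv]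
  congr 2
  funext r
  rw [dotN_eq]
  congr 1
  exact (List.map_id r).symm

/-- The array `D` holds the coefficients of the form `T`, shifted by `M0`. -/
def Link (M0 nt nd : ℕ) (T : T4) (D : Mat (List (List ℕ))) : Prop :=
  (∀ r ∈ RX.toL D, ∀ q ∈ RZ.toL r, ∀ l ∈ q, ∀ x ∈ l, x ≤ 2 * M0) ∧
  ∀ Ax Bx Az Bz At Bt Ad Bd : ℝ, RX.ev Ax Bx (RX.map (fun r => RZ.ev Az Bz (RZ.map (fun q =>
      vv At Bt Ad Bd nt nd q - M0 * vv At Bt Ad Bd nt nd (on2 nt nd)) r)) D) =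
    27720 * (2520 * e4 Ax Bx Az Bz At Bt Ad Bd 12 10 nt nd T)

def cellB (u M0 V K JP B0 mb : ℕ) (wT : List ℕ) (t : Tr) (M1 : Mat (List ℕ)) : Bool :=
  band (Nat.ble (M0 * JP) (V ^ K)) (band (Nat.ble (2 * B0 * geo V K) (V ^ K))
    (band (Nat.blt (2 * 2 ^ mb * B0) (2 ^ u))
      (run (2 ^ u * geo V K) (2 ^ mb * V ^ K) t
        ((fun C => RX.map (RZ.map (fun l => Nat.add (dotN wT l) C)) M1) (V ^ K - M0 * JP)))))

def cell (u M0 nt nd V c c' e e' : ℕ) (wD : List ℕ) (M1 : Mat (List ℕ)) (a a' b b' mb : ℕ) (t : Tr) :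
    Bool :=
  (fun wT => cellB u M0 V ((nt + 1) * (nd + 1)) (dotN wT (mp (dotN wD) (on2 nt nd)))
    (M0 * dotN (wtsN (a + a') (b + b') nt) (mp (dotN (wtsN (c + c') (e + e') nd)) (on2 nt nd)))
    mb wT t M1) (wtsN (a + a' * V ^ (nd + 1)) (b + b' * V ^ (nd + 1)) nt)

theorem cell_sound {u M0 nt nd c c' e e' a a' b b' mb : ℕ} {t : Tr} {T : T4}
    {D : Mat (List (List ℕ))} (hL : Link M0 nt nd T D)
    (h : cell u M0 nt nd (2 ^ (u + 1)) c c' e e'
      (wtsN (c + c' * 2 ^ (u + 1)) (e + e' * 2 ^ (u + 1)) nd)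
      (RX.map (RZ.map (mp (dotN (wtsN (c + c' * 2 ^ (u + 1)) (e + e' * 2 ^ (u + 1)) nd)))) D)
      a a' b b' mb t = true) {Ax Bx Az Bz yT yD : ℝ} (hAx : 0 ≤ Ax) (hBx : 0 ≤ Bx) (hAz : 0 ≤ Az)
    (hBz : 0 ≤ Bz) (hT : 0 ≤ yT) (hD : 0 ≤ yD) :
    0 ≤ e4 Ax Bx Az Bz (a + a' * yT) (b + b' * yT) (c + c' * yD) (e + e' * yD) 12 10 nt nd T := by
  simp only [cell, cellB, vv_nat] at h
  obtain ⟨h1, h⟩ := band_eq h
  obtain ⟨h2, h⟩ := band_eq h
  obtain ⟨h3, h⟩ := band_eq h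
  have hY : ∀ k, 0 ≤ YY (nd + 1) yT yD k := fun k => by unfold YY; positivity
  have := run_sound (R := R0 _ _ _ (YY (nd + 1) yT yD)) R0.add R0.shl
    (fun o ho n φ hs hn => R0.nonneg hY (Nat.le_of_ble_eq_true h2) (Nat.blt_eq.mp h3) ho hs hn)
    t _ h Ax Bx Az Bz hAx hBx hAz hBz (RX.map (fun r => RZ.ev Az Bz (RZ.map (fun q =>
      vv (a + a' * yT) (b + b' * yT) (c + c' * yD) (e + e' * yD) nt nd q - M0 *
      vv (a + a' * yT) (b + b' * yT) (c + c' * yD) (e + e' * yD) nt nd (on2 nt nd)) r)) D) (by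
      rw [RX.map_map]
      refine RX.rel_of fun r hr => ⟨_, ?_, rfl⟩
      rw [RZ.map_map]
      refine RZ.rel_of fun q hq => ?_
      rw [vv_nat]
      exact R0.root _ _ _ _ _ _ _ _ _ _ _ _ _ _ q (hL.1 r hr q hq) (Nat.le_of_ble_eq_true h1))
  rw [hL.2] at this
  exact nonneg_of_mul_nonneg_right (nonneg_of_mul_nonneg_right this (by norm_num) ) (by norm_num)

theorem evH_fmul {α : Type} {f g : α → ℝ} {c : ℝ} (h : ∀ a, f a = c * g a) (A B : ℝ) (n : ℕ)
    (p : List α) : evH f A B n p = c * evH g A B n p := by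
  have := evH_mp (h := id) h A B n p
  rwa [mp_eq, List.map_id] at this

theorem e4_scale (Ax Bx Az Bz At Bt Ad Bd k l : ℝ) (n1 n2 n3 n4 : ℕ) (T : T4) :
    e4 Ax Bx Az Bz (k * At) (k * Bt) (l * Ad) (l * Bd) n1 n2 n3 n4 T =
      k ^ n3 * l ^ n4 * e4 Ax Bx Az Bz At Bt Ad Bd n1 n2 n3 n4 T := by
  refine evH_fmul (fun r => evH_fmul (fun q => ?_) _ _ _ r) _ _ _ T
  rw [e2, evH, dot_wts_scale, mul_assoc]
  congr 1
  exact evH_fmul (fun u => dot_wts_scale _ _ _ _ _) _ _ _ q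

/-- The form `T` is nonnegative on a box. -/
def Pos (nt nd : ℕ) (T : T4) (t0 t1 d0 d1 : ℕ) : Prop :=
  ∀ Ax Bx Az Bz τ e : ℝ, 0 ≤ Ax → 0 ≤ Bx → 0 ≤ Az → 0 ≤ Bz → t0 ≤ 32 * τ → 32 * τ < t1 →
    d0 ≤ 32 * e → 32 * e < d1 → 0 ≤ e4 Ax Bx Az Bz τ (1 - τ) e (1 - e) 12 10 nt nd T

theorem Pos.glueT {nt nd : ℕ} {T : T4} {t0 t1 t2 d0 d1 : ℕ} (h : Pos nt nd T t0 t1 d0 d1)
    (h' : Pos nt nd T t1 t2 d0 d1) : Pos nt nd T t0 t2 d0 d1 := by
  intro Ax Bx Az Bz τ e a1 a2 a3 a4 b1 b2 b3 b4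
  rcases lt_or_ge (32 * τ) t1 with k | k
  · exact h _ _ _ _ _ _ a1 a2 a3 a4 b1 k b3 b4
  · exact h' _ _ _ _ _ _ a1 a2 a3 a4 k b2 b3 b4

theorem Pos.glueD {nt nd : ℕ} {T : T4} {t0 t1 d0 d1 d2 : ℕ} (h : Pos nt nd T t0 t1 d0 d1)
    (h' : Pos nt nd T t0 t1 d1 d2) : Pos nt nd T t0 t1 d0 d2 := by
  intro Ax Bx Az Bz τ e a1 a2 a3 a4 b1 b2 b3 b4
  rcases lt_or_ge (32 * e) d1 with k | k
  · exact h _ _ _ _ _ _ a1 a2 a3 a4 b1 b2 b3 k
  · exact h' _ _ _ _ _ _ a1 a2 a3 a4 b1 b2 k b4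

theorem ray {g dn a b : ℕ} (h1 : g * dn = 32) (h2 : a ≤ dn) (h3 : b ≤ dn) {τ : ℝ}
    (k1 : (g * a : ℕ) ≤ 32 * τ) (k2 : 32 * τ < (g * b : ℕ)) :
    ∃ y k : ℝ, 0 ≤ y ∧ 0 ≤ k ∧ τ = k * (a + b * y) ∧
      1 - τ = k * ((dn - a : ℕ) + (dn - b : ℕ) * y) := by
  have e : (g : ℝ) * dn = 32 := by exact_mod_cast h1
  have hg : (0 : ℝ) < g := by
    rcases Nat.eq_zero_or_pos g with h | h
    · rw [h] at h1; omega
    · exact_mod_cast h
  have hd : (0 : ℝ) < dn := by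
    rcases Nat.eq_zero_or_pos dn with h | h
    · rw [h] at h1; omega
    · exact_mod_cast h
  push_cast at k1 k2
  rw [← e, mul_assoc] at k1 k2
  have l1 := le_of_mul_le_mul_left k1 hg
  have l2 := lt_of_mul_lt_mul_left k2 hg.le
  have p1 : 0 < b - dn * τ := by linarith
  have p2 : (0 : ℝ) < b - a := by linarith
  refine ⟨(dn * τ - a) / (b - dn * τ), (b - dn * τ) / (dn * (b - a)), div_nonneg (by linarith) p1.le,
    by positivity, ?_, ?_⟩
  · have := p1.ne'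
    have := p2.ne'
    have e1 : (b - dn * τ) * ((dn * τ - a) / (b - dn * τ)) = dn * τ - a := by field_simp
    rw [div_mul_eq_mul_div, eq_div_iff (by positivity)]
    linear_combination (-(b : ℝ)) * e1
  · have := p1.ne'
    have := p2.ne'
    have e1 : (b - dn * τ) * ((dn * τ - a) / (b - dn * τ)) = dn * τ - a := by field_simp
    rw [Nat.cast_sub h2, Nat.cast_sub h3, div_mul_eq_mul_div, eq_div_iff (by positivity)]
    linear_combination (-((dn : ℝ) - b)) * e1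

def grpL (f : ℕ → ℕ → ℕ → ℕ → ℕ → Tr → Bool) (t1 : ℕ) (l : List Cl) : ℕ → Bool :=
  List.rec (fun cur => Nat.ble t1 cur) (fun c _ ih cur =>
    Cl.rec (fun g dn a b mb t => band (Nat.beq (g * dn) 32) (band (Nat.ble a dn) (band (Nat.ble b dn)
      (band (Nat.beq (g * a) cur) (band (f a b (dn - a) (dn - b) mb t) (ih (g * b))))))) c) l

def grp (u M0 nt nd g dn c c' t0 t1 : ℕ) (D : Mat (List (List ℕ))) (l : List Cl) : Bool :=
  band (Nat.beq (g * dn) 32) (band (Nat.ble c dn) (band (Nat.ble c' dn)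
    ((fun V => (fun wD => grpL (cell u M0 nt nd V c c' (dn - c) (dn - c') wD
      (RX.map (RZ.map (mp (dotN wD))) D)) t1 l t0) (wtsN (c + c' * V) (dn - c + (dn - c') * V) nd))
      (2 ^ (u + 1)))))

theorem grp_sound {u M0 nt nd g dn c c' t0 t1 : ℕ} {T : T4} {D : Mat (List (List ℕ))} {l : List Cl}
    (hL : Link M0 nt nd T D) (h : grp u M0 nt nd g dn c c' t0 t1 D l = true) :
    Pos nt nd T t0 t1 (g * c) (g * c') := by
  obtain ⟨h1, g1⟩ := band_eq h
  obtain ⟨h2, g2⟩ := band_eq g1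
  obtain ⟨h3, g3⟩ := band_eq g2
  clear h g1 g2
  rename' g3 => h
  intro Ax Bx Az Bz τ e a1 a2 a3 a4 b1 b2 b3 b4
  obtain ⟨yD, kD, p1, p2, p3, p4⟩ := ray (Nat.eq_of_beq_eq_true h1) (Nat.le_of_ble_eq_true h2)
    (Nat.le_of_ble_eq_true h3) b3 b4
  beta_reduce at h
  induction l generalizing t0 with
  | nil =>
    have : (t1 : ℝ) ≤ t0 := by exact_mod_cast Nat.le_of_ble_eq_true h
    linarith
  | cons x l ih =>
    obtain ⟨g', dn', a, b, mb, t⟩ := x
    obtain ⟨k1, h⟩ := band_eq h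
    obtain ⟨k2, h⟩ := band_eq h
    obtain ⟨k3, h⟩ := band_eq h
    obtain ⟨k4, h⟩ := band_eq h
    obtain ⟨k5, h⟩ := band_eq h
    rcases lt_or_ge (32 * τ) (g' * b : ℕ) with k | k
    · rw [← Nat.eq_of_beq_eq_true k4] at b1
      obtain ⟨yT, kT, q1, q2, q3, q4⟩ := ray (Nat.eq_of_beq_eq_true k1) (Nat.le_of_ble_eq_true k2)
        (Nat.le_of_ble_eq_true k3) b1 k
      rw [q4, p4]
      nth_rewrite 1 [q3, p3]
      rw [e4_scale]
      exact mul_nonneg (by positivity) (cell_sound hL k5 a1 a2 a3 a4 q1 p1)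
    · exact ih h k

def all2 {α β : Type} (f : α → β → Bool) (z : α) (q : List β) : List α → Bool :=
  List.rec (fun p => List.rec true (fun _ _ _ => false) p)
    (fun b _ ih p => List.rec (band (f z b) (ih [])) (fun a m _ => band (f a b) (ih m)) p) q

def all3 {α β γ : Type} (f : α → β → γ → Bool) (z : α) (o : List γ) : List β → List α → Bool :=
  List.rec (fun q p => List.rec (List.rec true (fun _ _ _ => false) p) (fun _ _ _ => false) q)
    (fun c _ ih q p => List.rec false (fun b m _ =>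
      List.rec (band (f z b c) (ih m [])) (fun a n _ => band (f a b c) (ih m n)) p) q) o

theorem all2_sound {α β : Type} {f : α → β → Bool} {z : α} {F : α → ℝ} {G : β → ℝ} {Q : β → Prop}
    (hz : F z = 0) (H : ∀ a b, f a b = true → F a = G b ∧ Q b) (ws : List ℝ) (q : List β)
    (p : List α) (h : all2 f z q p = true) :
    dot ws (p.map F) = dot ws (q.map G) ∧ ∀ b ∈ q, Q b := by
  induction q generalizing p ws with
  | nil => cases p with
    | nil => simp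
    | cons b q => cases h
  | cons b q ih =>
    have aux : ∀ a p, band (f a b) (all2 f z q p) = true →
        dot ws ((a :: p).map F) = dot ws ((b :: q).map G) ∧ ∀ c ∈ b :: q, Q c := by
      intro a p h
      obtain ⟨h1, h2⟩ := band_eq h
      obtain ⟨k1, k2⟩ := H a b h1
      cases ws with
      | nil =>
        simp only [dot_nil_left, List.mem_cons, forall_eq_or_imp, true_and]
        exact ⟨k2, (ih [] p h2).2⟩
      | cons w ws =>
        obtain ⟨k3, k4⟩ := ih ws p h2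
        simp only [List.map_cons, dot_cons, k1, k3, List.mem_cons, forall_eq_or_imp, true_and]
        exact ⟨k2, k4⟩
    cases p with
    | nil =>
      have := aux z [] h
      refine ⟨Eq.trans ?_ this.1, this.2⟩
      cases ws <;> simp [hz]
    | cons a p => exact aux a p h

theorem all3_sound {α β γ : Type} {f : α → β → γ → Bool} {z : α} {F : α → ℝ} {G : β → ℝ}
    {K : γ → ℝ} {Q : β → Prop} {M : ℝ} (hz : F z = 0)
    (H : ∀ a b c, f a b c = true → F a = G b - M * K c ∧ Q b) (ws : List ℝ)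
    (o : List γ) (q : List β) (p : List α) (h : all3 f z o q p = true) :
    dot ws (p.map F) = dot ws (q.map G) - M * dot ws (o.map K) ∧ ∀ b ∈ q, Q b := by
  induction o generalizing q p ws with
  | nil => cases q with
    | nil => cases p with
      | nil => simp
      | cons c o => cases h
    | cons b q => cases h
  | cons c o ih => cases q with
    | nil => cases h
    | cons b q =>
      have aux : ∀ a p, band (f a b c) (all3 f z o q p) = true →
          dot ws ((a :: p).map F) = dot ws ((b :: q).map G) - M * dot ws ((c :: o).map K) ∧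
            ∀ c ∈ b :: q, Q c := by
        intro a p h
        obtain ⟨h1, h2⟩ := band_eq h
        obtain ⟨k1, k2⟩ := H a b c h1
        cases ws with
        | nil =>
          simp only [dot_nil_left, List.mem_cons, forall_eq_or_imp, mul_zero, sub_zero, true_and]
          exact ⟨k2, (ih [] q p h2).2⟩
        | cons w ws =>
          obtain ⟨k3, k4⟩ := ih ws q p h2
          simp only [List.map_cons, dot_cons, k1, k3, List.mem_cons, forall_eq_or_imp]
          exact ⟨by ring, k2, k4⟩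
      cases p with
      | nil =>
        have := aux z [] h
        refine ⟨Eq.trans ?_ this.1, this.2⟩
        cases ws <;> simp [hz]
      | cons a p => exact aux a p h

def cmp0 (M0 M2 : ℕ) (t : ℤ) (d o : ℕ) : Bool :=
  band (Int.rec (fun n => Nat.beq n d) (fun _ => false) (iadd t (Int.ofNat (Nat.mul M0 o))))
    (Nat.ble d M2)

def link (M0 nt nd : ℕ) (T : T4) (D : Mat (List (List ℕ))) : Bool :=
  (fun o => all2 (fun r s => all2 (fun q p => all3 (fun (a : T1) b c =>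
    all3 (cmp0 M0 (2 * M0)) 0 c b a) [] o p q) [] (RZ.toL s) r) [] (RX.toL D)
    (zs s3 RX.cs (mp (zs s2 RZ.cs) T))) (on2 nt nd)

theorem cmp0_sound {M0 : ℕ} (t : ℤ) (d o : ℕ) (h : cmp0 M0 (2 * M0) t d o = true) :
    e0 t = d - M0 * (o : ℝ) ∧ d ≤ 2 * M0 := by
  obtain ⟨h1, h2⟩ := band_eq h
  refine ⟨?_, Nat.le_of_ble_eq_true h2⟩
  have e := iadd_eq t (Int.ofNat (Nat.mul M0 o))
  generalize iadd t (Int.ofNat (Nat.mul M0 o)) = y at e h1
  cases y with
  | negSucc n => cases h1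
  | ofNat n =>
    have : n = d := Nat.eq_of_beq_eq_true h1
    subst this
    simp only [Int.ofNat_eq_natCast, Nat.mul_eq] at e
    have : (n : ℝ) = t + (M0 * o : ℕ) := by exact_mod_cast e
    unfold e0
    push_cast at this; linarith

theorem link_sound {M0 nt nd : ℕ} {T : T4} {D : Mat (List (List ℕ))} (h : link M0 nt nd T D = true) :
    Link M0 nt nd T D := by
  unfold link at h
  beta_reduce at h
  have key : ∀ (Az Bz At Bt Ad Bd : ℝ) (ws : List ℝ), _ := fun Az Bz At Bt Ad Bd ws => all2_sound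
    (F := fun r : T3 => dot (List.zipWith (fun (c : ℤ) w => (c : ℝ) * w) RZ.bs (wts Az Bz 10))
      (r.map (e2 At Bt Ad Bd nt nd)))
    (G := fun r => RZ.ev Az Bz (RZ.map (fun q =>
      vv At Bt Ad Bd nt nd q - M0 * vv At Bt Ad Bd nt nd (on2 nt nd)) r))
    (Q := fun r => ∀ q ∈ RZ.toL r, ∀ l ∈ q, ∀ x ∈ l, x ≤ 2 * M0) (z := []) (by simp) (fun r s hrs => by
      have := all2_sound (F := e2 At Bt Ad Bd nt nd)
        (G := fun q => vv At Bt Ad Bd nt nd q - M0 * vv At Bt Ad Bd nt nd (on2 nt nd))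
        (Q := fun q => ∀ l ∈ q, ∀ x ∈ l, x ≤ 2 * M0) (e2_z _ _ _ _ _ _) (fun q p hqp =>
          all3_sound (F := e1 Ad Bd nd) (e1_z _ _ _) (fun a b c habc =>
            all3_sound (F := e0) (G := Nat.cast) (K := Nat.cast) e0_z cmp0_sound _ c b a habc)
            _ _ p q hqp) (List.zipWith (fun (c : ℤ) w => (c : ℝ) * w) RZ.bs (wts Az Bz 10)) (RZ.toL s) r hrs
      exact ⟨by rw [RZ.ev_toL, this.1], this.2⟩) ws _ _ h
  refine ⟨(key 0 0 0 0 0 0 []).2, fun Ax Bx Az Bz At Bt Ad Bd => ?_⟩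
  rw [RX.ev_toL, ← (key Az Bz At Bt Ad Bd _).1,
    dot_zs (sm := s3) (fun c a => dot_mp (e2_s _ _ _ _ _ _ c) _ a), RX.cs_bs, dot_map_mul]
  congr 1
  refine dot_mp (fun r => ?_) _ T
  rw [dot_zs (e2_s _ _ _ _ _ _), RZ.cs_bs, dot_map_mul]
  rfl

end

end Pool.Agent.MP_8fe08c_co.h82
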